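import Pool.Agent.Lib.MP_5854e1_co.Crc.CgA

/-!
# The minimal side of a circle, for any graph on seven labels

Among all circles over the images of the triangle `T` under the automorphisms of `G` and their
sides which are not faces take the smallest one.
-/

set_option autoImplicit false

open Equiv Equiv.Perm Relation

namespace Pool.Agent.Lib.MP_5854e1_co.Crc.Cg

open Crc K7S

variable {G : SimpleGraph (Fin 7)}

/-- an automorphism -/
def IsAut (G : SimpleGraph (Fin 7)) (σ : Perm (Fin 7)) : Prop :=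
  ∀ i j, G.Adj (σ i) (σ j) ↔ G.Adj i j

instance [DecidableRel G.Adj] (σ : Perm (Fin 7)) : Decidable (IsAut G σ) := by
  unfold IsAut
  infer_instance

theorem aut_one : IsAut G 1 := fun _ _ => Iff.rfl

theorem IsAut.mul {σ τ : Perm (Fin 7)} (hσ : IsAut G σ) (hτ : IsAut G τ) : IsAut G (σ * τ) :=
  fun i j => (hσ _ _).trans (hτ i j)

namespace Bs

variable {D : Type*}

/-- a contour keeps the cyclic direction -/
theorem dir_const [Finite D] (B : Bs G D) {S : Fin 7 → Prop} (hS : Tri G S) {e : D}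
    (he : B.On S e) {d : Fin 7 → Fin 7 → Prop}
    (hd2 : ∀ i j k, S i → S j → S k → i ≠ j → j ≠ k → i ≠ k → (d i j ↔ d j k)) {x : D}
    (hx : B.Ci S e x) (hex : (B.cmap S e).th.SameCycle e x) :
    d (B.lab x).1 (B.lab x).2 ↔ d (B.lab e).1 (B.lab e).2 := by
  set th := (B.cmap S e).th with hth
  set dd : D → Prop := fun x => d (B.lab x).1 (B.lab x).2 with hdd
  set Inv : D → Prop := fun z => ∃ a i, B.Ci S e a ∧ (dd (B.inv a) ↔ dd e) ∧ 1 ≤ i ∧
    B.rot^[i] a = z ∧ ∀ j, 1 ≤ j → j < i → ¬ B.Ci S e (B.rot^[j] a) with hInv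
  have hA : ∀ z, Inv z → B.Ci S e z → (dd z ↔ dd e) := by
    rintro z ⟨a, i, ha, hda, hi, rfl, hj⟩ hz
    obtain ⟨b, hab, hne, hcb, hl1, hl2, hu⟩ := B.mate hS ha
    obtain ⟨m, hm, hmb⟩ := sameCycle_iterate B.rot hab
    have hm0 : m ≠ 0 := by
      rintro rfl
      exact hne hmb.symm
    have hs : B.rot.SameCycle a (B.rot^[i] a) := ⟨(i : ℕ), by rw [zpow_natCast, Equiv.Perm.coe_pow]⟩
    have hzb : B.rot^[i] a = b := by
      refine (hu _ hs hz).resolve_left fun h => ?_
      have hper : Function.IsPeriodicPt B.rot i a := h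
      have hle := hper.minimalPeriod_le (by omega)
      exact hj m (by omega) (by omega) (hmb ▸ hcb)
    rw [← hda, hzb]
    have e1 : (B.lab (B.inv a)) = ((B.lab a).2, (B.lab a).1) := by rw [B.lab_inv]; rfl
    show d (B.lab b).1 (B.lab b).2 ↔ d (B.lab (B.inv a)).1 (B.lab (B.inv a)).2
    rw [e1, B.src_same hab]
    refine (hd2 _ _ _ ha.1.2 ha.1.1 hcb.1.2 (B.adj a).ne' ?_ ?_).symm
    · exact fun h => hl1 h.symm
    · exact fun h => hl2 h.symm
  have hB : ∀ z, Inv z → Inv (th z) := by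
    intro z hz
    by_cases hc : B.Ci S e z
    · refine ⟨B.inv z, 1, (B.ci_inv S).2 hc, ?_, le_rfl, ?_, fun j h1 h2 => by omega⟩
      · rw [B.inv_inv]
        exact hA z hz hc
      · exact ((B.cmap S e).th_F hc).symm
    · obtain ⟨a, i, ha, hda, hi, rfl, hj⟩ := hz
      refine ⟨a, i + 1, ha, hda, by omega, ?_, ?_⟩
      · rw [Function.iterate_succ_apply']
        exact ((B.cmap S e).th_nF hc).symm
      · intro j h1 h2
        rcases Nat.lt_succ_iff_lt_or_eq.1 h2 with h | rfl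
        · exact hj j h1 h
        · exact hc
  have h1 : Inv (th e) := by
    refine ⟨B.inv e, 1, (B.ci_inv S).2 (B.ci_self he), by rw [B.inv_inv], le_rfl, ?_,
      fun j h1 h2 => by omega⟩
    exact ((B.cmap S e).th_F (B.ci_self he)).symm
  have h2 : ∀ n, Inv (th^[n + 1] e) := by
    intro n
    induction n with
    | zero => exact h1
    | succ n ih =>
      rw [Function.iterate_succ_apply']
      exact hB _ ih
  obtain ⟨i, hi, hie⟩ := sameCycle_iterate th hex
  rcases Nat.eq_zero_or_pos i with rfl | hi0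
  · rw [show e = x from hie]
  · obtain ⟨n, rfl⟩ := Nat.exists_eq_succ_of_ne_zero hi0.ne'
    have h3 := h2 n
    rw [show th^[n + 1] e = x from hie] at h3
    exact hA x h3 hx

/-- relabelling -/
def rel (B : Bs G D) {σ : Perm (Fin 7)} (hσ : IsAut G σ) : Bs G D where
  rot := B.rot
  inv := B.inv
  lab := fun d => (σ (B.lab d).1, σ (B.lab d).2)
  inv_inv := B.inv_inv
  inv_ne := B.inv_ne
  lab_inv := fun d => by rw [B.lab_inv]; rfl
  adj := fun d => (hσ _ _).2 (B.adj d)
  src := fun d => by rw [B.src]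
  inj := fun d d' h h' => B.inj d d' h (σ.injective h')
  surj := fun d j hj => by
    have h1 : G.Adj (B.lab d).1 (σ.symm j) := by
      rw [← hσ, Equiv.apply_symm_apply]
      exact hj
    obtain ⟨d', h2, h3⟩ := B.surj d _ h1
    exact ⟨d', h2, by show σ (B.lab d').2 = j; rw [h3, Equiv.apply_symm_apply]⟩

variable [Fintype D] (B : Bs G D) (T : Fin 7 → Prop)

/-- a circle over the triangle with a side that is not a face -/
def Cand {σ : Perm (Fin 7)} (hσ : IsAut G σ) (e : D) : Prop := (B.rel hσ).On T e ∧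
  ∃ x, EqvGen ((B.rel hσ).cmap T e).rel e x ∧ ¬ (B.rel hσ).Ci T e x

omit [Fintype D] in
/-- a dart of the circle followed by a dart off the triangle gives a candidate -/
theorem cand_of {a : D} (ha : B.On T a) (h : ¬ T (B.lab (B.rot a)).2) :
    B.Cand T aut_one (B.inv a) := by
  have haon : (B.rel aut_one).On T a := ha
  have hiaon : (B.rel aut_one).On T (B.inv a) := ((B.rel aut_one).on_inv T).2 haon
  refine ⟨hiaon, B.rot a, EqvGen.rel _ _ (Or.inl ?_), fun h' => h h'.1.2⟩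
  rw [CMap.th_F _ (show ((B.rel aut_one).cmap T (B.inv a)).F (B.inv a) from
    (B.rel aut_one).ci_self hiaon)]
  show B.rot (B.inv (B.inv a)) = B.rot a
  rw [B.inv_inv]

/-- the number of darts of the side -/
noncomputable def sz {σ : Perm (Fin 7)} (hσ : IsAut G σ) (e : D) : ℕ :=
  Nat.card {x // EqvGen ((B.rel hσ).cmap T e).rel e x}

omit [Fintype D] in
theorem exists_min (hex : ∃ e, B.Cand T aut_one e) :
    ∃ (σ : Perm (Fin 7)) (hσ : IsAut G σ) (e : D), B.Cand T hσ e ∧
      ∀ (τ : Perm (Fin 7)) (hτ : IsAut G τ) (f : D), B.Cand T hτ f → B.sz T hσ e ≤ B.sz T hτ f := by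
  classical
  have hex : ∃ n, ∃ (σ : Perm (Fin 7)) (hσ : IsAut G σ) (e : D), B.Cand T hσ e ∧
      B.sz T hσ e = n := by
    obtain ⟨e, he⟩ := hex
    exact ⟨_, 1, aut_one, e, he, rfl⟩
  obtain ⟨σ, hσ, e, he, hn⟩ := Nat.find_spec hex
  refine ⟨σ, hσ, e, he, fun τ hτ f hf => ?_⟩
  rw [hn]
  exact Nat.find_min' hex ⟨τ, hτ, f, hf, rfl⟩

variable {T}

/-- in the minimal side all disjoint circles are faces -/
theorem key [DecidableEq D] (hT : Tri G T) (hpl : defect B.rot B.inv = 0)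
    {σ : Perm (Fin 7)} {hσ : IsAut G σ} {e : D} (he : B.Cand T hσ e)
    (hmin : ∀ (τ : Perm (Fin 7)) (hτ : IsAut G τ) (f : D), B.Cand T hτ f →
      B.sz T hσ e ≤ B.sz T hτ f)
    {τ : Perm (Fin 7)} (hτ : IsAut G τ) {x : D} (hx : (B.rel hτ).On T x)
    (hdis : ∀ y z, (B.rel hσ).Ci T e y → (B.rel hτ).Ci T x z → ¬ B.rot.SameCycle y z)
    (hex : EqvGen ((B.rel hσ).cmap T e).rel e x) :
    ∃ f, (f = x ∨ f = B.inv x) ∧ ∀ y, (B.rot * B.inv).SameCycle f y →
      (B.rel hτ).Ci T x y := by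
  obtain ⟨f, hf, hsub, hnot⟩ := nest (M := (B.rel hσ).cmap T e) (M' := (B.rel hτ).cmap T x)
    rfl rfl ((B.rel hσ).oneCircle hT he.1) ((B.rel hτ).oneCircle hT hx) hdis hpl hex
  refine ⟨f, hf, fun y hy => ?_⟩
  have hxf : EqvGen ((B.rel hτ).stp T) x f := by
    rcases hf with rfl | rfl
    · exact EqvGen.refl _
    · exact EqvGen.rel _ _ ⟨hx, ((B.rel hτ).on_inv T).2 hx, Or.inl rfl⟩
  have hcm : (B.rel hτ).cmap T x = (B.rel hτ).cmap T f := (B.rel hτ).cmap_congr T hxf
  have hfy : EqvGen ((B.rel hτ).cmap T x).rel f y := by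
    set M' := (B.rel hτ).cmap T x with hM'
    refine (inv_same (σ := M'.fc) (R := fun z => EqvGen M'.rel f z) (fun z => ?_) hy).1
      (EqvGen.refl _)
    have h1 : EqvGen M'.rel z (M'.ga z) := EqvGen.rel _ _ (Or.inr rfl)
    have h2 : EqvGen M'.rel (M'.ga z) (M'.fc z) := EqvGen.rel _ _ (Or.inl (M'.th_ga z))
    have h3 := h1.trans _ _ _ h2
    exact ⟨fun h => h.trans _ _ _ (h3.symm _ _), fun h => h.trans _ _ _ h3⟩
  by_contra hc
  have hfon : (B.rel hτ).On T f := by
    rcases hf with rfl | rfl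
    · exact hx
    · exact ((B.rel hτ).on_inv T).2 hx
  have hcand : B.Cand T hτ f := ⟨hfon, y, by rw [← hcm]; exact hfy, fun h =>
    hc ((Ci.congr (B.rel hτ) hxf).2 h)⟩
  have h1 := hmin τ hτ f hcand
  have h2 : B.sz T hτ f < B.sz T hσ e := by
    unfold sz
    rw [← hcm]
    have hss : {z | EqvGen ((B.rel hτ).cmap T x).rel f z} ⊂
        {z | EqvGen ((B.rel hσ).cmap T e).rel e z} := by
      refine ⟨fun z hz => hsub z hz, fun h => ?_⟩
      exact hnot (h (show e ∈ {z | EqvGen ((B.rel hσ).cmap T e).rel e z} from EqvGen.refl _))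
    exact Set.ncard_lt_ncard hss (Set.toFinite _)
  omega

end Bs

end Pool.Agent.Lib.MP_5854e1_co.Crc.Cg
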