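import Pool.Agent.Lib.MP_5854e1_co.Crc.CgH

/-!
# The facial rule in the minimal side
-/

set_option autoImplicit false

open Equiv Equiv.Perm Relation

namespace Pool.Agent.Lib.MP_5854e1_co.Crc.Cg

open Crc K7S

variable {G : SimpleGraph (Fin 7)} {D : Type*}

namespace Bs

variable [Fintype D] [DecidableEq D]

section fam

variable (B : Bs G D) {T V : Fin 7 → Prop} {e : D}

/-- all darts at a vertex with a label outside `V` -/
theorem fam_same {A : Finset D} (hA : A ∈ B.fam T V e) {x y : D} (hx : ¬ V (B.lab x).1)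
    (h : B.rot.SameCycle x y) : x ∈ A ↔ y ∈ A := by
  obtain ⟨i, -, rfl⟩ := sameCycle_iterate B.rot h
  clear h
  have key : ∀ i, (B.lab (B.rot^[i] x)).1 = (B.lab x).1 ∧ (x ∈ A ↔ B.rot^[i] x ∈ A) := by
    intro i
    induction i with
    | zero => exact ⟨rfl, Iff.rfl⟩
    | succ i ih =>
      rw [Function.iterate_succ_apply', B.src]
      refine ⟨ih.1, ih.2.trans (B.fam_rot hA fun h => ?_).symm⟩
      exact hx (ih.1 ▸ h.1)
  exact (key i).2

/-- a circle over labels outside `V` does not cross a member -/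
theorem fam_stp {A : Finset D} (hA : A ∈ B.fam T V e) {S : Fin 7 → Prop}
    (hS : ∀ i, S i → ¬ V i) {x y : D} (h : EqvGen (B.stp S) x y) : x ∈ A ↔ y ∈ A := by
  induction h with
  | rel a b hab =>
    obtain ⟨h1, h2, h3 | h3⟩ := hab
    · rw [← h3]
      exact (B.fam_inv hA fun h => hS _ h1.1 h.1).symm
    · exact B.fam_same hA (hS _ h1.1) h3
  | refl x => exact Iff.rfl
  | symm x y _ ih => exact ih.symm
  | trans x y z _ _ ih1 ih2 => exact ih1.trans ih2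

omit [Fintype D] [DecidableEq D] in
theorem on_rel {ρ : Perm (Fin 7)} (hρ : IsAut G ρ) {Z : Fin 7 → Prop}
    (hZ : ∀ i, T (ρ i) ↔ Z i) (x : D) : (B.rel hρ).On T x ↔ B.On Z x :=
  and_congr (hZ _) (hZ _)

omit [Fintype D] [DecidableEq D] in
theorem ci_rel {ρ : Perm (Fin 7)} (hρ : IsAut G ρ) {Z : Fin 7 → Prop}
    (hZ : ∀ i, T (ρ i) ↔ Z i) (x y : D) : (B.rel hρ).Ci T x y ↔ B.Ci Z x y := by
  have h1 : (B.rel hρ).stp T = B.stp Z := by
    funext a b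
    refine propext ?_
    show ((B.rel hρ).On T a ∧ (B.rel hρ).On T b ∧ _) ↔ (B.On Z a ∧ B.On Z b ∧ _)
    rw [B.on_rel hρ hZ, B.on_rel hρ hZ]
    exact Iff.rfl
  unfold Ci
  rw [h1, B.on_rel hρ hZ]

end fam

variable (B : Bs G D) {T V : Fin 7 → Prop} {e : D}

/-- in the minimal side: disjoint circles are faces -/
theorem facial0 (hT : Tri G T) (hpl : defect B.rot B.inv = 0)
    {σ : Perm (Fin 7)} {hσ : IsAut G σ} (he : B.Cand T hσ e)
    (hmin : ∀ (τ : Perm (Fin 7)) (hτ : IsAut G τ) (f : D), B.Cand T hτ f →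
      B.sz T hσ e ≤ B.sz T hτ f)
    {ρ : Perm (Fin 7)} (hρ : IsAut G ρ) {Z : Fin 7 → Prop} (hZ : ∀ i, T (ρ i) ↔ Z i)
    {x : D} (hxZ : (B.rel hσ).On Z x)
    (hdis : ∀ y z, (B.rel hσ).Ci T e y → (B.rel hσ).Ci Z x z → ¬ B.rot.SameCycle y z)
    (hex : EqvGen ((B.rel hσ).cmap T e).rel e x) :
    ∃ f, (f = x ∨ f = B.inv x) ∧ ∀ y, (B.rot * B.inv).SameCycle f y →
      (B.rel hσ).Ci Z x y := by
  have h1 : (B.rel (hρ.mul hσ)).On T x := ((B.rel hσ).on_rel hρ hZ x).2 hxZ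
  obtain ⟨f, hf, hall⟩ := B.key hT hpl he hmin (hρ.mul hσ) h1 (by
    intro y z hy hz
    exact hdis y z hy (((B.rel hσ).ci_rel hρ hZ x z).1 hz)) hex
  exact ⟨f, hf, fun y hy => ((B.rel hσ).ci_rel hρ hZ x y).1 (hall y hy)⟩

/-- **the facial rule**: inside a member of the family the circles over `Z` are faces -/
theorem facial (hT : Tri G T) (hV : Tri G V) (hTV : ∀ i, T i → ¬ V i)
    (hpl : defect B.rot B.inv = 0)
    {σ : Perm (Fin 7)} {hσ : IsAut G σ} (he : B.Cand T hσ e)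
    (hmin : ∀ (τ : Perm (Fin 7)) (hτ : IsAut G τ) (f : D), B.Cand T hτ f →
      B.sz T hσ e ≤ B.sz T hτ f)
    {ρ : Perm (Fin 7)} (hρ : IsAut G ρ) {Z : Fin 7 → Prop} (hZ : ∀ i, T (ρ i) ↔ Z i)
    (hZV : ∀ i, Z i → ¬ V i) {A : Finset D} (hA : A ∈ (B.rel hσ).fam T V e) {x : D}
    (hx : x ∈ A) (hxZ : (B.rel hσ).On Z x) :
    ∃ f, (f = x ∨ f = B.inv x) ∧ ∀ y, (B.rot * B.inv).SameCycle f y →
      (B.rel hσ).Ci Z x y := by
  obtain ⟨f0, -, -, hsub, hnot⟩ := (B.rel hσ).mem_fam.1 hA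
  refine B.facial0 hT hpl he hmin hρ hZ hxZ ?_ (hsub x hx)
  rintro y z hy hz hyz
  have h1 : z ∈ A := ((B.rel hσ).fam_stp hA hZV hz.2).1 hx
  have h2 : y ∈ A := by
    refine ((B.rel hσ).fam_same hA ?_ (show (B.rel hσ).rot.SameCycle z y from hyz.symm)).1 h1
    exact hZV _ hz.1.1
  exact hnot (((B.rel hσ).fam_stp hA hTV hy.2).2 h2)

end Bs

end Pool.Agent.Lib.MP_5854e1_co.Crc.Cg
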