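import Pool.Agent.Lib.MP_5854e1_co.Crc.CgB

/-!
# The height function of the circles of one type in a side

`e` is a dart of a circle over the triangle `T`, `V` is a triangle disjoint from `T`.  For every
circle over `V` in the side of `e` take its side away from `e`; `ht x` is the sum of the directions
of these sides over those which contain `x`.
-/

set_option autoImplicit false

open Equiv Equiv.Perm Relation

namespace Pool.Agent.Lib.MP_5854e1_co.Crc.Cg

open Crc K7S

variable {G : SimpleGraph (Fin 7)} {D : Type*}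

namespace Bs

section classes

variable (B : Bs G D) {S : Fin 7 → Prop}

theorem rl_inv {f x : D} (hx : ¬ B.Ci S f x) : EqvGen (B.cmap S f).rel x (B.inv x) :=
  EqvGen.rel _ _ (Or.inr ((B.cmap S f).ga_nF hx))

theorem rl_rot {f x : D} (hx : ¬ B.Ci S f x) : EqvGen (B.cmap S f).rel x (B.rot x) :=
  EqvGen.rel _ _ (Or.inl ((B.cmap S f).th_nF hx))

theorem rl_fc (f x : D) : EqvGen (B.cmap S f).rel x (B.rot (B.inv x)) := by
  have h1 : EqvGen (B.cmap S f).rel x ((B.cmap S f).ga x) := EqvGen.rel _ _ (Or.inr rfl)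
  have h2 : EqvGen (B.cmap S f).rel ((B.cmap S f).ga x) ((B.cmap S f).fc x) :=
    EqvGen.rel _ _ (Or.inl ((B.cmap S f).th_ga x))
  exact h1.trans _ _ _ h2

/-- two darts of the circle: the same class is the same contour -/
theorem same_of_rl [Fintype D] [DecidableEq D] (hS : Tri G S) (hpl : defect B.rot B.inv = 0)
    {f g : D} (hf : B.On S f) (hg : B.Ci S f g) (h : EqvGen (B.cmap S f).rel f g) :
    (B.cmap S f).th.SameCycle f g := by
  have ho := B.oneCircle hS hf
  refine (B.two hS hg).resolve_right fun h1 => ?_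
  exact ho.sep hpl (h.trans _ _ _ ((CMap.same_eqv _ h1).symm _ _))

theorem ci_congr' {f g : D} (hg : B.Ci S f g) : B.cmap S g = B.cmap S f :=
  (B.cmap_congr S hg.2).symm

end classes

variable [Fintype D] [DecidableEq D] (B : Bs G D) (T V : Fin 7 → Prop) (e : D)

open Classical in
/-- the side of a circle dart -/
noncomputable def cls (f : D) : Finset D :=
  Finset.univ.filter fun x => EqvGen (B.cmap V f).rel f x

open Classical in
/-- the sides of the circles over `V`, away from `e` -/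
noncomputable def fam : Finset (Finset D) :=
  Finset.univ.filter fun A => ∃ f, B.On V f ∧ A = B.cls V f ∧
    (∀ x ∈ A, EqvGen (B.cmap T e).rel e x) ∧ e ∉ A

/-- the direction of a side -/
def Pos (d : Fin 7 → Fin 7 → Prop) (A : Finset D) : Prop :=
  ∃ g ∈ A, B.inv g ∉ A ∧ d (B.lab g).1 (B.lab g).2

open Classical in
/-- the height -/
noncomputable def ht (d : Fin 7 → Fin 7 → Prop) (x : D) : ℤ :=
  ∑ A ∈ B.fam T V e, if x ∈ A then (if B.Pos d A then 1 else -1) else 0

variable {T V e}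

omit [DecidableEq D] in
theorem mem_cls {f x : D} : x ∈ B.cls V f ↔ EqvGen (B.cmap V f).rel f x := by
  classical
  unfold cls
  rw [Finset.mem_filter]
  exact ⟨fun h => h.2, fun h => ⟨Finset.mem_univ _, h⟩⟩

theorem mem_fam {A : Finset D} : A ∈ B.fam T V e ↔ ∃ f, B.On V f ∧ A = B.cls V f ∧
    (∀ x ∈ A, EqvGen (B.cmap T e).rel e x) ∧ e ∉ A := by
  classical
  unfold fam
  rw [Finset.mem_filter]
  exact ⟨fun h => h.2, fun h => ⟨Finset.mem_univ _, h⟩⟩

/-- members are closed under the face permutation -/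
theorem fam_fc {A : Finset D} (hA : A ∈ B.fam T V e) (x : D) :
    B.rot (B.inv x) ∈ A ↔ x ∈ A := by
  obtain ⟨f, hf, rfl, -, -⟩ := B.mem_fam.1 hA
  rw [mem_cls, mem_cls]
  have h := B.rl_fc (S := V) f x
  exact ⟨fun h' => h'.trans _ _ _ (h.symm _ _), fun h' => h'.trans _ _ _ h⟩

/-- only darts over `V` cross a member -/
theorem fam_inv {A : Finset D} (hA : A ∈ B.fam T V e) {x : D} (hx : ¬ B.On V x) :
    B.inv x ∈ A ↔ x ∈ A := by
  obtain ⟨f, hf, rfl, -, -⟩ := B.mem_fam.1 hA
  rw [mem_cls, mem_cls]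
  have h := B.rl_inv (S := V) (f := f) (x := x) (fun h => hx h.1)
  exact ⟨fun h' => h'.trans _ _ _ (h.symm _ _), fun h' => h'.trans _ _ _ h⟩

theorem fam_rot {A : Finset D} (hA : A ∈ B.fam T V e) {x : D} (hx : ¬ B.On V x) :
    B.rot x ∈ A ↔ x ∈ A := by
  have h := B.fam_fc hA (B.inv x)
  rw [B.inv_inv] at h
  rw [h, B.fam_inv hA hx]

/-- a dart of a member whose reverse is not in it is on its circle -/
theorem fam_cross (hV : Tri G V) (hpl : defect B.rot B.inv = 0) {A : Finset D}
    (hA : A ∈ B.fam T V e) {g : D} (hg : g ∈ A) (hig : B.inv g ∉ A) :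
    B.On V g ∧ A = B.cls V g := by
  obtain ⟨f, hf, rfl, -, -⟩ := B.mem_fam.1 hA
  have hc : B.Ci V f g := by
    by_contra hc
    rw [mem_cls] at hg hig
    exact hig (hg.trans _ _ _ (B.rl_inv hc))
  refine ⟨hc.1, ?_⟩
  ext x
  rw [mem_cls, mem_cls, B.ci_congr' hc]
  rw [mem_cls] at hg
  exact ⟨fun h => (hg.symm _ _).trans _ _ _ h, fun h => hg.trans _ _ _ h⟩

/-- the reverse of a circle dart is not in its side -/
theorem inv_notin_cls (hV : Tri G V) (hpl : defect B.rot B.inv = 0) {g : D} (hg : B.On V g) :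
    B.inv g ∉ B.cls V g := by
  rw [mem_cls]
  exact (B.oneCircle hV hg).sep hpl

/-- the direction of a member is the direction of each of its contour darts -/
theorem pos_iff (hV : Tri G V) (hpl : defect B.rot B.inv = 0) {d : Fin 7 → Fin 7 → Prop}
    (hd2 : ∀ i j k, V i → V j → V k → i ≠ j → j ≠ k → i ≠ k → (d i j ↔ d j k))
    {A : Finset D} (hA : A ∈ B.fam T V e) {g : D} (hg : g ∈ A) (hig : B.inv g ∉ A) :
    B.Pos d A ↔ d (B.lab g).1 (B.lab g).2 := by
  constructor
  · rintro ⟨g', h1, h2, h3⟩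
    obtain ⟨k1, k2⟩ := B.fam_cross hV hpl hA hg hig
    obtain ⟨m1, m2⟩ := B.fam_cross hV hpl hA h1 h2
    have hc : B.Ci V g g' := by
      by_contra hc
      rw [k2, mem_cls] at h1 h2
      exact h2 (h1.trans _ _ _ (B.rl_inv hc))
    rw [k2, mem_cls] at h1
    exact (B.dir_const hV k1 hd2 hc (B.same_of_rl hV hpl k1 hc h1)).1 h3
  · intro h
    exact ⟨g, hg, hig, h⟩

omit [DecidableEq D] in
theorem eqv_or {M : CMap D} {x y : D} (h : EqvGen M.rel x y) :
    EqvGen (fun a b => M.rot a = b ∨ M.inv a = b) x y := by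
  induction h with
  | rel x y h =>
    rcases h with h | h
    · by_cases hx : M.F x
      · rw [M.th_F hx] at h
        exact (EqvGen.rel x (M.inv x) (Or.inr rfl)).trans _ _ _ (EqvGen.rel _ _ (Or.inl h))
      · rw [M.th_nF hx] at h
        exact EqvGen.rel _ _ (Or.inl h)
    · by_cases hx : M.F x
      · rw [M.ga_F hx] at h
        rw [h]
        exact EqvGen.refl _
      · rw [M.ga_nF hx] at h
        exact EqvGen.rel _ _ (Or.inr h)
  | refl x => exact EqvGen.refl _
  | symm x y _ ih => exact ih.symm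
  | trans x y z _ _ ih1 ih2 => exact ih1.trans _ _ _ ih2

/-- the two sides of a circle together are a component -/
theorem comp_all {f : D} (hf : B.On V f) (hV : Tri G V) {x y : D}
    (h : EqvGen (fun a b => B.rot a = b ∨ B.inv a = b) x y) :
    (x ∈ B.cls V f ∨ x ∈ B.cls V (B.inv f)) ↔ (y ∈ B.cls V f ∨ y ∈ B.cls V (B.inv f)) := by
  have hcm : B.cmap V (B.inv f) = B.cmap V f :=
    B.ci_congr' ((B.ci_inv V).2 (B.ci_self hf))
  have hin : ∀ z, (z ∈ B.cls V f ∨ z ∈ B.cls V (B.inv f)) ↔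
      (EqvGen (B.cmap V f).rel f z ∨ EqvGen (B.cmap V f).rel (B.inv f) z) := by
    intro z
    rw [mem_cls, mem_cls, hcm]
  have hC : ∀ z, B.Ci V f z → (EqvGen (B.cmap V f).rel f z ∨
      EqvGen (B.cmap V f).rel (B.inv f) z) := fun z hz =>
    (B.two hV hz).imp (fun h => CMap.same_eqv _ h) (fun h => CMap.same_eqv _ h)
  have hstep : ∀ a, ((a ∈ B.cls V f ∨ a ∈ B.cls V (B.inv f)) ↔
      (B.inv a ∈ B.cls V f ∨ B.inv a ∈ B.cls V (B.inv f))) := by
    intro a
    rw [hin, hin]
    by_cases hc : B.Ci V f a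
    · exact ⟨fun _ => hC _ ((B.ci_inv V).2 hc), fun _ => hC _ hc⟩
    · have h1 := B.rl_inv hc
      exact ⟨fun h => h.imp (fun h => h.trans _ _ _ h1) (fun h => h.trans _ _ _ h1),
        fun h => h.imp (fun h => h.trans _ _ _ (h1.symm _ _))
          (fun h => h.trans _ _ _ (h1.symm _ _))⟩
  have hfc : ∀ a, ((a ∈ B.cls V f ∨ a ∈ B.cls V (B.inv f)) ↔
      (B.rot (B.inv a) ∈ B.cls V f ∨ B.rot (B.inv a) ∈ B.cls V (B.inv f))) := by
    intro a
    rw [hin, hin]
    have h1 := B.rl_fc (S := V) f a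
    exact ⟨fun h => h.imp (fun h => h.trans _ _ _ h1) (fun h => h.trans _ _ _ h1),
      fun h => h.imp (fun h => h.trans _ _ _ (h1.symm _ _))
        (fun h => h.trans _ _ _ (h1.symm _ _))⟩
  induction h with
  | rel a b h =>
    rcases h with h | h
    · rw [← h]
      have h1 := hfc (B.inv a)
      rw [B.inv_inv] at h1
      exact (hstep a).trans h1
    · rw [← h]
      exact hstep a
  | refl a => exact Iff.rfl
  | symm a b _ ih => exact ih.symm
  | trans a b c _ _ ih1 ih2 => exact ih1.trans ih2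

variable (hT : Tri G T) (hV : Tri G V) (hTV : ∀ i, T i → ¬ V i) (he : B.On T e)
  (hpl : defect B.rot B.inv = 0)

include hT hV hTV he hpl in
/-- through every dart over `V` in the side of `e` passes exactly one member -/
theorem fam_one {x : D} (hx : EqvGen (B.cmap T e).rel e x) (hxV : B.On V x) :
    (B.cls V x ∈ B.fam T V e ∧ B.cls V (B.inv x) ∉ B.fam T V e) ∨
    (B.cls V x ∉ B.fam T V e ∧ B.cls V (B.inv x) ∈ B.fam T V e) := by
  have hcm : B.cmap V (B.inv x) = B.cmap V x :=
    B.ci_congr' ((B.ci_inv V).2 (B.ci_self hxV))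
  have hixV : B.On V (B.inv x) := (B.on_inv V).2 hxV
  obtain ⟨f, hf, hsub, hnot⟩ := nest (M := B.cmap T e) (M' := B.cmap V x)
    rfl rfl (B.oneCircle hT he) (B.oneCircle hV hxV) (by
      rintro y z hy hz hyz
      have h1 : (B.lab z).1 = (B.lab y).1 := B.src_same hyz
      have h2 : V (B.lab z).1 := hz.1.1
      rw [h1] at h2
      exact hTV _ hy.1.1 h2) hpl hx
  have hmem : B.cls V f ∈ B.fam T V e := by
    rw [mem_fam]
    refine ⟨f, ?_, rfl, fun y hy => hsub y ?_, fun h => hnot ?_⟩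
    · rcases hf with rfl | rfl
      · exact hxV
      · exact hixV
    · rw [mem_cls] at hy
      rcases hf with rfl | rfl
      · exact hy
      · rw [← hcm]; exact hy
    · rw [mem_cls] at h
      rcases hf with rfl | rfl
      · exact h
      · rw [← hcm]; exact h
  have hboth : ¬ (B.cls V x ∈ B.fam T V e ∧ B.cls V (B.inv x) ∈ B.fam T V e) := by
    rintro ⟨h1, h2⟩
    obtain ⟨-, -, -, -, h3⟩ := B.mem_fam.1 h1
    obtain ⟨-, -, -, -, h4⟩ := B.mem_fam.1 h2
    have h5 := (B.comp_all hxV hV (eqv_or hx)).2 (Or.inl (by rw [mem_cls]; exact EqvGen.refl _))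
    exact h5.elim h3 h4
  rcases hf with rfl | rfl
  · exact Or.inl ⟨hmem, fun h => hboth ⟨hmem, h⟩⟩
  · exact Or.inr ⟨fun h => hboth ⟨h, hmem⟩, hmem⟩

/-- the height is constant on faces -/
theorem ht_fc (d : Fin 7 → Fin 7 → Prop) (x : D) :
    B.ht T V e d (B.rot (B.inv x)) = B.ht T V e d x := by
  classical
  unfold ht
  refine Finset.sum_congr rfl fun A hA => ?_
  simp only [B.fam_fc hA x]

/-- no change across the other edges -/
theorem ht_inv (d : Fin 7 → Fin 7 → Prop) {x : D} (hx : ¬ B.On V x) :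
    B.ht T V e d (B.inv x) = B.ht T V e d x := by
  classical
  unfold ht
  refine Finset.sum_congr rfl fun A hA => ?_
  simp only [B.fam_inv hA hx]

theorem ht_e (d : Fin 7 → Fin 7 → Prop) : B.ht T V e d e = 0 := by
  classical
  unfold ht
  refine Finset.sum_eq_zero fun A hA => ?_
  obtain ⟨-, -, -, -, h⟩ := B.mem_fam.1 hA
  rw [if_neg h]

/-- a height different from zero comes from a member -/
theorem ht_ne {d : Fin 7 → Fin 7 → Prop} {x : D} (hx : B.ht T V e d x ≠ 0) :
    ∃ A ∈ B.fam T V e, x ∈ A := by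
  classical
  by_contra hno
  push Not at hno
  apply hx
  unfold ht
  exact Finset.sum_eq_zero fun A hA => if_neg (hno A hA)

include hT hV hTV he hpl in
/-- the change of the height across an edge over `V` -/
theorem ht_cross {d : Fin 7 → Fin 7 → Prop}
    (hd1 : ∀ i j, V i → V j → i ≠ j → (d i j ↔ ¬ d j i))
    (hd2 : ∀ i j k, V i → V j → V k → i ≠ j → j ≠ k → i ≠ k → (d i j ↔ d j k))
    {x : D} (hx : EqvGen (B.cmap T e).rel e x) (hxV : B.On V x)
    (hdx : d (B.lab x).1 (B.lab x).2) :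
    B.ht T V e d x - B.ht T V e d (B.inv x) = 1 := by
  classical
  -- the only member which contains exactly one of the two darts
  have hoth : ∀ A ∈ B.fam T V e, A ≠ B.cls V x → A ≠ B.cls V (B.inv x) →
      (x ∈ A ↔ B.inv x ∈ A) := by
    intro A hA h1 h2
    constructor
    · intro h
      by_contra h3
      exact h1 (B.fam_cross hV hpl hA h h3).2
    · intro h
      by_contra h3
      exact h2 (B.fam_cross hV hpl hA h (by rw [B.inv_inv]; exact h3)).2
  have hxx : x ∈ B.cls V x := by rw [mem_cls]; exact EqvGen.refl _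
  have hii : B.inv x ∈ B.cls V (B.inv x) := by rw [mem_cls]; exact EqvGen.refl _
  have hix : B.inv x ∉ B.cls V x := B.inv_notin_cls hV hpl hxV
  have hxi : x ∉ B.cls V (B.inv x) := by
    have := B.inv_notin_cls hV hpl ((B.on_inv V).2 hxV)
    rwa [B.inv_inv] at this
  unfold ht
  rw [← Finset.sum_sub_distrib]
  rcases B.fam_one hT hV hTV he hpl hx hxV with ⟨h1, h2⟩ | ⟨h1, h2⟩
  · rw [Finset.sum_eq_single_of_mem _ h1 (fun A hA hne => ?_)]
    · rw [if_pos hxx, if_neg hix, if_pos ((B.pos_iff hV hpl hd2 h1 hxx hix).2 hdx)]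
      norm_num
    · have hne2 : A ≠ B.cls V (B.inv x) := fun h => h2 (h ▸ hA)
      simp only [hoth A hA hne hne2, sub_self]
  · rw [Finset.sum_eq_single_of_mem _ h2 (fun A hA hne => ?_)]
    · have hneg : ¬ B.Pos d (B.cls V (B.inv x)) := by
        rw [B.pos_iff hV hpl hd2 h2 hii (by rw [B.inv_inv]; exact hxi), B.lab_inv]
        exact (hd1 _ _ hxV.1 hxV.2 (B.adj x).ne).1 hdx
      rw [if_neg hxi, if_pos hii, if_neg hneg]
      norm_num
    · have hne1 : A ≠ B.cls V x := fun h => h1 (h ▸ hA)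
      simp only [hoth A hA hne1 hne, sub_self]

end Bs

end Pool.Agent.Lib.MP_5854e1_co.Crc.Cg
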