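import Pool.Agent.Lib.MP_5854e1_co.Crc.CgH

/-!
# The sum of the three heights

`V 0`, `V 1`, `V 2` are three directed triangles whose sum is the directed triangle `U` (as
chains).  If every circle over `U` in the side of `e` has a face on one side, then the sum of the
three heights vanishes on all the faces of the side which are not faces over `U`.
-/

set_option autoImplicit false

open Equiv Equiv.Perm Relation

namespace Pool.Agent.Lib.MP_5854e1_co.Crc.Cg

open Crc K7S

variable {G : SimpleGraph (Fin 7)} {D : Type*}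

namespace Bs

/-- all darts of the face of `x` are over `U` -/
def FaceU (B : Bs G D) (U : Fin 7 → Prop) (x : D) : Prop :=
  ∀ y, (B.rot * B.inv).SameCycle x y → B.On U y

theorem faceU_fc (B : Bs G D) (U : Fin 7 → Prop) (x : D) :
    B.FaceU U (B.rot (B.inv x)) ↔ B.FaceU U x := by
  have h : (B.rot * B.inv).SameCycle x (B.rot (B.inv x)) := ⟨1, by simp⟩
  exact ⟨fun h' y hy => h' y (h.symm.trans hy), fun h' y hy => h' y (h.trans hy)⟩

theorem FaceU.on {B : Bs G D} {U : Fin 7 → Prop} {x : D} (h : B.FaceU U x) : B.On U x :=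
  h x (SameCycle.refl _ _)

theorem FaceU.fc {B : Bs G D} {U : Fin 7 → Prop} {x : D} (h : B.FaceU U x) :
    B.On U (B.rot (B.inv x)) := h _ ⟨1, by simp⟩

theorem FaceU.pre {B : Bs G D} {U : Fin 7 → Prop} {x : D} (h : B.FaceU U x) :
    B.On U (B.rot.symm x) := by
  have h1 : (B.rot * B.inv).SameCycle (B.inv (B.rot.symm x)) x := ⟨1, by
    simp [B.inv_inv]⟩
  have h2 := h _ h1.symm
  exact (B.on_inv U).1 h2

section fin

variable [Finite D] (B : Bs G D) {U : Fin 7 → Prop}

/-- the labels at a vertex on `U` -/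
theorem two_lab (hU : Tri G U) {x y : D} (hx : B.On U x) (hy : B.On U y)
    (hxy : B.rot.SameCycle x y) (hne : y ≠ x) (z : D) (hz : B.On U z)
    (hxz : B.rot.SameCycle x z) : z = x ∨ z = y := by
  obtain ⟨b, h1, h2, h3, -, -, h4⟩ := B.mate hU (B.ci_self hx)
  have hc : ∀ w, B.On U w → B.rot.SameCycle x w → B.Ci U x w := fun w hw hxw =>
    ⟨hw, EqvGen.rel _ _ ⟨hx, hw, Or.inr hxw⟩⟩
  have hyb : y = b := (h4 y hxy (hc y hy hxy)).resolve_left hne
  rw [hyb]
  exact h4 z hxz (hc z hz hxz)

/-- not both faces of an edge are over `U` -/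
theorem faceU_inv (hU : Tri G U) (hU2 : ∀ i, U i → ∃ j, ¬ U j ∧ G.Adj i j) {x : D}
    (h1 : B.FaceU U x) (h2 : B.FaceU U (B.inv x)) : False := by
  have hx := h1.on
  have hr : B.On U (B.rot x) := by
    have := h2.fc
    rwa [B.inv_inv] at this
  have hp := h1.pre
  have hsr : B.rot.SameCycle x (B.rot x) := ⟨1, by simp⟩
  have hsp : B.rot.SameCycle x (B.rot.symm x) := ⟨-1, by simp⟩
  obtain ⟨j, hj, hadj⟩ := hU2 _ hx.1
  obtain ⟨y, hy, hyj⟩ := B.surj x j hadj
  have key : ∀ i : ℕ, B.rot^[i] x = x ∨ B.rot^[i] x = B.rot x := by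
    intro i
    induction i with
    | zero => exact Or.inl rfl
    | succ i ih =>
      rw [Function.iterate_succ_apply']
      rcases ih with h | h
      · rw [h]
        exact Or.inr rfl
      · rw [h]
        by_cases hne : B.rot x = x
        · rw [hne, hne]
          exact Or.inl rfl
        · rcases B.two_lab hU hx hr hsr hne _ hp hsp with h3 | h3
          · exfalso
            apply hne
            have := congrArg B.rot h3
            rw [Equiv.apply_symm_apply] at this
            exact this.symm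
          · left
            have := congrArg B.rot h3
            rw [Equiv.apply_symm_apply] at this
            exact this.symm
  obtain ⟨i, -, hi⟩ := sameCycle_iterate B.rot hy
  rcases key i with h | h
  · rw [hi] at h
    rw [h] at hyj
    exact hj (hyj ▸ hx.2)
  · rw [hi] at h
    rw [h] at hyj
    exact hj (hyj ▸ hr.2)

/-- the direction along a face over `U` -/
theorem faceU_dir (hU2 : ∀ i, U i → ∃ j, ¬ U j ∧ G.Adj i j)
    {τ : Fin 7 → Fin 7 → ℤ}
    (hτ : ∀ i j k, U i → U j → U k → i ≠ j → j ≠ k → i ≠ k → τ i j = τ j k) {x : D}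
    (h : B.FaceU U x) :
    τ (B.lab (B.rot (B.inv x))).1 (B.lab (B.rot (B.inv x))).2 = τ (B.lab x).1 (B.lab x).2 := by
  have hx := h.on
  have hf := h.fc
  have e1 : (B.lab (B.rot (B.inv x))).1 = (B.lab x).2 := by
    rw [B.src, B.lab_inv]
    rfl
  have hf1 := hf.1
  rw [e1] at hf1
  have hadj' := B.adj (B.rot (B.inv x))
  rw [e1] at hadj'
  rw [e1]
  refine (hτ _ _ _ hx.1 hf1 hf.2 (B.adj x).ne hadj'.ne ?_).symm
  · intro h3
    have hs : B.rot.SameCycle (B.inv x) (B.rot (B.inv x)) := ⟨1, by simp⟩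
    have h4 : (B.lab (B.inv x)).2 = (B.lab (B.rot (B.inv x))).2 := by
      rw [← h3, B.lab_inv]
      rfl
    have h5 := B.inj _ _ hs h4
    obtain ⟨j, hj, hadj⟩ := hU2 _ ((B.on_inv U).2 h.on).1
    obtain ⟨y, hy, hyj⟩ := B.surj (B.inv x) j hadj
    obtain ⟨i, -, hi⟩ := sameCycle_iterate B.rot hy
    have h6 : B.rot^[i] (B.inv x) = B.inv x := Function.iterate_fixed h5.symm i
    rw [hi] at h6
    rw [h6] at hyj
    exact hj (hyj ▸ ((B.on_inv U).2 h.on).2)

end fin

section sum

variable [Fintype D] [DecidableEq D] (B : Bs G D) {T U : Fin 7 → Prop} {V : Fin 3 → Fin 7 → Prop}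
  {e : D} {d : Fin 3 → Fin 7 → Fin 7 → Prop}

open Classical in
/-- the jump of a height -/
theorem ht_jump (hT : Tri G T) {V : Fin 7 → Prop} {d : Fin 7 → Fin 7 → Prop} (hV : Tri G V)
    (hTV : ∀ i, T i → ¬ V i) (he : B.On T e) (hpl : defect B.rot B.inv = 0)
    (hd1 : ∀ i j, V i → V j → i ≠ j → (d i j ↔ ¬ d j i))
    (hd2 : ∀ i j k, V i → V j → V k → i ≠ j → j ≠ k → i ≠ k → (d i j ↔ d j k))
    {x : D} (hx : EqvGen (B.cmap T e).rel e x) :
    B.ht T V e d x - B.ht T V e d (B.inv x) =
      if V (B.lab x).1 ∧ V (B.lab x).2 then (if d (B.lab x).1 (B.lab x).2 then 1 else -1)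
      else 0 := by
  by_cases hxV : B.On V x
  · rw [if_pos (show V (B.lab x).1 ∧ V (B.lab x).2 from hxV)]
    by_cases hdx : d (B.lab x).1 (B.lab x).2
    · rw [if_pos hdx, B.ht_cross hT hV hTV he hpl hd1 hd2 hx hxV hdx]
    · rw [if_neg hdx]
      have hixV : B.On V (B.inv x) := (B.on_inv V).2 hxV
      have hnT : ¬ B.Ci T e x := fun h => hTV _ h.1.1 hxV.1
      have hix : EqvGen (B.cmap T e).rel e (B.inv x) := hx.trans _ _ _ (B.rl_inv hnT)
      have hdi : d (B.lab (B.inv x)).1 (B.lab (B.inv x)).2 := by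
        rw [B.lab_inv]
        exact (hd1 _ _ hxV.2 hxV.1 (B.adj x).ne').2 hdx
      have h1 := B.ht_cross hT hV hTV he hpl hd1 hd2 hix hixV hdi
      rw [B.inv_inv] at h1
      linarith
  · rw [if_neg (show ¬ (V (B.lab x).1 ∧ V (B.lab x).2) from hxV), B.ht_inv d hxV, sub_self]

open Classical in
/-- **The sum rule.** -/
theorem sum_ht (hT : Tri G T) (hV : ∀ i, Tri G (V i)) (hTV : ∀ i u, T u → ¬ V i u)
    (he : B.On T e) (hpl : defect B.rot B.inv = 0)
    (hd1 : ∀ m i j, V m i → V m j → i ≠ j → (d m i j ↔ ¬ d m j i))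
    (hd2 : ∀ m i j k, V m i → V m j → V m k → i ≠ j → j ≠ k → i ≠ k → (d m i j ↔ d m j k))
    (hU : Tri G U) (hU2 : ∀ i, U i → ∃ j, ¬ U j ∧ G.Adj i j) (hTU : ∀ i, T i → ¬ U i)
    {τ : Fin 7 → Fin 7 → ℤ}
    (hτ0 : ∀ i j, G.Adj i j → ¬ (U i ∧ U j) → τ i j = 0)
    (hτ1 : ∀ i j, τ j i = - τ i j)
    (hτ2 : ∀ i j k, U i → U j → U k → i ≠ j → j ≠ k → i ≠ k → τ i j = τ j k)
    (hτ3 : ∀ i j, G.Adj i j → τ i j =
      ∑ m : Fin 3, (if V m i ∧ V m j then (if d m i j then 1 else -1) else 0))
    (hface : ∀ x, EqvGen (B.cmap T e).rel e x → B.On U x →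
      B.FaceU U x ∨ B.FaceU U (B.inv x))
    {x : D} (hx : EqvGen (B.cmap T e).rel e x) (hnf : ¬ B.FaceU U x) :
    ∑ m : Fin 3, B.ht T (V m) e (d m) x = 0 := by
  set H : D → ℤ := fun x => ∑ m : Fin 3, B.ht T (V m) e (d m) x with hH
  set s : D → ℤ := fun x => H x - (if B.FaceU U x then τ (B.lab x).1 (B.lab x).2 else 0) with hs
  have hHj : ∀ y, EqvGen (B.cmap T e).rel e y →
      H y - H (B.inv y) = τ (B.lab y).1 (B.lab y).2 := by
    intro y hy
    rw [hτ3 _ _ (B.adj y)]
    simp only [hH]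
    rw [← Finset.sum_sub_distrib]
    exact Finset.sum_congr rfl fun m _ => B.ht_jump hT (hV m) (hTV m) he hpl (hd1 m) (hd2 m) hy
  have hfc : ∀ y, s (B.rot (B.inv y)) = s y := by
    intro y
    simp only [hs, hH, B.ht_fc, B.faceU_fc]
    by_cases h : B.FaceU U y
    · rw [if_pos h, if_pos h, B.faceU_dir hU2 hτ2 h]
    · rw [if_neg h, if_neg h]
  have hinv : ∀ y, EqvGen (B.cmap T e).rel e y → s (B.inv y) = s y := by
    intro y hy
    have h1 := hHj y hy
    simp only [hs]
    by_cases hyU : B.On U y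
    · rcases hface y hy hyU with h | h
      · have h' : ¬ B.FaceU U (B.inv y) := fun h' => B.faceU_inv hU hU2 h h'
        rw [if_pos h, if_neg h']
        linarith
      · have h' : ¬ B.FaceU U y := fun h' => B.faceU_inv hU hU2 h' h
        have e1 : τ (B.lab (B.inv y)).1 (B.lab (B.inv y)).2 = - τ (B.lab y).1 (B.lab y).2 := by
          rw [B.lab_inv]
          exact hτ1 _ _
        rw [if_neg h', if_pos h, e1]
        linarith
    · have h' : ¬ B.FaceU U y := fun h => hyU h.on
      have h'' : ¬ B.FaceU U (B.inv y) := fun h => hyU ((B.on_inv U).1 h.on)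
      rw [if_neg h', if_neg h'']
      rw [hτ0 _ _ (B.adj y) hyU] at h1
      linarith
  have key : ∀ a b, EqvGen (B.cmap T e).rel a b → EqvGen (B.cmap T e).rel e a → s a = s b := by
    intro a b hab
    induction hab with
    | rel a b hab =>
      intro ha
      rcases hab with hab | hab
      · by_cases hF : (B.cmap T e).F a
        · rw [(B.cmap T e).th_F hF] at hab
          rw [← hab]
          exact (hfc a).symm
        · rw [(B.cmap T e).th_nF hF] at hab
          rw [← hab]
          have h1 := hfc (B.inv a)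
          rw [B.inv_inv, hinv a ha] at h1
          exact h1.symm
      · by_cases hF : (B.cmap T e).F a
        · rw [(B.cmap T e).ga_F hF] at hab
          rw [hab]
        · rw [(B.cmap T e).ga_nF hF] at hab
          rw [← hab]
          exact (hinv a ha).symm
    | refl a => exact fun _ => rfl
    | symm a b hab ih => exact fun hb => (ih (hb.trans _ _ _ (hab.symm _ _))).symm
    | trans a b c hab _ ih1 ih2 =>
      exact fun ha => (ih1 ha).trans (ih2 (ha.trans _ _ _ hab))
  have h1 := key e x hx (EqvGen.refl _)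
  have he0 : s e = 0 := by
    have : ¬ B.FaceU U e := fun h => hTU _ he.1 h.on.1
    simp only [hs, hH]
    rw [if_neg this]
    simp only [B.ht_e, Finset.sum_const_zero, sub_zero]
  rw [he0] at h1
  simp only [hs] at h1
  rw [if_neg hnf, sub_zero] at h1
  exact h1.symm

end sum

end Bs

end Pool.Agent.Lib.MP_5854e1_co.Crc.Cg
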