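import Pool.Agent.Lib.MP_5854e1_co.Ret

/-!
# Sums over invariant sets and cycles

`cav` compares sums over a set invariant under a permutation by comparing the sums over the cycles.
-/

set_option autoImplicit false

open Equiv Equiv.Perm

namespace Pool.Agent.Lib.MP_5854e1_co.Crc

variable {D : Type*} [Fintype D]

/-- the reciprocal of the length of the cycle -/
noncomputable def vv (σ : Perm D) (x : D) : ℚ := 1 / (Function.minimalPeriod σ x : ℚ)

theorem vv_pos (σ : Perm D) (x : D) : 0 < vv σ x := by
  have := minimalPeriod_pos' σ x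
  unfold vv
  positivity

theorem vv_same (σ : Perm D) {x y : D} (h : σ.SameCycle x y) : vv σ x = vv σ y := by
  unfold vv
  rw [sameCycle_minimalPeriod σ h]

open Classical in
/-- the cycle of `x` -/
noncomputable def cl (σ : Perm D) (x : D) : Finset D := Finset.univ.filter fun y => σ.SameCycle x y

theorem mem_cl {σ : Perm D} {x y : D} : y ∈ cl σ x ↔ σ.SameCycle x y := by
  classical
  simp [cl]

theorem card_cl (σ : Perm D) (x : D) : (cl σ x).card = Function.minimalPeriod σ x := by
  classical
  rw [← card_sameCycle σ x, Nat.card_eq_fintype_card, Fintype.card_subtype]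
  congr 1

theorem sum_vv (σ : Perm D) (x : D) : ∑ y ∈ cl σ x, vv σ y = 1 := by
  rw [Finset.sum_congr rfl (fun y hy => (vv_same σ (mem_cl.1 hy)).symm), Finset.sum_const,
    card_cl, nsmul_eq_mul, vv]
  have := minimalPeriod_pos' σ x
  field_simp

/-- invariance under a permutation passes to its cycles -/
theorem inv_same {σ : Perm D} {R : D → Prop} (hR : ∀ x, R (σ x) ↔ R x) {x y : D}
    (h : σ.SameCycle x y) : R x ↔ R y := by
  classical
  obtain ⟨i, -, rfl⟩ := sameCycle_iterate σ h
  clear h
  induction i with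
  | zero => exact Iff.rfl
  | succ i ih =>
    rw [Function.iterate_succ_apply']
    exact ih.trans (hR _).symm

open Classical in
/-- the sum over an invariant set is the sum of the averages over the cycles -/
theorem sum_avg (σ : Perm D) (R : D → Prop) (hR : ∀ x, R (σ x) ↔ R x) (f : D → ℚ) :
    ∑ x ∈ Finset.univ.filter R, f x =
      ∑ x ∈ Finset.univ.filter R, vv σ x * ∑ y ∈ cl σ x, f y := by
  have h1 : ∀ x ∈ Finset.univ.filter R, vv σ x * ∑ y ∈ cl σ x, f y =
      ∑ y ∈ Finset.univ.filter R, if σ.SameCycle x y then vv σ x * f y else 0 := by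
    intro x hx
    rw [Finset.mul_sum, ← Finset.sum_filter]
    refine Finset.sum_congr ?_ fun _ _ => rfl
    ext y
    rw [mem_cl, Finset.mem_filter, Finset.mem_filter]
    constructor
    · intro h
      exact ⟨⟨Finset.mem_univ _, (inv_same hR h).1 (Finset.mem_filter.1 hx).2⟩, h⟩
    · intro h
      exact h.2
  rw [Finset.sum_congr rfl h1, Finset.sum_comm]
  refine Finset.sum_congr rfl fun y hy => ?_
  rw [← Finset.sum_filter]
  have h2 : ((Finset.univ.filter R).filter fun x => σ.SameCycle x y) = cl σ y := by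
    ext x
    rw [mem_cl, Finset.mem_filter, Finset.mem_filter]
    constructor
    · intro h
      exact h.2.symm
    · intro h
      exact ⟨⟨Finset.mem_univ _, (inv_same hR h).1 (Finset.mem_filter.1 hy).2⟩, h.symm⟩
  rw [h2, ← Finset.sum_mul, sum_vv, one_mul]

open Classical in
/-- comparison of sums over an invariant set, cycle by cycle -/
theorem cav (σ : Perm D) (R : D → Prop) (hR : ∀ x, R (σ x) ↔ R x) (f g : D → ℚ)
    (h : ∀ x, R x → ∑ y ∈ cl σ x, f y ≤ ∑ y ∈ cl σ x, g y) :
    ∑ x ∈ Finset.univ.filter R, f x ≤ ∑ x ∈ Finset.univ.filter R, g x := by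
  rw [sum_avg σ R hR f, sum_avg σ R hR g]
  refine Finset.sum_le_sum fun x hx => ?_
  exact mul_le_mul_of_nonneg_left (h x (Finset.mem_filter.1 hx).2) (vv_pos σ x).le

theorem cyc_eq_vv [DecidableEq D] (σ : Perm D) : (cyc σ : ℚ) = ∑ x, vv σ x := cyc_eq_sum σ

end Pool.Agent.Lib.MP_5854e1_co.Crc
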