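import Pool.Agent.Lib.MP_5854e1_co.Crc.KTab

/-!
# The circle method for `K_{4,5} - 4 K_2`: the check of all steps
-/

set_option autoImplicit false

namespace Pool.Agent.Lib.MP_5854e1_co.Crc.K45

theorem ckU0 : ckU 0 = true := by decide +kernel

theorem ckU1 : ckU 1 = true := by decide +kernel

theorem ckU2 : ckU 2 = true := by decide +kernel

theorem ckU3 : ckU 3 = true := by decide +kernel

theorem ckU4 : ckU 4 = true := by decide +kernel

theorem ckU5 : ckU 5 = true := by decide +kernel

theorem ckU6 : ckU 6 = true := by decide +kernel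

theorem ckU7 : ckU 7 = true := by decide +kernel

theorem ckU8 : ckU 8 = true := by decide +kernel

theorem all_range {n : ℕ} {p : ℕ → Bool} (h : (List.range n).all p = true) {i : ℕ} (hi : i < n) :
    p i = true := List.all_eq_true.1 h i (List.mem_range.2 hi)

theorem ckU_all {u : ℕ} (hu : u < 9) : ckU u = true := by
  interval_cases u
  exacts [ckU0, ckU1, ckU2, ckU3, ckU4, ckU5, ckU6, ckU7, ckU8]

theorem ad_lt {u v : ℕ} (h : ad u v = true) : u < 9 ∧ v < 9 := by
  unfold ad at h
  simp only [Bool.or_eq_true, Bool.and_eq_true, Nat.blt_eq, Nat.ble_eq, Nat.beq_eq] at h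
  omega

/-- one step of the certificate -/
theorem step_ok {u v a b x : ℕ} (h1 : val u v a = true) (h2 : vale u v a b = true)
    (h3 : x ∈ nexts u v b) (h4 : val v x b = true) (ha : a < 7) (hb : b < 7)
    {p : ℕ × ℕ} (hp : p ∈ tabs) :
    dg p.2 (ix v x b) + cL u v a b ≤ dg p.2 (ix u v a) + cR u v a b ∧
    (p.1 = ix u v a → dg p.2 (ix v x b) + cL u v a b ≤ 4 + cR u v a b) := by
  have hadj : ad u v = true := by
    unfold val at h1
    rw [Bool.and_eq_true] at h1
    exact h1.1
  obtain ⟨hu, hv⟩ := ad_lt hadj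
  have k1 := all_range (all_range (ckU_all hu) hv) ha
  rw [h1, Bool.not_true, Bool.false_or] at k1
  have k2 := all_range k1 hb
  rw [h2, Bool.not_true, Bool.false_or] at k2
  have k3 := List.all_eq_true.1 k2 x h3
  unfold ck1 at k3
  rw [h4, Bool.not_true, Bool.false_or] at k3
  have k4 := List.all_eq_true.1 k3 p hp
  rw [Bool.and_eq_true, Bool.or_eq_true, Nat.ble_eq, Nat.ble_eq] at k4
  refine ⟨k4.1, fun he => ?_⟩
  rcases k4.2 with k5 | k5
  · rw [he, Nat.beq_refl] at k5
    exact absurd k5 (by decide)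
  · exact k5

/-- the table of a start state -/
theorem start_ok {u v a : ℕ} (h1 : val u v a = true) (h2 : stt u v = true) (ha : a < 7) :
    ∃ p ∈ tabs, p.1 = ix u v a ∧ 8 ≤ dg p.2 (ix u v a) := by
  have hadj : ad u v = true := by
    unfold val at h1
    rw [Bool.and_eq_true] at h1
    exact h1.1
  obtain ⟨hu, hv⟩ := ad_lt hadj
  have k1 := all_range (all_range (all_range ckS_ok hu) hv) ha
  rw [h1, h2, Bool.not_true, Bool.false_or, Bool.false_or, List.any_eq_true] at k1
  obtain ⟨p, hp, hk⟩ := k1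
  rw [Bool.and_eq_true, Nat.ble_eq, Nat.beq_eq] at hk
  exact ⟨p, hp, hk⟩

end Pool.Agent.Lib.MP_5854e1_co.Crc.K45
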