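import Pool.Agent.Lib.MP_5854e1_co.Crc.KIneq
import Pool.Agent.Lib.MP_5854e1_co.MinGraphs
import Pool.Agent.Lib.MP_5854e1_co.MnrC

/-!
# Covers of `K_{4,5} - 4 K_2` as labelled maps
-/

set_option autoImplicit false

open Equiv Equiv.Perm

namespace Pool.Agent.Lib.MP_5854e1_co

/-- The graph `K_{4,5} - 4 K_2`: the complete bipartite graph with parts `{0, 1, 2, 3}` and
`{4, 5, 6, 7, 8}` without the perfect matching `04, 15, 26, 37` of `{0, 1, 2, 3}` and
`{4, 5, 6, 7}`. -/
abbrev K45m4 : SimpleGraph (Fin 9) := ofEdges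
  [(0, 5), (0, 6), (0, 7), (1, 4), (1, 6), (1, 7), (2, 4), (2, 5), (2, 7), (3, 4), (3, 5), (3, 6),
   (0, 8), (1, 8), (2, 8), (3, 8)]

namespace Crc.K45

theorem adj_ad : ∀ u v : Fin 9, K45m4.Adj u v → ad u.val v.val = true := by decide

theorem ad_adj : ∀ u v : Fin 9, ad u.val v.val = true → K45m4.Adj u v := by decide

/-- the neighbours of a label -/
def nbs (u : ℕ) : List ℕ := (List.range 9).filter fun v => ad u v

/-- every cyclic order of the neighbours has a code -/
def ckC : Bool := (List.range 9).all fun u =>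
  if Nat.blt u 4 || Nat.beq u 8 then
    (nbs u).all fun a => (nbs u).all fun b => (nbs u).all fun c => (nbs u).all fun d =>
      Nat.beq a b || Nat.beq a c || Nat.beq a d || Nat.beq b c || Nat.beq b d || Nat.beq c d ||
      (List.range 7).any fun i => okc u i && Nat.beq (nt u i a) b && Nat.beq (nt u i b) c &&
        Nat.beq (nt u i c) d && Nat.beq (nt u i d) a
  else (nbs u).all fun a => (nbs u).all fun b => (nbs u).all fun c =>
      Nat.beq a b || Nat.beq a c || Nat.beq b c ||
      (List.range 7).any fun i => okc u i && Nat.beq (nt u i a) b && Nat.beq (nt u i b) c &&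
        Nat.beq (nt u i c) a

theorem ckC_ok : ckC = true := by decide +kernel

theorem mem_nbs {u v : ℕ} (h : ad u v = true) : v ∈ nbs u := by
  unfold nbs
  rw [List.mem_filter, List.mem_range]
  exact ⟨(ad_lt h).2, h⟩

theorem beq_ff {a b : ℕ} (h : a ≠ b) : Nat.beq a b = false := by
  rw [Bool.eq_false_iff, Ne, Nat.beq_eq]
  exact h

theorem code4 {u a b c d : ℕ} (hu : (Nat.blt u 4 || Nat.beq u 8) = true) (ha : ad u a = true)
    (hb : ad u b = true) (hc : ad u c = true) (hd : ad u d = true) (h1 : a ≠ b) (h2 : a ≠ c)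
    (h3 : a ≠ d) (h4 : b ≠ c) (h5 : b ≠ d) (h6 : c ≠ d) :
    ∃ i, okc u i = true ∧ nt u i a = b ∧ nt u i b = c ∧ nt u i c = d ∧ nt u i d = a := by
  have k := all_range ckC_ok (ad_lt ha).1
  rw [if_pos hu] at k
  have k1 := List.all_eq_true.1 (List.all_eq_true.1 (List.all_eq_true.1 (List.all_eq_true.1 k a
    (mem_nbs ha)) b (mem_nbs hb)) c (mem_nbs hc)) d (mem_nbs hd)
  rw [beq_ff h1, beq_ff h2, beq_ff h3, beq_ff h4, beq_ff h5, beq_ff h6] at k1
  simp only [Bool.false_or, List.any_eq_true, Bool.and_eq_true, Nat.beq_eq] at k1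
  obtain ⟨i, -, ⟨⟨⟨⟨p1, p2⟩, p3⟩, p4⟩, p5⟩⟩ := k1
  exact ⟨i, p1, p2, p3, p4, p5⟩

theorem code3 {u a b c : ℕ} (hu : ¬ (Nat.blt u 4 || Nat.beq u 8) = true) (ha : ad u a = true)
    (hb : ad u b = true) (hc : ad u c = true) (h1 : a ≠ b) (h2 : a ≠ c) (h4 : b ≠ c) :
    ∃ i, okc u i = true ∧ nt u i a = b ∧ nt u i b = c ∧ nt u i c = a := by
  have k := all_range ckC_ok (ad_lt ha).1
  rw [if_neg hu] at k
  have k1 := List.all_eq_true.1 (List.all_eq_true.1 (List.all_eq_true.1 k a
    (mem_nbs ha)) b (mem_nbs hb)) c (mem_nbs hc)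
  rw [beq_ff h1, beq_ff h2, beq_ff h4] at k1
  simp only [Bool.false_or, List.any_eq_true, Bool.and_eq_true, Nat.beq_eq] at k1
  obtain ⟨i, -, ⟨⟨⟨p1, p2⟩, p3⟩, p4⟩⟩ := k1
  exact ⟨i, p1, p2, p3, p4⟩

theorem card_nb : ∀ u : Fin 9, (K45m4.neighborFinset u).card = KMap.dgr u.val := by decide

section cover

variable {W : Type*} [Finite W] {H : SimpleGraph W} {φ : W → Fin 9}

/-- the number of darts at a vertex -/
theorem card_darts (hφ : IsCover H K45m4 φ) (v : W) :
    Nat.card {d : H.Dart // d.fst = v} = KMap.dgr (φ v).val := by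
  have h1 : Nat.card {d : H.Dart // d.fst = v} = Nat.card (K45m4.neighborSet (φ v)) := by
    refine Nat.card_congr (Equiv.ofBijective
      (fun d => (⟨φ d.1.snd, by
        have := hφ.adj d.1.adj
        rw [d.2] at this
        exact this⟩ : K45m4.neighborSet (φ v))) ⟨?_, ?_⟩)
    · rintro ⟨d, hd⟩ ⟨e, he⟩ h
      apply Subtype.ext
      have h2 : φ d.snd = φ e.snd := congrArg Subtype.val h
      refine hφ.dart_inj (hd.trans he.symm) ?_
      exact SimpleGraph.Dart.ext _ _ (Prod.ext (by
        show φ d.fst = φ e.fst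
        rw [hd, he]) h2)
    · rintro ⟨w, hw⟩
      obtain ⟨y, hy, hyw⟩ := (hφ v).surjOn hw
      exact ⟨⟨⟨(v, y), hy⟩, rfl⟩, Subtype.ext hyw⟩
  rw [h1, Nat.card_eq_fintype_card, SimpleGraph.card_neighborSet_eq_degree,
    SimpleGraph.degree, card_nb]

variable (hφ : IsCover H K45m4 φ) (rot : Perm H.Dart)
  (hrot : ∀ x y, rot.SameCycle x y ↔ x.fst = y.fst)

include hrot in
theorem rot_fst (x : H.Dart) (i : ℕ) : (rot^[i] x).fst = x.fst := by
  refine ((hrot _ _).1 ?_)
  exact (show rot.SameCycle x (rot^[i] x) from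
    ⟨i, by rw [zpow_natCast, Equiv.Perm.coe_pow]⟩).symm

include hφ hrot in
theorem per_dart (x : H.Dart) : Function.minimalPeriod rot x = KMap.dgr (φ x.fst).val := by
  rw [← card_sameCycle, ← card_darts hφ x.fst]
  exact Nat.card_congr (Equiv.subtypeEquivRight fun y => by
    rw [hrot]
    exact eq_comm)

include hφ in
theorem dart_eq {x y : H.Dart} (h1 : x.fst = y.fst) (h2 : φ x.snd = φ y.snd) : x = y :=
  hφ.dart_inj h1 (SimpleGraph.Dart.ext _ _ (Prod.ext (congrArg φ h1) h2))

include hφ hrot in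
/-- existence of the codes -/
theorem exists_code (v : W) : ∃ c, ∀ x : H.Dart, x.fst = v → okc (φ v).val c = true ∧
    (φ (rot x).snd).val = nt (φ v).val c (φ x.snd).val := by
  by_cases hx : ∃ x : H.Dart, x.fst = v
  · obtain ⟨x, rfl⟩ := hx
    have hper := per_dart hφ rot hrot x
    have had : ∀ i, ad (φ x.fst).val (φ (rot^[i] x).snd).val = true := by
      intro i
      have := hφ.adj (rot^[i] x).adj
      rw [rot_fst rot hrot] at this
      exact adj_ad _ _ this
    have hne : ∀ i j, i < Function.minimalPeriod rot x → j < Function.minimalPeriod rot x →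
        i ≠ j → (φ (rot^[i] x).snd).val ≠ (φ (rot^[j] x).snd).val := by
      intro i j hi hj hij h
      apply hij
      refine Function.iterate_injOn_Iio_minimalPeriod hi hj ?_
      exact dart_eq hφ (by rw [rot_fst rot hrot, rot_fst rot hrot]) (Fin.ext h)
    have hback : rot^[Function.minimalPeriod rot x] x = x :=
      Function.isPeriodicPt_minimalPeriod _ _
    have hall : ∀ y : H.Dart, y.fst = x.fst → ∃ i < Function.minimalPeriod rot x,
        rot^[i] x = y := fun y hy => sameCycle_iterate rot ((hrot x y).2 hy.symm)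
    by_cases hu : (Nat.blt (φ x.fst).val 4 || Nat.beq (φ x.fst).val 8) = true
    · have hd : Function.minimalPeriod rot x = 4 := by
        rw [hper]
        unfold KMap.dgr
        rw [if_pos hu]
      rw [hd] at hne hback hall
      obtain ⟨c, hc, p1, p2, p3, p4⟩ := code4 hu (had 0) (had 1) (had 2) (had 3)
        (hne 0 1 (by omega) (by omega) (by omega)) (hne 0 2 (by omega) (by omega) (by omega))
        (hne 0 3 (by omega) (by omega) (by omega)) (hne 1 2 (by omega) (by omega) (by omega))
        (hne 1 3 (by omega) (by omega) (by omega)) (hne 2 3 (by omega) (by omega) (by omega))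
      refine ⟨c, fun y hy => ⟨hc, ?_⟩⟩
      obtain ⟨i, hi, rfl⟩ := hall y hy
      rw [← Function.iterate_succ_apply' rot]
      interval_cases i
      · exact p1.symm
      · exact p2.symm
      · exact p3.symm
      · rw [hback]
        exact p4.symm
    · have hd : Function.minimalPeriod rot x = 3 := by
        rw [hper]
        unfold KMap.dgr
        rw [if_neg hu]
      rw [hd] at hne hback hall
      obtain ⟨c, hc, p1, p2, p3⟩ := code3 hu (had 0) (had 1) (had 2)
        (hne 0 1 (by omega) (by omega) (by omega)) (hne 0 2 (by omega) (by omega) (by omega))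
        (hne 1 2 (by omega) (by omega) (by omega))
      refine ⟨c, fun y hy => ⟨hc, ?_⟩⟩
      obtain ⟨i, hi, rfl⟩ := hall y hy
      rw [← Function.iterate_succ_apply' rot]
      interval_cases i
      · exact p1.symm
      · exact p2.symm
      · rw [hback]
        exact p3.symm
  · exact ⟨0, fun x h => absurd ⟨x, h⟩ hx⟩

/-- the labelled map of a cover -/
noncomputable def ofCover : KMap H.Dart where
  rot := rot
  inv := flip H
  l := fun x => (φ x.fst).val
  cd := fun x => (exists_code hφ rot hrot x.fst).choose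
  inv_inv := fun x => x.symm_symm
  inv_ne := fun x => SimpleGraph.Dart.symm_ne x
  l_rot := fun x => by
    rw [show (rot x).fst = x.fst from rot_fst rot hrot x 1]
  cd_rot := fun x => by
    rw [show (rot x).fst = x.fst from rot_fst rot hrot x 1]
  adj := fun x => adj_ad _ _ (hφ.adj x.adj)
  cd_ok := fun x => ((exists_code hφ rot hrot x.fst).choose_spec x rfl).1
  nx := fun x => ((exists_code hφ rot hrot x.fst).choose_spec x rfl).2
  inj := fun x i h => dart_eq hφ (rot_fst rot hrot x i) (Fin.ext h)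

end cover

end Crc.K45

end Pool.Agent.Lib.MP_5854e1_co
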