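import Pool.Agent.Lib.MP_5854e1_co.Crc.KLoc

/-!
# Maps labelled by `K_{4,5} - 4 K_2`: the hypotheses of the circle method
-/

set_option autoImplicit false

open Equiv Equiv.Perm

namespace Pool.Agent.Lib.MP_5854e1_co.Crc.K45

private theorem g1 : fct (fun u i v => !Nat.beq (nt u i v) v && !Nat.beq (nt u i (nt u i v)) v &&
    (if Nat.blt u 4 || Nat.beq u 8 then !Nat.beq (nt u i (nt u i (nt u i v))) v &&
      Nat.beq (nt u i (nt u i (nt u i (nt u i v)))) v
    else Nat.beq (nt u i (nt u i (nt u i v))) v)) = true := by decide +kernel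

private theorem g2 : fct (fun u _ v => !ci u v || (ci u (oc u v) && Nat.beq (oc u (oc u v)) v &&
    !Nat.beq (oc u v) v && Nat.blt u 8 && Nat.blt v 8 && (tz u == tz v) && ci v u)) = true := by
  decide +kernel

private theorem g3 : fct (fun u i v => !ci u v || !ci u (nt u i v) ||
    !ci u (nt u i (nt u i v))) = true := by decide +kernel

/-- one for edges which are not on circles -/
def nci (u v : ℕ) : ℕ := if ci u v then 0 else 1

/-- the number of the darts of the vertex which are not on circles -/
def ncn (u i v : ℕ) : ℕ := nci u v + nci u (nt u i v) + nci u (nt u i (nt u i v))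

private theorem g4 : fct (fun u i v =>
    if Nat.blt u 4 then Nat.beq (ncn u i v + nci u (nt u i (nt u i (nt u i v)))) 2
    else if Nat.beq u 8 then
      Nat.beq (ncn u i v + nci u (nt u i (nt u i (nt u i v)))) 4
    else Nat.beq (ncn u i v) 1) = true := by decide +kernel

theorem ne_of_nbeq {a b : ℕ} (h : (!Nat.beq a b) = true) : a ≠ b := by
  rintro rfl
  rw [Nat.beq_refl] at h
  exact absurd h (by decide)

namespace KMap

variable {D : Type*} (K : KMap D)

/-- weight of the nodes -/
noncomputable def om (x : D) : ℚ := if K.l x = 8 then 1 / 4 else 0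

theorem l_th (x : D) : K.l (K.cm.th x) < 8 ↔ K.l x < 8 := by
  by_cases h : K.c x
  · rw [K.th_c h, K.l_rot]
    exact ⟨fun _ => K.l_lt h, fun _ => K.l_lt ((K.c_inv x).2 h)⟩
  · rw [K.th_n h, K.l_rot]

theorem l_lt9 (x : D) : K.l x < 9 := (ad_lt (K.ad_lr x)).1

theorem tz_lr {x : D} (h : K.c x) : tz (K.l x) = tz (K.r x) := by
  have k := fct_use g2 (K.cd_ok x) (K.ad_lr x)
  have e0 : ci (K.l x) (K.r x) = true := h
  rw [e0, Bool.not_true, Bool.false_or] at k
  simp only [Bool.and_eq_true, beq_iff_eq] at k
  exact k.1.2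

theorem tz_th {x : D} : tz (K.l (K.cm.th x)) = tz (K.l x) := by
  by_cases h : K.c x
  · rw [K.th_c h, K.l_rot]
    exact (K.tz_lr h).symm
  · rw [K.th_n h, K.l_rot]

/-- labels along the rotation -/
theorem r_iter (x : D) (i : ℕ) : K.r (K.rot^[i] x) = (nt (K.l x) (K.cd x))^[i] (K.r x) ∧
    K.l (K.rot^[i] x) = K.l x ∧ K.cd (K.rot^[i] x) = K.cd x := by
  induction i with
  | zero => exact ⟨rfl, rfl, rfl⟩
  | succ i ih =>
    rw [Function.iterate_succ_apply', K.r_rot, K.l_rot, K.cd_rot, ih.1, ih.2.1, ih.2.2,
      Function.iterate_succ_apply']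
    exact ⟨rfl, rfl, rfl⟩

/-- the degree of a label -/
def dgr (u : ℕ) : ℕ := if Nat.blt u 4 || Nat.beq u 8 then 4 else 3

theorem rot_dgr (x : D) : K.rot^[dgr (K.l x)] x = x := by
  apply K.inj
  show K.r _ = K.r x
  rw [(K.r_iter x _).1]
  have k := fct_use g1 (K.cd_ok x) (K.ad_lr x)
  unfold dgr
  rw [Bool.and_eq_true] at k
  have k2 := k.2
  by_cases h : (Nat.blt (K.l x) 4 || Nat.beq (K.l x) 8) = true
  · rw [if_pos h] at k2 ⊢
    rw [Bool.and_eq_true, Nat.beq_eq] at k2
    exact k2.2
  · rw [if_neg h] at k2 ⊢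
    rw [Nat.beq_eq] at k2
    exact k2

theorem rot_ne (x : D) {i : ℕ} (h0 : 0 < i) (hi : i < dgr (K.l x)) : K.rot^[i] x ≠ x := by
  intro h
  have h1 := (K.r_iter x i).1
  rw [h] at h1
  have k := fct_use g1 (K.cd_ok x) (K.ad_lr x)
  unfold dgr at hi
  rw [Bool.and_eq_true, Bool.and_eq_true] at k
  obtain ⟨⟨k1, k2⟩, k3⟩ := k
  by_cases hh : (Nat.blt (K.l x) 4 || Nat.beq (K.l x) 8) = true
  · rw [if_pos hh] at k3 hi
    rw [Bool.and_eq_true] at k3
    interval_cases i
    · exact ne_of_nbeq k1 h1.symm
    · exact ne_of_nbeq k2 h1.symm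
    · exact ne_of_nbeq k3.1 h1.symm
  · rw [if_neg hh] at hi
    interval_cases i
    · exact ne_of_nbeq k1 h1.symm
    · exact ne_of_nbeq k2 h1.symm

theorem per_rot (x : D) : Function.minimalPeriod K.rot x = dgr (K.l x) := by
  have h1 : Function.IsPeriodicPt K.rot (dgr (K.l x)) x := K.rot_dgr x
  have hpos : 0 < dgr (K.l x) := by
    unfold dgr
    split_ifs <;> norm_num
  have h2 := h1.minimalPeriod_le hpos
  have h3 := h1.minimalPeriod_pos hpos
  by_contra hne
  exact K.rot_ne x h3 (lt_of_le_of_ne h2 hne) (Function.isPeriodicPt_minimalPeriod K.rot x)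

variable [Fintype D] [DecidableEq D]

omit [DecidableEq D] in
theorem lt_same {x y : D} (h : K.cm.th.SameCycle x y) : K.l x < 8 ↔ K.l y < 8 :=
  inv_same (R := fun x => K.l x < 8) K.l_th h

omit [DecidableEq D] in
theorem tz_same {x y : D} (h : K.cm.th.SameCycle x y) : tz (K.l x) = tz (K.l y) := by
  have := inv_same (R := fun z => tz (K.l z) = tz (K.l x)) (fun z => by rw [K.tz_th]) h
  exact (this.1 rfl).symm

omit [DecidableEq D] in
theorem good : K.cm.Good K.om where
  node := by
    intro x hx
    have h8 : K.l x = 8 := by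
      have h1 := K.l_lt9 x
      by_contra h2
      have h3 : K.l x < 8 := by omega
      exact hx (K.f x) K.f_same (K.f_is h3).1
    have hxn : ¬ K.c x := hx x (SameCycle.refl _ _)
    refine ⟨?_, fun h => hxn (h x (SameCycle.refl _ _))⟩
    have hl : ∀ y, K.cm.th.SameCycle x y → K.l y = 8 := by
      intro y hy
      have h1 := K.l_lt9 y
      have h2 := K.lt_same hy
      omega
    have hit : ∀ i, (K.cm.th)^[i] x = (K.rot)^[i] x := by
      intro i
      induction i with
      | zero => rfl
      | succ i ih =>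
        rw [Function.iterate_succ_apply', Function.iterate_succ_apply', ← ih]
        exact K.th_n (hx _ ⟨i, by rw [zpow_natCast, Equiv.Perm.coe_pow]⟩)
    have hper : Function.minimalPeriod K.cm.th x = 4 := by
      have h4 : Function.minimalPeriod K.rot x = 4 := by
        rw [K.per_rot, h8]
        rfl
      rw [← h4]
      apply Nat.dvd_antisymm
      · apply Function.IsPeriodicPt.minimalPeriod_dvd
        show (K.cm.th)^[_] x = x
        rw [hit]
        exact Function.isPeriodicPt_minimalPeriod _ _
      · apply Function.IsPeriodicPt.minimalPeriod_dvd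
        show (K.rot)^[_] x = x
        rw [← hit]
        exact Function.isPeriodicPt_minimalPeriod _ _
    have h1 : ∀ y ∈ cl K.cm.th x, K.om y = 1 / 4 := fun y hy => by
      unfold om
      rw [if_pos (hl y (mem_cl.1 hy))]
    rw [Finset.sum_congr rfl h1, Finset.sum_const, card_cl, hper]
    norm_num
  circ := by
    intro x hx y hy
    refine ⟨fun h => h, ?_⟩
    have h1 := (K.lt_same hy).1 (K.l_lt hx)
    unfold om
    rw [if_neg (by omega)]
  same := by
    intro x y hx hy hxy
    have hx : K.c x := hx
    have hy : K.c y := hy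
    obtain ⟨i, -, hi⟩ := sameCycle_iterate K.cm.th hxy
    have key : ∀ i, K.cm.th.SameCycle (K.inv (K.f ((K.cm.th)^[i] x))) (K.inv x) := by
      intro i
      induction i with
      | zero =>
        show K.cm.th.SameCycle (K.inv (K.f x)) (K.inv x)
        rw [K.f_c hx]
      | succ i ih =>
        rw [Function.iterate_succ_apply']
        have hlt : K.l ((K.cm.th)^[i] x) < 8 :=
          (K.lt_same (show K.cm.th.SameCycle x ((K.cm.th)^[i] x) from
            ⟨i, by rw [zpow_natCast, Equiv.Perm.coe_pow]⟩)).1 (K.l_lt hx)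
        by_cases h : K.c ((K.cm.th)^[i] x)
        · rw [K.th_c h]
          rw [K.f_c h] at ih
          exact (K.inv_o_same ((K.c_inv _).2 h)).trans ih
        · rw [K.th_n h, K.f_n h hlt]
          exact ih
    have h1 := key i
    rw [hi, K.f_c hy] at h1
    exact h1.symm
  port := by
    rintro x hx ⟨h1, h2⟩
    have hx : K.c x := hx
    have hix : K.c (K.inv x) := (K.c_inv x).2 hx
    have e1 : K.c (K.rot (K.inv x)) := by
      rw [← K.th_c hx]
      exact h1 _ (K.same_step x)
    have e2 : K.o (K.inv x) = K.rot (K.inv x) := K.f_c e1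
    have e3 := K.inv_o_same hix
    rw [e2] at e3
    have e4 : K.cm.th (K.inv (K.rot (K.inv x))) = K.rot (K.rot (K.inv x)) := by
      rw [K.th_c ((K.c_inv _).2 e1), K.inv_inv]
    have e5 : K.c (K.rot (K.rot (K.inv x))) := by
      rw [← e4]
      exact h2 _ (e3.symm.trans (K.same_step _))
    have k := fct_use g3 (K.cd_ok (K.inv x)) (K.ad_lr (K.inv x))
    have a1 : ci (K.l (K.inv x)) (K.r (K.inv x)) = true := hix
    have a2 : ci (K.l (K.inv x)) (nt (K.l (K.inv x)) (K.cd (K.inv x)) (K.r (K.inv x))) = true := by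
      unfold c at e1
      rwa [K.l_rot, K.r_rot] at e1
    have a3 : ci (K.l (K.inv x)) (nt (K.l (K.inv x)) (K.cd (K.inv x))
        (nt (K.l (K.inv x)) (K.cd (K.inv x)) (K.r (K.inv x)))) = true := by
      unfold c at e5
      rwa [K.r_rot, K.l_rot, K.l_rot, K.cd_rot, K.r_rot] at e5
    rw [a1, a2, a3] at k
    exact absurd k (by decide)

open Classical in
/-- the count -/
theorem count [Nonempty D] (hpl : defect K.rot K.inv = 0) :
    ∑ x, ((if K.cm.F x then 0 else 1 / 2) - K.om x) < (cyc K.cm.fc : ℚ) := by
  have horb : (1 : ℤ) ≤ orb K.rot K.inv := by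
    have : 0 < orb K.rot K.inv := by
      unfold orb ncl
      obtain ⟨x⟩ := ‹Nonempty D›
      have : Nonempty (Quot fun x y => K.rot x = y ∨ K.inv x = y) := ⟨Quot.mk _ x⟩
      exact Nat.card_pos
    exact_mod_cast this
  have hinv : (cyc K.inv : ℚ) = ∑ _x : D, (1 / 2 : ℚ) := by
    rw [cyc_eq_vv]
    refine Finset.sum_congr rfl fun x _ => ?_
    unfold vv
    have h2 : Function.minimalPeriod K.inv x = 2 := by
      have hd : Function.minimalPeriod K.inv x ∣ 2 :=
        Function.IsPeriodicPt.minimalPeriod_dvd (K.inv_inv x)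
      rcases (Nat.dvd_prime Nat.prime_two).1 hd with h | h
      · exfalso
        exact K.inv_ne x (Function.minimalPeriod_eq_one_iff_isFixedPt.1 h)
      · exact h
    rw [h2]
    norm_num
  have hcard : (Nat.card D : ℚ) = ∑ _x : D, (1 : ℚ) := by
    rw [Nat.card_eq_fintype_card]
    simp
  have h1 : (cyc K.rot : ℚ) + cyc K.inv + cyc K.cm.fc - Nat.card D - 2 * orb K.rot K.inv = 0 := by
    unfold defect at hpl
    have h2 : (((cyc K.rot : ℤ) + cyc K.inv + cyc (K.rot * K.inv) - Nat.card D -
      2 * orb K.rot K.inv : ℤ) : ℚ) = 0 := by exact_mod_cast hpl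
    push_cast at h2
    exact h2
  have hzero : ∑ x, ((1 / 2 - vv K.rot x) - ((if K.cm.F x then 0 else 1 / 2) - K.om x)) = 0 := by
    have h2 := sum_avg K.rot (fun _ => True) (fun _ => Iff.rfl)
      (fun x => ((1 / 2 - vv K.rot x) - ((if K.cm.F x then 0 else 1 / 2) - K.om x)))
    simp only [Finset.filter_true] at h2
    rw [h2]
    refine Finset.sum_eq_zero fun x _ => ?_
    have h3 : ∑ y ∈ cl K.rot x, ((1 / 2 - vv K.rot y) - ((if K.cm.F y then 0 else 1 / 2) -
        K.om y)) = 0 := by
      have h4 : ∀ f : D → ℚ, ∑ y ∈ cl K.rot x, f y =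
          ∑ i ∈ Finset.range (Function.minimalPeriod K.rot x), f (K.rot^[i] x) := by
        intro f
        rw [sum_range_period]
        refine Finset.sum_congr ?_ fun _ _ => rfl
        ext y
        simp [cl]
      rw [h4, K.per_rot]
      have hv : ∀ i, vv K.rot (K.rot^[i] x) = 1 / (dgr (K.l x) : ℚ) := by
        intro i
        unfold vv
        rw [K.per_rot, (K.r_iter x i).2.1]
      have hF : ∀ i, ((if K.cm.F (K.rot^[i] x) then 0 else 1 / 2 : ℚ)) =
          (nci (K.l x) ((nt (K.l x) (K.cd x))^[i] (K.r x)) : ℚ) / 2 := by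
        intro i
        have : K.cm.F (K.rot^[i] x) ↔
            ci (K.l x) ((nt (K.l x) (K.cd x))^[i] (K.r x)) = true := by
          show K.c _ ↔ _
          unfold c
          rw [(K.r_iter x i).1, (K.r_iter x i).2.1]
        unfold nci
        by_cases h : K.cm.F (K.rot^[i] x)
        · rw [if_pos h, if_pos (this.1 h)]
          norm_num
        · rw [if_neg h, if_neg (fun h' => h (this.2 h'))]
          norm_num
      have ho : ∀ i, K.om (K.rot^[i] x) = K.om x := by
        intro i
        unfold om
        rw [(K.r_iter x i).2.1]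
      have k := fct_use g4 (K.cd_ok x) (K.ad_lr x)
      unfold ncn at k
      simp only [hv, hF, ho]
      have hl := K.l_lt9 x
      by_cases c1 : Nat.blt (K.l x) 4 = true
      · rw [if_pos c1, Nat.beq_eq] at k
        have hd : dgr (K.l x) = 4 := by
          unfold dgr
          rw [c1, Bool.true_or, if_pos rfl]
        have hom : K.om x = 0 := by
          unfold om
          rw [Nat.blt_eq] at c1
          rw [if_neg (by omega)]
        rw [hd, hom]
        simp only [Finset.sum_range_succ, Finset.sum_range_zero, Function.iterate_succ,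
          Function.iterate_zero, Function.comp_apply, id_eq]
        have k' := congrArg (Nat.cast (R := ℚ)) k
        simp only [Nat.cast_add, Nat.cast_ofNat, Nat.cast_one] at k' ⊢
        linarith
      · rw [if_neg c1] at k
        by_cases c2 : Nat.beq (K.l x) 8 = true
        · rw [if_pos c2, Nat.beq_eq] at k
          have hd : dgr (K.l x) = 4 := by
            unfold dgr
            rw [c2, Bool.or_true, if_pos rfl]
          have hom : K.om x = 1 / 4 := by
            unfold om
            rw [Nat.beq_eq] at c2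
            rw [if_pos c2]
          rw [hd, hom]
          simp only [Finset.sum_range_succ, Finset.sum_range_zero, Function.iterate_succ,
            Function.iterate_zero, Function.comp_apply, id_eq]
          have k' := congrArg (Nat.cast (R := ℚ)) k
          simp only [Nat.cast_add, Nat.cast_ofNat, Nat.cast_one] at k' ⊢
          linarith
        · rw [if_neg c2, Nat.beq_eq] at k
          have hd : dgr (K.l x) = 3 := by
            unfold dgr
            rw [if_neg]
            rw [Bool.or_eq_true]
            rintro (h | h)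
            · exact c1 h
            · exact c2 h
          have hom : K.om x = 0 := by
            unfold om
            rw [Nat.beq_eq] at c2
            rw [if_neg c2]
          rw [hd, hom]
          simp only [Finset.sum_range_succ, Finset.sum_range_zero, Function.iterate_succ,
            Function.iterate_zero, Function.comp_apply, id_eq]
          have k' := congrArg (Nat.cast (R := ℚ)) k
          simp only [Nat.cast_add, Nat.cast_ofNat, Nat.cast_one] at k' ⊢
          linarith
    rw [h3, mul_zero]
  rw [Finset.sum_sub_distrib, Finset.sum_sub_distrib, ← cyc_eq_vv, ← hinv] at hzero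
  have hhalf : (Nat.card D : ℚ) = 2 * cyc K.inv := by
    rw [hcard, hinv, Finset.mul_sum]
    refine Finset.sum_congr rfl fun _ _ => ?_
    norm_num
  have horb' : (1 : ℚ) ≤ orb K.rot K.inv := by exact_mod_cast horb
  linarith

end KMap

end Pool.Agent.Lib.MP_5854e1_co.Crc.K45
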