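import Pool.Agent.Lib.MP_5854e1_co.Crc.KState

/-!
# Maps labelled by `K_{4,5} - 4 K_2`: the local inequality
-/

set_option autoImplicit false

open Equiv Equiv.Perm

namespace Pool.Agent.Lib.MP_5854e1_co.Crc.K45

namespace KMap

variable {D : Type*} (K : KMap D)

/-- cost of a dart, in quarters -/
noncomputable def k4 (x : D) : ℤ :=
  (cR (K.l x) (K.r x) (K.A x) (K.B x) : ℤ) - cL (K.l x) (K.r x) (K.A x) (K.B x)

/-- number of the state -/
noncomputable def sx (x : D) : ℕ := ix (K.l x) (K.r x) (K.A x)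

variable {K} {R : D → Prop}

/-- one step of the tables -/
theorem Reg.step [Fintype D] (h : K.Reg R) {x : D} (hx : R x) {p : ℕ × ℕ} (hp : p ∈ tabs) :
    (dg p.2 (K.sx (K.cm.fc x)) : ℤ) ≤ dg p.2 (K.sx x) + K.k4 x ∧
    (p.1 = K.sx x → (dg p.2 (K.sx (K.cm.fc x)) : ℤ) ≤ 4 + K.k4 x) := by
  have h1 := h.val hx
  have h2 := h.vale hx
  have h3 := next_mem (K := K) x
  have h4 := h.val ((h.fc x).2 hx)
  rw [K.l_fc, K.A_fc] at h4
  have k := step_ok h1 h2 h3 h4 (K.A_lt x) (K.B_lt x) hp
  unfold sx k4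
  rw [K.l_fc, K.A_fc]
  constructor
  · have := k.1
    omega
  · intro he
    have := k.2 he
    omega

/-- the cost of a face with a start state -/
theorem Reg.walk [Fintype D] (h : K.Reg R) {x : D} (hx : R x)
    (hs : stt (K.l x) (K.r x) = true) :
    4 ≤ ∑ i ∈ Finset.range (Function.minimalPeriod K.cm.fc x), K.k4 ((K.cm.fc)^[i] x) := by
  obtain ⟨p, hp, hp1, hp2⟩ := start_ok (h.val hx) hs (K.A_lt x)
  have hR : ∀ i, R ((K.cm.fc)^[i] x) := by
    intro i
    induction i with
    | zero => exact hx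
    | succ i ih =>
      rw [Function.iterate_succ_apply']
      exact (h.fc _).2 ih
  have key : ∀ m, (dg p.2 (K.sx ((K.cm.fc)^[m + 1] x)) : ℤ) ≤
      4 + ∑ i ∈ Finset.range (m + 1), K.k4 ((K.cm.fc)^[i] x) := by
    intro m
    induction m with
    | zero =>
      rw [Finset.sum_range_one]
      exact (h.step hx hp).2 hp1
    | succ m ih =>
      rw [Function.iterate_succ_apply', Finset.sum_range_succ]
      have := (h.step (hR (m + 1)) hp).1
      linarith
  have hpos := minimalPeriod_pos' K.cm.fc x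
  obtain ⟨m, hm⟩ : ∃ m, Function.minimalPeriod K.cm.fc x = m + 1 :=
    ⟨_, (Nat.succ_pred_eq_of_pos hpos).symm⟩
  have h1 := key m
  have h2 : (K.cm.fc)^[m + 1] x = x := by
    rw [← hm]
    exact Function.isPeriodicPt_minimalPeriod _ _
  rw [h2] at h1
  rw [hm]
  have h3 : 8 ≤ dg p.2 (K.sx x) := hp2
  have h4 : (8 : ℤ) ≤ dg p.2 (K.sx x) := by exact_mod_cast h3
  linarith

/-- every face of a region has a start state -/
theorem Reg.start [Fintype D] (h : K.Reg R) {x : D} (hx : R x) :
    ∃ y, K.cm.fc.SameCycle x y ∧ stt (K.l y) (K.r y) = true := by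
  have h1 : ∃ y, K.cm.fc.SameCycle x y ∧ ¬ K.c y := by
    by_contra hno
    push Not at hno
    apply h.ne x hx
    intro y hy
    obtain ⟨i, -, rfl⟩ := sameCycle_iterate K.cm.th hy
    have key : ∀ i, K.cm.fc.SameCycle x ((K.cm.th)^[i] x) := by
      intro i
      induction i with
      | zero => exact SameCycle.refl _ _
      | succ i ih =>
        rw [Function.iterate_succ_apply']
        have e : K.cm.th ((K.cm.th)^[i] x) = K.cm.fc ((K.cm.th)^[i] x) := K.th_c (hno _ ih)
        rw [e]
        exact ih.trans ⟨1, by simp⟩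
    exact hno _ (key i)
  obtain ⟨y, hy, hc⟩ := h1
  have hc' : ¬ ci (K.l y) (K.r y) = true := hc
  have hl := (ad_lt (K.ad_lr y)).1
  have hr := (ad_lt (K.ad_lr y)).2
  by_cases h8 : K.r y = 8
  · refine ⟨K.cm.fc y, hy.trans ⟨1, by simp⟩, ?_⟩
    unfold stt
    rw [K.l_fc, h8]
    rfl
  · refine ⟨y, hy, ?_⟩
    unfold stt
    by_cases h9 : K.l y = 8
    · rw [h9]
      rfl
    · have b1 : Nat.blt (K.l y) 8 = true := by
        rw [Nat.blt_eq]
        omega
      have b2 : Nat.blt (K.r y) 8 = true := by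
        rw [Nat.blt_eq]
        omega
      rw [b1, b2, Bool.eq_false_iff.2 hc']
      simp

open Classical in
/-- the charges of a region -/
noncomputable def kap (K : KMap D) (x : D) : ℚ := (K.k4 x : ℚ) / 4

/-- the transfer -/
noncomputable def psi (K : KMap D) (x : D) : ℚ :=
  if ci (K.l x) (K.r x) then 0 else
    ((P (K.l x) (K.r x) (K.A x) (K.B x) : ℚ) - P (K.r x) (K.l x) (K.B x) (K.A x)) / 4

theorem psi_ga (x : D) : K.psi (K.cm.ga x) = - K.psi x := by
  unfold psi
  by_cases hc : K.c x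
  · have eg : K.cm.ga x = x := K.cm.ga_F hc
    have hc' : ci (K.l x) (K.r x) = true := hc
    rw [eg, if_pos hc', neg_zero]
  · have eg : K.cm.ga x = K.inv x := K.cm.ga_nF hc
    have hc' : ¬ ci (K.l x) (K.r x) = true := hc
    have hc2 : ¬ ci (K.l (K.inv x)) (K.r (K.inv x)) = true := fun h => hc ((K.c_inv x).1 h)
    have eA : K.A (K.inv x) = K.B x := by
      classical
      unfold A B
      rw [eg]
    have eB : K.B (K.inv x) = K.A x := by
      classical
      unfold A B
      have : K.cm.ga (K.inv x) = x := by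
        rw [← eg, K.cm.ga_ga]
      rw [this, K.inv_inv]
    have er : K.r (K.inv x) = K.l x := K.r_inv x
    have el : K.l (K.inv x) = K.r x := rfl
    rw [eg, if_neg hc', if_neg hc2, eA, eB, er, el]
    ring

open Classical in
theorem kap_eq [Fintype D] (x : D) : K.kap x = (if K.cm.F x then 0 else 1 / 2) -
    K.om (K.cm.ga x) - (if K.cm.Lf x then 1 / 4 else 0) + K.psi x := by
  unfold kap k4 psi cR cL
  by_cases hc : K.c x
  · have hc' : ci (K.l x) (K.r x) = true := hc
    have eg : K.cm.ga x = x := K.cm.ga_F hc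
    have hF : K.cm.F x := hc
    have ho : K.om x = 0 := by
      unfold om
      have := K.l_lt hc
      rw [if_neg (by omega)]
    rw [if_pos hc', if_pos hc', if_pos hc', if_pos hF, eg, ho]
    by_cases h1 : K.isX x
    · have eA : K.A x = 0 := by
        unfold A
        rw [if_pos h1]
      have hL : ¬ K.cm.Lf x := by
        intro hL
        obtain ⟨z, hz, hX⟩ := h1
        exact hX.2 ((K.cm.emp_same (K.good.same x z hc hX.1 hz)).1 hL.2)
      rw [eA, if_pos (Nat.beq_refl 0), if_neg hL]
      norm_num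
    · have eA : ¬ Nat.beq (K.A x) 0 = true := by
        unfold A
        rw [if_neg h1, Nat.beq_eq]
        exact K.cd_ne x
      rw [if_neg eA, if_pos (K.lf_of hc h1)]
      norm_num
  · have hc' : ¬ ci (K.l x) (K.r x) = true := hc
    have eg : K.cm.ga x = K.inv x := K.cm.ga_nF hc
    have hF : ¬ K.cm.F x := hc
    have hL : ¬ K.cm.Lf x := fun h => hc h.1
    rw [if_neg hc', if_neg hc', if_neg hc', if_neg hF, if_neg hL, eg]
    unfold om
    by_cases h8 : K.r x = 8
    · have h8' : K.l (K.inv x) = 8 := h8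
      rw [if_pos h8', h8, if_pos (Nat.beq_refl 8)]
      push_cast
      ring
    · have h8' : ¬ K.l (K.inv x) = 8 := h8
      have h8'' : ¬ Nat.beq (K.r x) 8 = true := by
        rw [Nat.beq_eq]
        exact h8
      rw [if_neg h8', if_neg h8'']
      push_cast
      ring

open Classical in
/-- **The local inequality.** -/
theorem Reg.false_of [Fintype D] (h : K.Reg R)
    (hlt : ∑ x ∈ Finset.univ.filter R, ((if K.cm.F x then 0 else 1 / 2) - K.om x -
        (if K.cm.Lf x then vv K.cm.th (K.inv x) else 0)) <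
        ∑ x ∈ Finset.univ.filter R, vv K.cm.fc x) : False := by
  -- faces
  have h1 : ∑ x ∈ Finset.univ.filter R, vv K.cm.fc x ≤ ∑ x ∈ Finset.univ.filter R, K.kap x := by
    refine cav K.cm.fc R h.fc _ _ fun x hx => ?_
    rw [sum_vv]
    obtain ⟨y, hy, hs⟩ := h.start hx
    have hRy : R y := (inv_same h.fc hy).1 hx
    have hw := h.walk hRy hs
    have e1 : cl K.cm.fc x = cl K.cm.fc y := by
      ext z
      rw [mem_cl, mem_cl]
      exact ⟨fun hz => hy.symm.trans hz, fun hz => hy.trans hz⟩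
    have e2 : ∑ z ∈ cl K.cm.fc y, K.kap z =
        ∑ i ∈ Finset.range (Function.minimalPeriod K.cm.fc y), K.kap ((K.cm.fc)^[i] y) := by
      rw [sum_range_period]
      refine Finset.sum_congr ?_ fun _ _ => rfl
      ext z
      simp [cl]
    rw [e1, e2]
    unfold kap
    rw [← Finset.sum_div, ← Int.cast_sum]
    have hw' : (4 : ℚ) ≤ ((∑ i ∈ Finset.range (Function.minimalPeriod K.cm.fc y),
        K.k4 ((K.cm.fc)^[i] y) : ℤ) : ℚ) := by exact_mod_cast hw
    linarith
  -- total
  have hsw : ∀ f : D → ℚ, ∑ x ∈ Finset.univ.filter R, f (K.cm.ga x) =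
      ∑ x ∈ Finset.univ.filter R, f x := by
    intro f
    rw [Finset.sum_filter, Finset.sum_filter]
    rw [← Equiv.sum_comp K.cm.ga (fun x => if R x then f x else 0)]
    refine Finset.sum_congr rfl fun x _ => ?_
    by_cases hx : R x
    · rw [if_pos hx, if_pos ((h.ga x).2 hx)]
    · rw [if_neg hx, if_neg (fun h' => hx ((h.ga x).1 h'))]
  have hpsi : ∑ x ∈ Finset.univ.filter R, K.psi x = 0 := by
    have e1 := hsw K.psi
    have e2 : ∑ x ∈ Finset.univ.filter R, K.psi (K.cm.ga x) =
        - ∑ x ∈ Finset.univ.filter R, K.psi x := by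
      rw [← Finset.sum_neg_distrib]
      exact Finset.sum_congr rfl fun x _ => psi_ga x
    linarith
  have h2 : ∑ x ∈ Finset.univ.filter R, K.kap x ≤
      ∑ x ∈ Finset.univ.filter R, ((if K.cm.F x then 0 else 1 / 2) - K.om x -
        (if K.cm.Lf x then vv K.cm.th (K.inv x) else 0)) := by
    rw [Finset.sum_congr rfl (fun x _ => kap_eq (K := K) x), Finset.sum_add_distrib, hpsi,
      add_zero, Finset.sum_sub_distrib, Finset.sum_sub_distrib, Finset.sum_sub_distrib,
      Finset.sum_sub_distrib, hsw K.om]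
    have h3 : ∑ x ∈ Finset.univ.filter R, (if K.cm.Lf x then vv K.cm.th (K.inv x) else 0) ≤
        ∑ x ∈ Finset.univ.filter R, (if K.cm.Lf x then (1 / 4 : ℚ) else 0) := by
      refine Finset.sum_le_sum fun x _ => ?_
      by_cases hL : K.cm.Lf x
      · rw [if_pos hL, if_pos hL]
        have h4 := per_emp (K := K) ((K.c_inv x).2 hL.1) hL.2
        unfold vv
        have h5 : (4 : ℚ) ≤ (Function.minimalPeriod K.cm.th (K.inv x) : ℚ) := by exact_mod_cast h4
        exact one_div_le_one_div_of_le (by norm_num) h5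
      · rw [if_neg hL, if_neg hL]
    linarith
  linarith

end KMap

end Pool.Agent.Lib.MP_5854e1_co.Crc.K45
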