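import Pool.Agent.Lib.MP_5854e1_co.Crc.RegionThm
import Pool.Agent.Lib.MP_5854e1_co.Crc.KChk

/-!
# Maps labelled by `K_{4,5} - 4 K_2`: local structure
-/

set_option autoImplicit false

open Equiv Equiv.Perm

namespace Pool.Agent.Lib.MP_5854e1_co.Crc.K45

/-- a check over all labels `u`, codes `i` and neighbours `v` -/
def fct (p : ℕ → ℕ → ℕ → Bool) : Bool :=
  (List.range 9).all fun u => (List.range 7).all fun i => (List.range 9).all fun v =>
    !okc u i || (!ad u v || p u i v)

theorem okc_lt {u i : ℕ} (h : okc u i = true) : i < 7 := by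
  unfold okc at h
  rw [Bool.and_eq_true, Nat.ble_eq, Nat.ble_eq] at h
  have : (if (Nat.blt u 4 || Nat.beq u 8) = true then 6 else 2) ≤ 6 := by split_ifs <;> omega
  omega

theorem okc_pos {u i : ℕ} (h : okc u i = true) : i ≠ 0 := by
  unfold okc at h
  rw [Bool.and_eq_true, Nat.ble_eq, Nat.ble_eq] at h
  omega

theorem fct_use {p : ℕ → ℕ → ℕ → Bool} (h : fct p = true) {u i v : ℕ} (h1 : okc u i = true)
    (h2 : ad u v = true) : p u i v = true := by
  obtain ⟨hu, hv⟩ := ad_lt h2
  have := all_range (all_range (all_range h hu) (okc_lt h1)) hv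
  rw [h1, h2, Bool.not_true, Bool.false_or, Bool.false_or] at this
  exact this

private theorem f1 : fct (fun u i v => ad u (nt u i v)) = true := by decide +kernel

private theorem f2 : fct (fun u i v => !Nat.blt u 8 || ci u v || ci u (nt u i v) ||
    ci u (nt u i (nt u i v))) = true := by decide +kernel

private theorem f3 : fct (fun u i v => !ci u v ||
    (if ci u (nt u i v) then Nat.beq (nt u i v) (oc u v) && !ci u (nt u i (nt u i v))
    else if ci u (nt u i (nt u i v)) then Nat.beq (nt u i (nt u i v)) (oc u v)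
    else Nat.beq (nt u i (nt u i (nt u i v))) (oc u v) && ci u (nt u i (nt u i (nt u i v))))) =
    true := by decide +kernel

private theorem f4 : fct (fun u _ v => !ci u v || (ci u (oc u v) && Nat.beq (oc u (oc u v)) v &&
    !Nat.beq (oc u v) v && Nat.blt u 8 && Nat.blt v 8 && (tz u == tz v) && ci v u)) = true := by
  decide +kernel

private theorem f5 : fct (fun u i v => !Nat.beq (nt u i v) v && !Nat.beq (nt u i (nt u i v)) v &&
    (if Nat.blt u 4 || Nat.beq u 8 then !Nat.beq (nt u i (nt u i (nt u i v))) v &&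
      Nat.beq (nt u i (nt u i (nt u i (nt u i v)))) v
    else Nat.beq (nt u i (nt u i (nt u i v))) v)) = true := by decide +kernel

private theorem f6 : fct (fun u _ v => ad v u && !Nat.beq u v) = true := by decide +kernel

/-- a map whose darts are labelled like a cover of `K_{4,5} - 4 K_2` -/
structure KMap (D : Type*) where
  /-- next dart at the vertex -/
  rot : Perm D
  /-- the other dart of the edge -/
  inv : Perm D
  /-- label of the vertex -/
  l : D → ℕ
  /-- code of the rotation at the vertex -/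
  cd : D → ℕ
  inv_inv : ∀ x, inv (inv x) = x
  inv_ne : ∀ x, inv x ≠ x
  l_rot : ∀ x, l (rot x) = l x
  cd_rot : ∀ x, cd (rot x) = cd x
  adj : ∀ x, ad (l x) (l (inv x)) = true
  cd_ok : ∀ x, okc (l x) (cd x) = true
  nx : ∀ x, l (inv (rot x)) = nt (l x) (cd x) (l (inv x))
  inj : ∀ x i, l (inv (rot^[i] x)) = l (inv x) → rot^[i] x = x

namespace KMap

variable {D : Type*} (K : KMap D)

/-- label of the other end -/
def r (x : D) : ℕ := K.l (K.inv x)

theorem r_inv (x : D) : K.r (K.inv x) = K.l x := by rw [r, K.inv_inv]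

theorem r_rot (x : D) : K.r (K.rot x) = nt (K.l x) (K.cd x) (K.r x) := K.nx x

theorem ad_lr (x : D) : ad (K.l x) (K.r x) = true := K.adj x

/-- circle darts -/
def c (x : D) : Prop := ci (K.l x) (K.r x) = true

theorem ci_symm_aux {u v : ℕ} (h : ad u v = true) (h1 : ci u v = true) : ci v u = true := by
  have := fct_use f4 (show okc u 1 = true from by
    have := (ad_lt h).1
    interval_cases u <;> decide) h
  rw [h1] at this
  simp only [Bool.not_true, Bool.false_or, Bool.and_eq_true] at this
  exact this.2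

theorem c_inv (x : D) : K.c (K.inv x) ↔ K.c x := by
  unfold c
  rw [K.r_inv]
  show ci (K.r x) (K.l x) = true ↔ _
  constructor
  · intro h
    refine ci_symm_aux ?_ h
    have := K.ad_lr (K.inv x)
    rwa [K.r_inv] at this
  · exact ci_symm_aux (K.ad_lr x)

/-- the map with contracted circles -/
def cm : CMap D where
  rot := K.rot
  inv := K.inv
  F := K.c
  c := K.c
  inv_inv := K.inv_inv
  inv_ne := K.inv_ne
  F_inv := K.c_inv
  c_inv := K.c_inv
  c_F := fun _ h => h

theorem th_c {x : D} (h : K.c x) : K.cm.th x = K.rot (K.inv x) := K.cm.th_F h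

theorem th_n {x : D} (h : ¬ K.c x) : K.cm.th x = K.rot x := K.cm.th_nF h

theorem l_lt {x : D} (h : K.c x) : K.l x < 8 := by
  unfold c ci at h
  simp only [Bool.and_eq_true, Nat.blt_eq] at h
  exact h.1.1.1

open Classical in
/-- the first circle dart from `x` on -/
noncomputable def f (x : D) : D :=
  if K.c x then x else if K.c (K.rot x) then K.rot x else K.rot (K.rot x)

theorem f_c {x : D} (h : K.c x) : K.f x = x := by
  classical
  unfold f
  rw [if_pos h]

theorem f_n {x : D} (h : ¬ K.c x) (hx : K.l x < 8) : K.f (K.rot x) = K.f x := by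
  classical
  unfold f
  by_cases h1 : K.c (K.rot x)
  · rw [if_pos h1, if_neg h, if_pos h1]
  · rw [if_neg h1, if_neg h, if_neg h1]
    have h2 := fct_use f2 (K.cd_ok x) (K.ad_lr x)
    have e1 : ci (K.l x) (K.r x) = false := by simpa [c] using h
    have e2 : ci (K.l x) (nt (K.l x) (K.cd x) (K.r x)) = false := by
      rw [← K.r_rot]
      have := h1
      unfold c at this
      rw [K.l_rot] at this
      simpa using this
    rw [(Nat.blt_eq.symm ▸ hx : Nat.blt (K.l x) 8 = true), e1, e2] at h2
    simp only [Bool.not_true, Bool.false_or] at h2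
    have h3 : K.c (K.rot (K.rot x)) := by
      unfold c
      rw [K.r_rot, K.l_rot, K.l_rot, K.cd_rot, K.r_rot]
      exact h2
    rw [if_pos h3]

theorem f_is {x : D} (hx : K.l x < 8) : K.c (K.f x) ∧ K.l (K.f x) = K.l x ∧
    K.cd (K.f x) = K.cd x := by
  classical
  unfold f
  by_cases h0 : K.c x
  · rw [if_pos h0]
    exact ⟨h0, rfl, rfl⟩
  · rw [if_neg h0]
    by_cases h1 : K.c (K.rot x)
    · rw [if_pos h1]
      exact ⟨h1, K.l_rot x, K.cd_rot x⟩
    · rw [if_neg h1]
      refine ⟨?_, by rw [K.l_rot, K.l_rot], by rw [K.cd_rot, K.cd_rot]⟩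
      have h2 := fct_use f2 (K.cd_ok x) (K.ad_lr x)
      have e1 : ci (K.l x) (K.r x) = false := by simpa [c] using h0
      have e2 : ci (K.l x) (nt (K.l x) (K.cd x) (K.r x)) = false := by
        rw [← K.r_rot]
        have := h1
        unfold c at this
        rw [K.l_rot] at this
        simpa using this
      rw [(Nat.blt_eq.symm ▸ hx : Nat.blt (K.l x) 8 = true), e1, e2] at h2
      simp only [Bool.not_true, Bool.false_or] at h2
      unfold c
      rw [K.r_rot, K.l_rot, K.l_rot, K.cd_rot, K.r_rot]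
      exact h2

theorem same_step (x : D) : K.cm.th.SameCycle x (K.cm.th x) := ⟨1, by simp⟩

theorem f_same {x : D} : K.cm.th.SameCycle x (K.f x) := by
  classical
  unfold f
  by_cases h0 : K.c x
  · rw [if_pos h0]
  · rw [if_neg h0]
    have e1 : K.cm.th.SameCycle x (K.rot x) := by
      rw [← K.th_n h0]
      exact K.same_step x
    by_cases h1 : K.c (K.rot x)
    · rw [if_pos h1]
      exact e1
    · rw [if_neg h1]
      refine e1.trans ?_
      rw [← K.th_n h1]
      exact K.same_step _

/-- the other circle dart at the vertex -/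
noncomputable def o (x : D) : D := K.f (K.rot x)

theorem o_is {x : D} (h : K.c x) : K.c (K.o x) ∧ K.l (K.o x) = K.l x ∧
    K.cd (K.o x) = K.cd x ∧ K.r (K.o x) = oc (K.l x) (K.r x) := by
  have hl := K.l_lt h
  obtain ⟨h1, h2, h3⟩ := K.f_is (x := K.rot x) (by rw [K.l_rot]; exact hl)
  rw [K.l_rot] at h2
  rw [K.cd_rot] at h3
  refine ⟨h1, h2, h3, ?_⟩
  have k := fct_use f3 (K.cd_ok x) (K.ad_lr x)
  have e0 : ci (K.l x) (K.r x) = true := h
  rw [e0, Bool.not_true, Bool.false_or] at k
  classical
  unfold o f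
  by_cases g1 : K.c (K.rot x)
  · rw [if_pos g1]
    have g1' : ci (K.l x) (nt (K.l x) (K.cd x) (K.r x)) = true := by
      rw [← K.r_rot]
      unfold c at g1
      rwa [K.l_rot] at g1
    rw [if_pos g1', Bool.and_eq_true, Nat.beq_eq] at k
    rw [K.r_rot]
    exact k.1
  · rw [if_neg g1]
    have g1' : ¬ ci (K.l x) (nt (K.l x) (K.cd x) (K.r x)) = true := by
      rw [← K.r_rot]
      unfold c at g1
      rwa [K.l_rot] at g1
    rw [if_neg g1'] at k
    by_cases g2 : K.c (K.rot (K.rot x))
    · rw [if_pos g2]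
      have g2' : ci (K.l x) (nt (K.l x) (K.cd x) (nt (K.l x) (K.cd x) (K.r x))) = true := by
        unfold c at g2
        rwa [K.r_rot, K.l_rot, K.l_rot, K.cd_rot, K.r_rot] at g2
      rw [if_pos g2', Nat.beq_eq] at k
      rw [K.r_rot, K.l_rot, K.cd_rot, K.r_rot]
      exact k
    · rw [if_neg g2]
      have g2' : ¬ ci (K.l x) (nt (K.l x) (K.cd x) (nt (K.l x) (K.cd x) (K.r x))) = true := by
        unfold c at g2
        rwa [K.r_rot, K.l_rot, K.l_rot, K.cd_rot, K.r_rot] at g2
      rw [if_neg g2', Bool.and_eq_true, Nat.beq_eq] at k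
      rw [K.r_rot, K.l_rot, K.l_rot, K.cd_rot, K.cd_rot, K.r_rot, K.l_rot, K.cd_rot, K.r_rot]
      exact k.1

/-- `o x` is an iterate of the rotation -/
theorem o_iter (x : D) : ∃ i, K.o x = K.rot^[i] x := by
  classical
  unfold o f
  by_cases g1 : K.c (K.rot x)
  · rw [if_pos g1]
    exact ⟨1, rfl⟩
  · rw [if_neg g1]
    by_cases g2 : K.c (K.rot (K.rot x))
    · rw [if_pos g2]
      exact ⟨2, rfl⟩
    · rw [if_neg g2]
      exact ⟨3, rfl⟩

theorem o_o {x : D} (h : K.c x) : K.o (K.o x) = x := by
  obtain ⟨h1, h2, h3, h4⟩ := K.o_is h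
  obtain ⟨g1, g2, g3, g4⟩ := K.o_is h1
  obtain ⟨i, hi⟩ := K.o_iter x
  obtain ⟨j, hj⟩ := K.o_iter (K.o x)
  have k := fct_use f4 (K.cd_ok x) (K.ad_lr x)
  have e0 : ci (K.l x) (K.r x) = true := h
  rw [e0, Bool.not_true, Bool.false_or] at k
  simp only [Bool.and_eq_true, Nat.beq_eq] at k
  have e : K.o (K.o x) = K.rot^[j + i] x := by
    rw [Function.iterate_add_apply, ← hi, hj]
  rw [e]
  apply K.inj
  rw [← e]
  show K.r (K.o (K.o x)) = K.r x
  rw [g4, h2, h4]
  exact k.1.1.1.1.1.2

/-- the contour through `o x` backwards reaches `x` -/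
theorem inv_o_same {x : D} (h : K.c x) : K.cm.th.SameCycle (K.inv (K.o x)) x := by
  obtain ⟨h1, -⟩ := K.o_is h
  have e1 : K.cm.th.SameCycle (K.inv (K.o x)) (K.rot (K.o x)) := by
    have := K.th_c ((K.c_inv (K.o x)).2 h1)
    rw [K.inv_inv] at this
    rw [← this]
    exact K.same_step _
  have e2 : K.cm.th.SameCycle (K.rot (K.o x)) (K.o (K.o x)) := K.f_same
  rw [K.o_o h] at e2
  exact e1.trans e2

/-- the contour through a circle dart -/
theorem c_same {x : D} (h : K.c x) : K.cm.th.SameCycle x (K.o (K.inv x)) := by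
  have e1 : K.cm.th.SameCycle x (K.rot (K.inv x)) := by
    rw [← K.th_c h]
    exact K.same_step _
  exact e1.trans K.f_same

end KMap

end Pool.Agent.Lib.MP_5854e1_co.Crc.K45
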