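import Pool.Agent.Lib.MP_5854e1_co.Crc.KCov

/-!
# `K_{4,5} - 4 K_2` has no finite planar cover
-/

set_option autoImplicit false

open Equiv Equiv.Perm

namespace Pool.Agent.Lib.MP_5854e1_co

namespace Crc.K45

/-- the automorphism `a_i ↦ a_{i+1}`, `b_i ↦ b_{i+1}` -/
def shf (u : Fin 9) : Fin 9 := ([1, 2, 3, 0, 5, 6, 7, 4, 8] : List (Fin 9)).getD u.val 0

theorem shf_adj : ∀ u v : Fin 9, K45m4.Adj u v ↔ K45m4.Adj (shf u) (shf v) := by decide

theorem shf_inj : ∀ u v : Fin 9, shf u = shf v → u = v := by decide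

theorem shf_surj : ∀ u : Fin 9, ∃ v, shf v = u := by decide

theorem shf_ci : ∀ u v : Fin 9, ci (shf u).val (shf v).val = ci u.val v.val := by decide

theorem shf_tz : ∀ u : Fin 9, u.val < 8 → tz u.val = false → tz (shf u).val = true := by decide

theorem shf_cover {W : Type*} {H : SimpleGraph W} {φ : W → Fin 9} (hφ : IsCover H K45m4 φ) :
    IsCover H K45m4 (fun w => shf (φ w)) := by
  intro v
  have h1 : Set.BijOn shf (K45m4.neighborSet (φ v)) (K45m4.neighborSet (shf (φ v))) := by
    refine ⟨fun u hu => (shf_adj _ _).1 hu, fun u _ w _ h => shf_inj _ _ h, fun w hw => ?_⟩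
    obtain ⟨u, rfl⟩ := shf_surj w
    exact ⟨u, (shf_adj _ _).2 hw, rfl⟩
  exact h1.comp (hφ v)

end Crc.K45

open Crc Crc.K45 in
/-- **`K_{4,5} - 4 K_2` has no finite planar cover.** -/
theorem K45m4_noCover : ¬ HasPlanarCover K45m4 := by
  classical
  rintro ⟨n, H, φ, hs, hφ, hpl⟩
  obtain ⟨rot, hrot, hdef⟩ := hpl.defect_eq
  have : Fintype H.Dart := Fintype.ofFinite _
  have hne : Nonempty H.Dart := by
    obtain ⟨v, hv⟩ := hs 0
    have h5 : (5 : Fin 9) ∈ K45m4.neighborSet (φ v) := by
      rw [hv]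
      show K45m4.Adj 0 5
      decide
    obtain ⟨w, hw, -⟩ := (hφ v).surjOn h5
    exact ⟨⟨(v, w), hw⟩⟩
  set K := ofCover hφ rot hrot with hK
  obtain ⟨R, hth, hga, hE, -, hX, hlt⟩ := K.cm.exists_region K.good (K.count hdef)
  by_cases hall : ∀ x, R x → K.cm.Xc x → tz (K.l x) = true
  · exact KMap.Reg.false_of (K := K) ⟨hth, hga, hE, hall⟩ hlt
  · push Not at hall
    obtain ⟨x0, hx0, hX0, ht0⟩ := hall
    have ht0' : tz (K.l x0) = false := by simpa using ht0
    set K' := ofCover (shf_cover hφ) rot hrot with hK'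
    have hc : K'.c = K.c := by
      funext x
      exact propext (by
        show ci (shf (φ x.fst)).val (shf (φ x.snd)).val = true ↔
          ci (φ x.fst).val (φ x.snd).val = true
        rw [shf_ci])
    have hcm : K'.cm = K.cm := by
      unfold KMap.cm
      congr 1
    have hom : K'.om = K.om := by
      funext x
      show (if (shf (φ x.fst)).val = 8 then (1 / 4 : ℚ) else 0) =
        (if (φ x.fst).val = 8 then (1 / 4 : ℚ) else 0)
      have : ∀ u : Fin 9, (shf u).val = 8 ↔ u.val = 8 := by decide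
      simp only [this]
    have hreg : K'.Reg R := by
      refine ⟨?_, ?_, ?_, ?_⟩
      · rw [hcm]; exact hth
      · rw [hcm]; exact hga
      · rw [hcm]; exact hE
      · rw [hcm]
        intro x hx hXx
        have hs1 := hX x x0 hx hx0 hXx hX0
        have e1 : tz (K.l x) = false := by
          rw [K.tz_same hs1]
          exact ht0'
        have e2 : K.l x < 8 := K.l_lt hXx.1
        exact shf_tz (φ x.fst) e2 e1
    refine hreg.false_of ?_
    rw [hcm, hom]
    exact hlt

end Pool.Agent.Lib.MP_5854e1_co
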