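import Pool.Agent.Lib.MP_5854e1_co.Crc.KGood

/-!
# Maps labelled by `K_{4,5} - 4 K_2`: the states of the darts of a region
-/

set_option autoImplicit false

open Equiv Equiv.Perm

namespace Pool.Agent.Lib.MP_5854e1_co.Crc.K45

private theorem h1 : fct (fun u i v => !ci u v || !ci u (nt u i v) ||
    (Nat.beq (nt u i v) (oc u v) && leafw u i && Nat.beq (oc u (oc u v)) v)) = true := by
  decide +kernel

private theorem h2 : fct (fun u i v => ad u (nt u i v) && !Nat.beq (nt u i v) v) = true := by
  decide +kernel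

private theorem h3 : fct (fun u _ v => !ci u v || (!Nat.beq u v && !Nat.beq (oc v u) u &&
    !Nat.beq (oc (oc v u) v) u)) = true := by decide +kernel

namespace KMap

variable {D : Type*} (K : KMap D)

theorem cd_ne (x : D) : K.cd x ≠ 0 := okc_pos (K.cd_ok x)

theorem fc_apply (x : D) : K.cm.fc x = K.rot (K.inv x) := rfl

theorem l_fc (x : D) : K.l (K.cm.fc x) = K.r x := by
  rw [K.fc_apply, K.l_rot]
  rfl

theorem cd_fc (x : D) : K.cd (K.cm.fc x) = K.cd (K.inv x) := by
  rw [K.fc_apply, K.cd_rot]

theorem r_fc (x : D) : K.r (K.cm.fc x) = nt (K.r x) (K.cd (K.inv x)) (K.l x) := by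
  rw [K.fc_apply, K.r_rot, K.r_inv]
  rfl

/-- the dart belongs to the contour of the exceptional circle -/
def isX (x : D) : Prop := ∃ z, K.cm.th.SameCycle x z ∧ K.cm.Xc z

open Classical in
/-- the code at the start -/
noncomputable def A (x : D) : ℕ := if K.isX x then 0 else K.cd x

open Classical in
/-- the code at the end -/
noncomputable def B (x : D) : ℕ := if K.isX (K.cm.ga x) then 0 else K.cd (K.inv x)

theorem isX_same {x y : D} (h : K.cm.th.SameCycle x y) : K.isX x ↔ K.isX y :=
  ⟨fun ⟨z, h1, h2⟩ => ⟨z, h.symm.trans h1, h2⟩, fun ⟨z, h1, h2⟩ => ⟨z, h.trans h1, h2⟩⟩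

theorem A_fc (x : D) : K.A (K.cm.fc x) = K.B x := by
  classical
  unfold A B
  have h : K.isX (K.cm.fc x) ↔ K.isX (K.cm.ga x) := by
    rw [← K.cm.th_ga]
    exact (K.isX_same (K.same_step _)).symm
  by_cases h1 : K.isX (K.cm.ga x)
  · rw [if_pos h1, if_pos (h.2 h1)]
  · rw [if_neg h1, if_neg (fun h2 => h1 (h.1 h2)), K.cd_fc]

theorem cd_lt (x : D) : K.cd x < 7 := okc_lt (K.cd_ok x)

theorem A_lt (x : D) : K.A x < 7 := by
  classical
  unfold A
  split_ifs
  · norm_num
  · exact K.cd_lt x

theorem B_lt (x : D) : K.B x < 7 := by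
  classical
  unfold B
  split_ifs
  · norm_num
  · exact K.cd_lt _

/-- a circle dart off the exceptional circle is on a leaf circle -/
theorem lf_of {x : D} (h : K.c x) (hx : ¬ K.isX x) : K.cm.Lf x := by
  refine ⟨h, ?_⟩
  by_contra h1
  exact hx ⟨x, SameCycle.refl _ _, h, h1⟩

/-- the window at a leaf circle -/
theorem window {x : D} (hx : ¬ K.isX x) (hl : K.l x < 8) :
    leafw (K.l x) (K.cd x) = true ∧ (K.c x → nt (K.l x) (K.cd x) (K.r x) =
      oc (K.l x) (K.r x)) := by
  obtain ⟨h1c, h2c, h3c⟩ := K.f_is hl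
  have hz : ¬ K.isX (K.f x) := fun h => hx ((K.isX_same K.f_same).2 h)
  have hlf := (K.lf_of h1c hz).2
  have e1 : K.cm.th (K.inv (K.f x)) = K.rot (K.f x) := by
    rw [K.th_c ((K.c_inv _).2 h1c), K.inv_inv]
  have e2 : K.c (K.rot (K.f x)) := by
    rw [← e1]
    exact hlf _ (K.same_step _)
  have a1 : ci (K.l x) (K.r (K.f x)) = true := by
    have : ci (K.l (K.f x)) (K.r (K.f x)) = true := h1c
    rwa [h2c] at this
  have a2 : ci (K.l x) (nt (K.l x) (K.cd x) (K.r (K.f x))) = true := by
    have : ci (K.l (K.rot (K.f x))) (K.r (K.rot (K.f x))) = true := e2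
    rwa [K.l_rot, K.r_rot, h2c, h3c] at this
  have ha : ad (K.l x) (K.r (K.f x)) = true := by
    have := K.ad_lr (K.f x)
    rwa [h2c] at this
  have k := fct_use h1 (K.cd_ok x) ha
  rw [a1, a2] at k
  simp only [Bool.not_true, Bool.false_or, Bool.and_eq_true, Nat.beq_eq] at k
  refine ⟨k.1.2, fun hc => ?_⟩
  rw [K.f_c hc] at k
  exact k.1.1

variable {R : D → Prop}

/-- the hypotheses on the region -/
structure Reg (R : D → Prop) : Prop where
  th : ∀ x, R (K.cm.th x) ↔ R x
  ga : ∀ x, R (K.cm.ga x) ↔ R x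
  ne : ∀ x, R x → ¬ K.cm.Emp x
  tz : ∀ x, R x → K.cm.Xc x → K45.tz (K.l x) = true

variable {K}

theorem Reg.fc (h : K.Reg R) (x : D) : R (K.cm.fc x) ↔ R x := by
  rw [← K.cm.th_ga, h.th, h.ga]

theorem Reg.x_tz [Fintype D] (h : K.Reg R) {x : D} (hx : R x) (h1 : K.isX x) :
    K45.tz (K.l x) = true := by
  obtain ⟨z, hz, hX⟩ := h1
  rw [K.tz_same hz]
  exact h.tz z ((inv_same h.th hz).1 hx) hX

theorem Reg.val [Fintype D] (h : K.Reg R) {x : D} (hx : R x) :
    val (K.l x) (K.r x) (K.A x) = true := by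
  classical
  unfold K45.val
  rw [K.ad_lr, Bool.true_and]
  by_cases h1 : K.isX x
  · have e : K.A x = 0 := by
      unfold A
      rw [if_pos h1]
    rw [e, if_pos (Nat.beq_refl 0)]
    exact h.x_tz hx h1
  · have e : K.A x = K.cd x := by
      unfold A
      rw [if_neg h1]
    have e' : ¬ Nat.beq (K.cd x) 0 = true := by
      rw [Nat.beq_eq]
      exact K.cd_ne x
    rw [e, if_neg e', K.cd_ok, Bool.true_and, Bool.or_eq_true]
    by_cases h2 : K.l x < 8
    · right
      obtain ⟨w1, w2⟩ := K.window h1 h2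
      by_cases h3 : K.c x
      · have h3' : ci (K.l x) (K.r x) = true := h3
        rw [if_pos h3', Nat.beq_eq]
        exact w2 h3
      · have h3' : ¬ ci (K.l x) (K.r x) = true := h3
        rw [if_neg h3']
        exact w1
    · left
      rw [Bool.not_eq_true', Bool.eq_false_iff, Ne, Nat.blt_eq]
      exact h2

theorem Reg.vale [Fintype D] (h : K.Reg R) {x : D} (hx : R x) :
    vale (K.l x) (K.r x) (K.A x) (K.B x) = true := by
  classical
  unfold K45.vale
  by_cases h1 : K.isX (K.cm.ga x)
  · have e : K.B x = 0 := by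
      unfold B
      rw [if_pos h1]
    rw [e, if_pos (Nat.beq_refl 0), Bool.and_eq_true, Bool.or_eq_true]
    by_cases hc : K.c x
    · have eg : K.cm.ga x = x := K.cm.ga_F hc
      rw [eg] at h1
      refine ⟨?_, Or.inr ?_⟩
      · rw [← K.tz_lr hc]
        exact h.x_tz hx h1
      · unfold A
        rw [if_pos h1]
        rfl
    · have eg : K.cm.ga x = K.inv x := K.cm.ga_nF hc
      rw [eg] at h1
      refine ⟨?_, Or.inl ?_⟩
      · have hR : R (K.inv x) := by
          rw [← eg]
          exact (h.ga x).2 hx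
        exact h.x_tz hR h1
      · rw [Bool.not_eq_true', Bool.eq_false_iff]
        exact hc
  · have e : K.B x = K.cd (K.inv x) := by
      unfold B
      rw [if_neg h1]
    have e' : ¬ Nat.beq (K.cd (K.inv x)) 0 = true := by
      rw [Nat.beq_eq]
      exact K.cd_ne _
    have e'' : okc (K.r x) (K.cd (K.inv x)) = true := K.cd_ok (K.inv x)
    rw [e, if_neg e', e'', Bool.true_and, Bool.or_eq_true]
    by_cases h2 : K.r x < 8
    · right
      by_cases hc : K.c x
      · have hc' : ci (K.l x) (K.r x) = true := hc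
        have eg : K.cm.ga x = x := K.cm.ga_F hc
        rw [eg] at h1
        have eA : K.A x = K.cd x := by
          unfold A
          rw [if_neg h1]
        have eA' : Nat.beq (K.A x) 0 = false := by
          rw [Bool.eq_false_iff, Ne, Nat.beq_eq, eA]
          exact K.cd_ne x
        rw [if_pos hc', eA', Bool.not_false, Bool.true_and, Nat.beq_eq]
        have hE := (K.lf_of hc h1).2
        obtain ⟨y, hy⟩ : ∃ y, K.cm.th y = K.inv x := ⟨K.cm.th.symm (K.inv x), by simp⟩
        have hs : K.cm.th.SameCycle (K.inv x) y := by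
          rw [← hy]
          exact (K.same_step y).symm
        have hcy : K.c y := hE y hs
        rw [K.th_c hcy] at hy
        have hcz : K.c (K.inv y) := (K.c_inv y).2 hcy
        have l1 : K.l (K.inv y) = K.r x := by
          rw [← K.l_rot, hy]
          rfl
        have c1 : K.cd (K.inv y) = K.cd (K.inv x) := by
          rw [← K.cd_rot, hy]
        have r1 : nt (K.r x) (K.cd (K.inv x)) (K.r (K.inv y)) = K.l x := by
          have := K.r_rot (K.inv y)
          rw [hy, K.r_inv, l1, c1] at this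
          exact this.symm
        have a1 : ci (K.r x) (K.r (K.inv y)) = true := by
          have : ci (K.l (K.inv y)) (K.r (K.inv y)) = true := hcz
          rwa [l1] at this
        have a2 : ci (K.r x) (nt (K.r x) (K.cd (K.inv x)) (K.r (K.inv y))) = true := by
          rw [r1]
          have : ci (K.l (K.inv x)) (K.r (K.inv x)) = true := (K.c_inv x).2 hc
          rwa [K.r_inv] at this
        have ha : ad (K.r x) (K.r (K.inv y)) = true := by
          have := K.ad_lr (K.inv y)
          rwa [l1] at this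
        have k := fct_use K45.h1 (K.cd_ok (K.inv x)) ha
        have e3 : K.l (K.inv x) = K.r x := rfl
        rw [e3, a1, a2] at k
        simp only [Bool.not_true, Bool.false_or, Bool.and_eq_true, Nat.beq_eq] at k
        have k1 := k.1.1
        have k2 := k.2
        rw [r1] at k1
        rw [← k1] at k2
        rw [k2]
        exact r1
      · have hc' : ¬ ci (K.l x) (K.r x) = true := hc
        rw [if_neg hc']
        have eg : K.cm.ga x = K.inv x := K.cm.ga_nF hc
        rw [eg] at h1
        exact (K.window h1 h2).1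
    · left
      rw [Bool.not_eq_true', Bool.eq_false_iff, Ne, Nat.blt_eq]
      exact h2

theorem next_mem (x : D) : K.r (K.cm.fc x) ∈ nexts (K.l x) (K.r x) (K.B x) := by
  classical
  unfold nexts
  by_cases h1 : K.isX (K.cm.ga x)
  · have e : K.B x = 0 := by
      unfold B
      rw [if_pos h1]
    rw [e, if_pos (Nat.beq_refl 0), List.mem_filter, List.mem_range, Bool.and_eq_true]
    have ha := K.ad_lr (K.cm.fc x)
    rw [K.l_fc] at ha
    refine ⟨(ad_lt ha).2, ha, ?_⟩
    have ha2 : ad (K.r x) (K.l x) = true := by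
      have := K.ad_lr (K.inv x)
      rwa [K.r_inv] at this
    have k := fct_use K45.h2 (K.cd_ok (K.inv x)) ha2
    have e3 : K.l (K.inv x) = K.r x := rfl
    rw [e3, Bool.and_eq_true] at k
    rw [K.r_fc]
    exact k.2
  · have e : K.B x = K.cd (K.inv x) := by
      unfold B
      rw [if_neg h1]
    have e' : ¬ Nat.beq (K.cd (K.inv x)) 0 = true := by
      rw [Nat.beq_eq]
      exact K.cd_ne _
    rw [e, if_neg e', List.mem_singleton, K.r_fc]

/-- an empty side has at least four darts -/
theorem per_emp [Finite D] {y : D} (hc : K.c y) (hE : K.cm.Emp y) :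
    4 ≤ Function.minimalPeriod K.cm.th y := by
  have key : ∀ z, K.cm.th.SameCycle y z → K.l (K.cm.th z) = K.r z ∧
      K.r (K.cm.th z) = oc (K.r z) (K.l z) := by
    intro z hz
    have hcz : K.c z := hE z hz
    have hcz' : K.c (K.cm.th z) := hE _ (hz.trans (K.same_step z))
    rw [K.th_c hcz] at hcz' ⊢
    refine ⟨by rw [K.l_rot]; rfl, ?_⟩
    have hi : K.c (K.inv z) := (K.c_inv z).2 hcz
    have ha2 : ad (K.r z) (K.l z) = true := by
      have := K.ad_lr (K.inv z)
      rwa [K.r_inv] at this
    have k := fct_use K45.h1 (K.cd_ok (K.inv z)) ha2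
    have e3 : K.l (K.inv z) = K.r z := rfl
    have a1 : ci (K.r z) (K.l z) = true := by
      have : ci (K.l (K.inv z)) (K.r (K.inv z)) = true := hi
      rwa [K.r_inv] at this
    have a2 : ci (K.r z) (nt (K.r z) (K.cd (K.inv z)) (K.l z)) = true := by
      have : ci (K.l (K.rot (K.inv z))) (K.r (K.rot (K.inv z))) = true := hcz'
      rwa [K.l_rot, K.r_rot, K.r_inv] at this
    rw [e3, a1, a2] at k
    simp only [Bool.not_true, Bool.false_or, Bool.and_eq_true, Nat.beq_eq] at k
    rw [K.r_rot, K.r_inv]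
    exact k.1.1
  have s1 := K.same_step y
  have s2 := s1.trans (K.same_step _)
  obtain ⟨p1, q1⟩ := key y (SameCycle.refl _ _)
  obtain ⟨p2, q2⟩ := key _ s1
  obtain ⟨p3, -⟩ := key _ s2
  have k := fct_use K45.h3 (K.cd_ok y) (K.ad_lr y)
  have a0 : ci (K.l y) (K.r y) = true := hc
  rw [a0, Bool.not_true, Bool.false_or, Bool.and_eq_true, Bool.and_eq_true] at k
  obtain ⟨⟨k1, k2⟩, k3⟩ := k
  have hp := minimalPeriod_pos' K.cm.th y
  have hper := Function.isPeriodicPt_minimalPeriod K.cm.th y
  by_contra hlt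
  push Not at hlt
  have hcases : Function.minimalPeriod K.cm.th y = 1 ∨ Function.minimalPeriod K.cm.th y = 2 ∨
      Function.minimalPeriod K.cm.th y = 3 := by omega
  rcases hcases with h | h | h <;> rw [h] at hper
  · have e : K.cm.th y = y := hper
    rw [e] at p1
    exact ne_of_nbeq k1 p1
  · have e : K.cm.th (K.cm.th y) = y := hper
    rw [e, q1] at p2
    exact ne_of_nbeq k2 p2.symm
  · have e : K.cm.th (K.cm.th (K.cm.th y)) = y := hper
    rw [e, q2, q1, p1] at p3
    exact ne_of_nbeq k3 p3.symm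

end KMap

end Pool.Agent.Lib.MP_5854e1_co.Crc.K45
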