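import Pool.Agent.Lib.MP_5854e1_co.Crc.CycSum

/-!
# Closed walks and distance tables

`s` is a state of the darts, `k` a cost, `dist p q` a lower bound for the cost of the walks of
positive length from the state `p` to the state `q` along the permutation `σ`.
-/

set_option autoImplicit false

open Equiv Equiv.Perm

namespace Pool.Agent.Lib.MP_5854e1_co.Crc

variable {D : Type*} [Fintype D]

theorem sum_cl (σ : Perm D) (x : D) {M : Type*} [AddCommMonoid M] (f : D → M) :
    ∑ y ∈ cl σ x, f y = ∑ i ∈ Finset.range (Function.minimalPeriod σ x), f (σ^[i] x) := by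
  classical
  rw [sum_range_period]
  refine Finset.sum_congr ?_ fun _ _ => rfl
  ext y
  simp [cl]

theorem cl_same {σ : Perm D} {x y : D} (h : σ.SameCycle x y) : cl σ x = cl σ y := by
  ext z
  rw [mem_cl, mem_cl]
  exact ⟨fun hz => h.symm.trans hz, fun hz => h.trans hz⟩

/-- the cost of a closed walk through a start state -/
theorem walk_ge (σ : Perm D) {R : D → Prop} (hR : ∀ x, R (σ x) ↔ R x) {S : Type*} (s : D → S)
    (k : D → ℤ) (dist : S → S → ℤ) (c : ℤ) {x : D} (hx : R x)
    (h0 : dist (s x) (s (σ x)) ≤ k x)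
    (h1 : ∀ y, R y → dist (s x) (s (σ y)) ≤ dist (s x) (s y) + k y)
    (hc : c ≤ dist (s x) (s x)) : c ≤ ∑ y ∈ cl σ x, k y := by
  have hRi : ∀ i, R (σ^[i] x) := by
    intro i
    induction i with
    | zero => exact hx
    | succ i ih =>
      rw [Function.iterate_succ_apply']
      exact (hR _).2 ih
  have key : ∀ m, dist (s x) (s (σ^[m + 1] x)) ≤ ∑ i ∈ Finset.range (m + 1), k (σ^[i] x) := by
    intro m
    induction m with
    | zero =>
      rw [Finset.sum_range_one]
      exact h0
    | succ m ih =>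
      rw [Function.iterate_succ_apply', Finset.sum_range_succ]
      have := h1 _ (hRi (m + 1))
      linarith
  have hpos := minimalPeriod_pos' σ x
  obtain ⟨m, hm⟩ : ∃ m, Function.minimalPeriod σ x = m + 1 :=
    ⟨_, (Nat.succ_pred_eq_of_pos hpos).symm⟩
  have h2 : σ^[m + 1] x = x := by
    rw [← hm]
    exact Function.isPeriodicPt_minimalPeriod _ _
  have h3 := key m
  rw [h2] at h3
  rw [sum_cl, hm]
  linarith

/-- the cost of a closed walk is not negative if there is a potential -/
theorem walk_nonneg (σ : Perm D) {R : D → Prop} (hR : ∀ x, R (σ x) ↔ R x) (k p : D → ℤ)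
    (h : ∀ y, R y → 0 ≤ k y + p y - p (σ y)) {x : D} (hx : R x) : 0 ≤ ∑ y ∈ cl σ x, k y := by
  have h1 : ∑ y ∈ cl σ x, p (σ y) = ∑ y ∈ cl σ x, p y := by
    refine Finset.sum_nbij' (fun y => σ y) (fun y => σ.symm y) ?_ ?_ ?_ ?_ ?_
    · intro y hy
      rw [mem_cl] at hy ⊢
      exact sameCycle_apply_right.2 hy
    · intro y hy
      rw [mem_cl] at hy ⊢
      exact sameCycle_apply_right.1 (by rwa [Equiv.apply_symm_apply])
    · intro y _
      exact σ.symm_apply_apply y
    · intro y _
      exact σ.apply_symm_apply y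
    · intro y _
      rfl
  have h2 : 0 ≤ ∑ y ∈ cl σ x, (k y + p y - p (σ y)) :=
    Finset.sum_nonneg fun y hy => h y ((inv_same hR (mem_cl.1 hy)).1 hx)
  rw [Finset.sum_sub_distrib, Finset.sum_add_distrib, h1] at h2
  linarith

end Pool.Agent.Lib.MP_5854e1_co.Crc
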