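import Pool.Agent.Lib.MP_5854e1_co.Crc.OState
import Pool.Agent.Lib.MP_5854e1_co.Crc.Walk

/-!
# Maps labelled by `K_{1,2,2,2}`: the count in a region

`w` counts the darts at `v`, `s` the legs of the circles over `1 3 5`; the region contains all the
legs of the circles over `2 4 6`, and all these circles have an empty other side.
-/

set_option autoImplicit false

open Equiv Equiv.Perm

namespace Pool.Agent.Lib.MP_5854e1_co.Crc.Oct

/-- steps to the dart to `v` -/
def stv (u i v : ℕ) : ℕ :=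
  if Nat.beq v 0 then 0 else if Nat.beq (nt u i v) 0 then 1 else
  if Nat.beq (nt u i (nt u i v)) 0 then 2 else
  if Nat.beq (nt u i (nt u i (nt u i v))) 0 then 3 else 4

private theorem h1 : fct (fun u i v => Nat.beq u 0 || !ci u v || !ci u (nt u i v) ||
    (Nat.ble 2 (stv u i v) && Nat.ble (stv u i v) 4 && Nat.beq ((nt u i)^[stv u i v] v) 0 &&
    !ci u (nt u i (nt u i v)) && !ci u (nt u i (nt u i (nt u i v))) &&
    !ci u (nt u i (nt u i (nt u i (nt u i v)))) &&
    Nat.beq (stp u i ((nt u i)^[stv u i v] v) + stv u i v) 5)) = true := by decide +kernel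

private theorem h2 : fct (fun u _ v =>
    (ci u v == (Nat.beq (u % 2) (v % 2) && Nat.blt 0 u && Nat.blt 0 v)) &&
    (Nat.blt 0 u || Nat.blt 0 v)) = true := by decide +kernel

namespace OMap

variable {D : Type*} (K : OMap D)

theorem c_iff (x : D) : K.c x ↔ K.l x % 2 = K.r x % 2 ∧ 0 < K.l x ∧ 0 < K.r x := by
  have k := fct_use h2 (K.cd_ok x) (K.ad_lr x)
  rw [Bool.and_eq_true, beq_iff_eq] at k
  unfold c
  rw [k.1, Bool.and_eq_true, Bool.and_eq_true, Nat.beq_eq, Nat.blt_eq, Nat.blt_eq]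
  exact ⟨fun h => ⟨h.1.1, h.1.2, h.2⟩, fun h => ⟨⟨h.1, h.2.1⟩, h.2.2⟩⟩

theorem pos_or (x : D) : 0 < K.l x ∨ 0 < K.r x := by
  have k := fct_use h2 (K.cd_ok x) (K.ad_lr x)
  rw [Bool.and_eq_true, Bool.or_eq_true, Nat.blt_eq, Nat.blt_eq] at k
  exact k.2

/-- the dart to `v` at the vertex of a leaf dart -/
def gv (x : D) : D := K.rot^[stv (K.l x) (K.cd x) (K.r x)] x

theorem gv_spec {R : D → Prop} (hth : ∀ x, R (K.cm.th x) ↔ R x) {x : D} (hc : K.c x)
    (he : K.cm.Emp (K.inv x)) (hx : R x) :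
    R (K.gv x) ∧ K.l (K.gv x) = K.l x ∧ K.r (K.gv x) = 0 ∧ K.f (K.gv x) = x := by
  have e1 : K.c (K.rot x) := by
    have := he _ (K.same_step (K.inv x))
    rwa [K.th_c ((K.c_inv x).2 hc), K.inv_inv] at this
  have k := fct_use h1 (K.cd_ok x) (K.ad_lr x)
  have a0 : Nat.beq (K.l x) 0 = false := by
    rw [Bool.eq_false_iff, Ne, Nat.beq_eq]
    exact K.c_ne hc
  have a1 : ci (K.l x) (K.r x) = true := hc
  have a2 : ci (K.l x) (nt (K.l x) (K.cd x) (K.r x)) = true := by
    unfold c at e1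
    rwa [K.l_rot, K.r_rot] at e1
  rw [a0, a1, a2] at k
  simp only [Bool.not_true, Bool.false_or, Bool.and_eq_true, Nat.ble_eq, Nat.beq_eq,
    Bool.not_eq_true'] at k
  obtain ⟨⟨⟨⟨⟨⟨k1, k2⟩, k3⟩, k4⟩, k5⟩, k6⟩, k7⟩ := k
  have hn : ∀ i, 2 ≤ i → i ≤ 4 → ¬ K.c (K.rot^[i] x) := by
    intro i h2 h4 hh
    have h3 : ci (K.l (K.rot^[i] x)) (K.r (K.rot^[i] x)) = true := hh
    rw [(K.r_iter x i).2.1, (K.r_iter x i).1] at h3
    interval_cases i
    · have : ci (K.l x) (nt (K.l x) (K.cd x) (nt (K.l x) (K.cd x) (K.r x))) = true := h3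
      rw [k4] at this
      exact absurd this (by decide)
    · have : ci (K.l x) (nt (K.l x) (K.cd x) (nt (K.l x) (K.cd x)
        (nt (K.l x) (K.cd x) (K.r x)))) = true := h3
      rw [k5] at this
      exact absurd this (by decide)
    · have : ci (K.l x) (nt (K.l x) (K.cd x) (nt (K.l x) (K.cd x) (nt (K.l x) (K.cd x)
        (nt (K.l x) (K.cd x) (K.r x))))) = true := h3
      rw [k6] at this
      exact absurd this (by decide)
  have hst : ∀ i, 2 ≤ i → i ≤ 4 → (R (K.rot^[i + 1] x) ↔ R (K.rot^[i] x)) := by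
    intro i h2 h4
    rw [← hth (K.rot^[i] x), K.th_n (hn i h2 h4), Function.iterate_succ_apply']
  have h5 : K.rot^[5] x = x := by
    have := K.rot_dgr x
    unfold dgr at this
    rw [if_neg (by rw [a0]; decide)] at this
    exact this
  have hR5 : R (K.rot^[5] x) := by rw [h5]; exact hx
  have hR4 : R (K.rot^[4] x) := (hst 4 (by norm_num) (by norm_num)).1 hR5
  have hR3 : R (K.rot^[3] x) := (hst 3 (by norm_num) (by norm_num)).1 hR4
  have hR2 : R (K.rot^[2] x) := (hst 2 (by norm_num) (by norm_num)).1 hR3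
  have hi := K.r_iter x (stv (K.l x) (K.cd x) (K.r x))
  refine ⟨?_, hi.2.1, ?_, ?_⟩
  · unfold gv
    have hs : stv (K.l x) (K.cd x) (K.r x) = 2 ∨ stv (K.l x) (K.cd x) (K.r x) = 3 ∨
      stv (K.l x) (K.cd x) (K.r x) = 4 := by omega
    rcases hs with h | h | h <;> rw [h] <;> assumption
  · show K.r (K.gv x) = 0
    unfold gv
    rw [hi.1]
    exact k3
  · unfold f
    have e : K.l (K.gv x) = K.l x ∧ K.cd (K.gv x) = K.cd x ∧
        K.r (K.gv x) = (nt (K.l x) (K.cd x))^[stv (K.l x) (K.cd x) (K.r x)] (K.r x) :=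
      ⟨hi.2.1, hi.2.2, hi.1⟩
    rw [e.1, e.2.1, e.2.2]
    unfold gv
    rw [← Function.iterate_add_apply, k7]
    exact h5

variable [Fintype D] [DecidableEq D]

open Classical in
/-- one on the darts at `v` -/
noncomputable def wv (x : D) : ℚ := if K.l x = 0 then 1 else 0

open Classical in
/-- one on the legs of the circles over `1 3 5` -/
noncomputable def w1 (x : D) : ℚ := if K.l x % 2 = 1 ∧ ¬ K.c x then 1 else 0

open Classical in
/-- one on the legs from the circles over `1 3 5` to those over `2 4 6` -/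
noncomputable def w12 (x : D) : ℚ := if K.l x % 2 = 1 ∧ K.r x % 2 = 0 ∧ 0 < K.r x then 1 else 0

open Classical in
/-- one on the legs from the circles over `1 3 5` to `v` -/
noncomputable def w1v (x : D) : ℚ := if K.l x % 2 = 1 ∧ K.r x = 0 then 1 else 0

omit [DecidableEq D] in
open Classical in
/-- **The count.** -/
theorem count_region {R : D → Prop} (hth : ∀ x, R (K.cm.th x) ↔ R x)
    (hga : ∀ x, R (K.cm.ga x) ↔ R x)
    (hper : ∀ y, K.c y → K.cm.Emp y → 3 ≤ Function.minimalPeriod K.cm.th y)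
    (hlt : ∑ x ∈ Finset.univ.filter R, ((if K.cm.F x then 0 else 1 / 2) - K.om x -
        (if K.cm.Lf x then vv K.cm.th (K.inv x) else 0)) <
        ∑ x ∈ Finset.univ.filter R, vv K.cm.fc x) :
    ∑ x ∈ Finset.univ.filter R, (K.wv x + K.w1 x) - 2 * ∑ x ∈ Finset.univ.filter R, vv K.cm.fc x +
      ∑ x ∈ Finset.univ.filter R, (K.w12 x - K.w1v x / 3 -
        2 * (if K.cm.Lf x ∧ K.l x % 2 = 1 then vv K.cm.th (K.inv x) else 0)) < 0 := by
  have hsw : ∀ f : D → ℚ, ∑ x ∈ Finset.univ.filter R, f (K.cm.ga x) =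
      ∑ x ∈ Finset.univ.filter R, f x := by
    intro f
    rw [Finset.sum_filter, Finset.sum_filter]
    rw [← Equiv.sum_comp K.cm.ga (fun x => if R x then f x else 0)]
    refine Finset.sum_congr rfl fun x _ => ?_
    by_cases hx : R x
    · rw [if_pos hx, if_pos ((hga x).2 hx)]
    · rw [if_neg hx, if_neg (fun h' => hx ((hga x).1 h'))]
  -- the classes of darts
  set A : D → ℚ := fun x => if K.l x = 0 ∧ K.r x % 2 = 1 then 1 else 0 with hA
  set B : D → ℚ := fun x => if K.l x = 0 ∧ K.r x % 2 = 0 then 1 else 0 with hB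
  set C : D → ℚ := fun x => if K.l x % 2 = 1 ∧ K.r x = 0 then 1 else 0 with hC
  set E : D → ℚ := fun x => if K.l x % 2 = 0 ∧ 0 < K.l x ∧ K.r x = 0 then 1 else 0 with hE
  set F : D → ℚ := fun x => if K.l x % 2 = 1 ∧ K.r x % 2 = 0 ∧ 0 < K.r x then 1 else 0 with hF
  set G : D → ℚ := fun x => if K.l x % 2 = 0 ∧ 0 < K.l x ∧ K.r x % 2 = 1 then 1 else 0 with hG
  have cls : ∀ x : D, (K.l x = 0 ∧ 0 < K.r x ∧ ¬ K.c x ∧ (K.r x % 2 = 1 ∨ K.r x % 2 = 0)) ∨
      (0 < K.l x ∧ K.r x = 0 ∧ ¬ K.c x ∧ (K.l x % 2 = 1 ∨ K.l x % 2 = 0)) ∨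
      (0 < K.l x ∧ 0 < K.r x ∧ K.l x % 2 = K.r x % 2 ∧ K.c x) ∨
      (0 < K.l x ∧ 0 < K.r x ∧ K.l x % 2 = 1 ∧ K.r x % 2 = 0 ∧ ¬ K.c x) ∨
      (0 < K.l x ∧ 0 < K.r x ∧ K.l x % 2 = 0 ∧ K.r x % 2 = 1 ∧ ¬ K.c x) := by
    intro x
    have h1 := K.c_iff x
    have h2 := K.pos_or x
    by_cases hc : K.c x
    · have := h1.1 hc
      simp only [hc, not_true_eq_false, and_true, and_false, false_and]
      omega
    · have h3 : ¬ (K.l x % 2 = K.r x % 2 ∧ 0 < K.l x ∧ 0 < K.r x) := fun h => hc (h1.2 h)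
      simp only [hc, not_false_eq_true, and_true, true_and, and_false]
      omega
  have e1 : ∑ x ∈ Finset.univ.filter R, A x = ∑ x ∈ Finset.univ.filter R, C x := by
    rw [← hsw C]
    refine Finset.sum_congr rfl fun x _ => ?_
    simp only [hA, hC]
    by_cases hc : K.c x
    · have eg : K.cm.ga x = x := K.cm.ga_F hc
      have := (K.c_iff x).1 hc
      rw [eg, if_neg (by omega), if_neg (by omega)]
    · have eg : K.cm.ga x = K.inv x := K.cm.ga_nF hc
      rw [eg, K.l_inv, K.r_inv]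
      congr 1
      exact propext ⟨fun h => ⟨h.2, h.1⟩, fun h => ⟨h.2, h.1⟩⟩
  have e2 : ∑ x ∈ Finset.univ.filter R, B x = ∑ x ∈ Finset.univ.filter R, E x := by
    rw [← hsw E]
    refine Finset.sum_congr rfl fun x _ => ?_
    simp only [hB, hE]
    have h2 := K.pos_or x
    by_cases hc : K.c x
    · have eg : K.cm.ga x = x := K.cm.ga_F hc
      have := (K.c_iff x).1 hc
      rw [eg, if_neg (by omega), if_neg (by omega)]
    · have eg : K.cm.ga x = K.inv x := K.cm.ga_nF hc
      rw [eg, K.l_inv, K.r_inv]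
      congr 1
      exact propext ⟨fun h => ⟨h.2, by omega, h.1⟩, fun h => ⟨h.2.2, h.1⟩⟩
  have e3 : ∑ x ∈ Finset.univ.filter R, G x = ∑ x ∈ Finset.univ.filter R, F x := by
    rw [← hsw F]
    refine Finset.sum_congr rfl fun x _ => ?_
    simp only [hF, hG]
    by_cases hc : K.c x
    · have eg : K.cm.ga x = x := K.cm.ga_F hc
      have := (K.c_iff x).1 hc
      rw [eg, if_neg (by omega), if_neg (by omega)]
    · have eg : K.cm.ga x = K.inv x := K.cm.ga_nF hc
      rw [eg, K.l_inv, K.r_inv]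
      congr 1
      exact propext ⟨fun h => ⟨h.2.2, h.1, h.2.1⟩, fun h => ⟨h.2.1, h.2.2, h.1⟩⟩
  -- the leaves over `2 4 6`
  have e4 : 2 * ∑ x ∈ Finset.univ.filter R,
      (if K.cm.Lf x ∧ K.l x % 2 = 0 then vv K.cm.th (K.inv x) else 0) ≤
      2 / 3 * ∑ x ∈ Finset.univ.filter R, E x := by
    have g1 : ∑ x ∈ Finset.univ.filter R,
        (if K.cm.Lf x ∧ K.l x % 2 = 0 then vv K.cm.th (K.inv x) else 0) ≤
        ∑ x ∈ Finset.univ.filter R, (1 / 3) * (if K.cm.Lf x ∧ K.l x % 2 = 0 then (1 : ℚ) else 0) := by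
      refine Finset.sum_le_sum fun x _ => ?_
      by_cases hx : K.cm.Lf x ∧ K.l x % 2 = 0
      · rw [if_pos hx, if_pos hx, mul_one]
        have h5 := hper (K.inv x) ((K.c_inv x).2 hx.1.1) hx.1.2
        have h6 : (3 : ℚ) ≤ (Function.minimalPeriod K.cm.th (K.inv x) : ℚ) := by exact_mod_cast h5
        unfold vv
        exact one_div_le_one_div_of_le (by norm_num) h6
      · rw [if_neg hx, if_neg hx, mul_zero]
    have g2 : ∑ x ∈ Finset.univ.filter R, (if K.cm.Lf x ∧ K.l x % 2 = 0 then (1 : ℚ) else 0) ≤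
        ∑ x ∈ Finset.univ.filter R, E x := by
      rw [← Finset.sum_filter, ← Finset.sum_filter, Finset.sum_const, Finset.sum_const,
        nsmul_eq_mul, nsmul_eq_mul, mul_one, mul_one]
      have hle : ((Finset.univ.filter R).filter fun x => K.cm.Lf x ∧ K.l x % 2 = 0).card ≤
          ((Finset.univ.filter R).filter fun x =>
            K.l x % 2 = 0 ∧ 0 < K.l x ∧ K.r x = 0).card := by
        refine Finset.card_le_card_of_injOn K.gv ?_ ?_
        · intro x hx
          rw [Finset.mem_coe, Finset.mem_filter, Finset.mem_filter] at hx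
          obtain ⟨⟨-, hxR⟩, hxL, hx2⟩ := hx
          obtain ⟨g1, g2, g3, -⟩ := K.gv_spec hth hxL.1 hxL.2 hxR
          rw [Finset.mem_coe, Finset.mem_filter, Finset.mem_filter]
          exact ⟨⟨Finset.mem_univ _, g1⟩, by rw [g2]; exact hx2,
            by rw [g2]; exact K.l_pos hxL.1, g3⟩
        · intro x hx y hy hxy
          rw [Finset.mem_coe, Finset.mem_filter, Finset.mem_filter] at hx hy
          have h1 := (K.gv_spec hth hx.2.1.1 hx.2.1.2 hx.1.2).2.2.2
          have h2 := (K.gv_spec hth hy.2.1.1 hy.2.1.2 hy.1.2).2.2.2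
          rw [← h1, ← h2, hxy]
      exact_mod_cast hle
    rw [← Finset.mul_sum] at g1
    linarith
  -- everything in terms of the classes
  have f1 : ∑ x ∈ Finset.univ.filter R, (K.wv x + K.w1 x) =
      ∑ x ∈ Finset.univ.filter R, A x + ∑ x ∈ Finset.univ.filter R, B x +
      (∑ x ∈ Finset.univ.filter R, C x + ∑ x ∈ Finset.univ.filter R, F x) := by
    rw [← Finset.sum_add_distrib, ← Finset.sum_add_distrib, ← Finset.sum_add_distrib]
    refine Finset.sum_congr rfl fun x _ => ?_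
    simp only [wv, w1, hA, hB, hC, hF]
    have h1 := cls x
    by_cases hc : K.c x
    · have := (K.c_iff x).1 hc
      rw [if_neg (by omega), if_neg (fun h => h.2 hc), if_neg (by omega), if_neg (by omega),
        if_neg (by omega), if_neg (by omega)]
      norm_num
    · simp only [hc, not_false_eq_true, and_true, true_and, and_false, false_or] at h1 ⊢
      split_ifs <;> first | (exfalso; omega) | norm_num
  have f2 : ∑ x ∈ Finset.univ.filter R, ((if K.cm.F x then 0 else 1 / 2) - K.om x -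
        (if K.cm.Lf x then vv K.cm.th (K.inv x) else 0)) =
      1 / 2 * (∑ x ∈ Finset.univ.filter R, A x + ∑ x ∈ Finset.univ.filter R, B x +
      ∑ x ∈ Finset.univ.filter R, C x + ∑ x ∈ Finset.univ.filter R, E x +
      ∑ x ∈ Finset.univ.filter R, F x + ∑ x ∈ Finset.univ.filter R, G x) -
      1 / 6 * (∑ x ∈ Finset.univ.filter R, A x + ∑ x ∈ Finset.univ.filter R, B x) -
      (∑ x ∈ Finset.univ.filter R,
        (if K.cm.Lf x ∧ K.l x % 2 = 1 then vv K.cm.th (K.inv x) else 0) +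
      ∑ x ∈ Finset.univ.filter R,
        (if K.cm.Lf x ∧ K.l x % 2 = 0 then vv K.cm.th (K.inv x) else 0)) := by
    simp only [← Finset.sum_add_distrib, ← Finset.sum_sub_distrib, Finset.mul_sum]
    refine Finset.sum_congr rfl fun x _ => ?_
    have hF1 : (if K.cm.F x then (0 : ℚ) else 1 / 2) - K.om x =
        1 / 2 * (A x + B x + C x + E x + F x + G x) - 1 / 6 * (A x + B x) := by
      simp only [om, hA, hB, hC, hE, hF, hG]
      have h1 := cls x
      by_cases hc : K.c x
      · have := (K.c_iff x).1 hc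
        have hcF : K.cm.F x := hc
        rw [if_pos hcF, if_neg (by omega), if_neg (by omega), if_neg (by omega), if_neg (by omega),
          if_neg (by omega), if_neg (by omega), if_neg (by omega)]
        norm_num
      · have hcF : ¬ K.cm.F x := hc
        rw [if_neg hcF]
        simp only [hc, not_false_eq_true, and_true, true_and, and_false, false_or] at h1 ⊢
        split_ifs <;> first | (exfalso; omega) | norm_num
    have hL1 : (if K.cm.Lf x then vv K.cm.th (K.inv x) else 0) =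
        (if K.cm.Lf x ∧ K.l x % 2 = 1 then vv K.cm.th (K.inv x) else 0) +
        (if K.cm.Lf x ∧ K.l x % 2 = 0 then vv K.cm.th (K.inv x) else 0) := by
      by_cases hL : K.cm.Lf x
      · rcases Nat.mod_two_eq_zero_or_one (K.l x) with h | h
        · rw [if_pos hL, if_neg (by omega), if_pos ⟨hL, h⟩, zero_add]
        · rw [if_pos hL, if_pos ⟨hL, h⟩, if_neg (by omega), add_zero]
      · rw [if_neg hL, if_neg (fun h => hL h.1), if_neg (fun h => hL h.1), add_zero]
    rw [hF1, hL1]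
  have f3 : ∑ x ∈ Finset.univ.filter R, (K.w12 x - K.w1v x / 3 -
        2 * (if K.cm.Lf x ∧ K.l x % 2 = 1 then vv K.cm.th (K.inv x) else 0)) =
      ∑ x ∈ Finset.univ.filter R, F x - (∑ x ∈ Finset.univ.filter R, C x) / 3 -
      2 * ∑ x ∈ Finset.univ.filter R,
        (if K.cm.Lf x ∧ K.l x % 2 = 1 then vv K.cm.th (K.inv x) else 0) := by
    rw [Finset.sum_sub_distrib, Finset.sum_sub_distrib, Finset.mul_sum, Finset.sum_div]
    rfl
  rw [f2] at hlt
  rw [f1, f3]
  linarith

omit [DecidableEq D] in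
open Classical in
theorem Reg.count {R : D → Prop} (h : K.Reg R)
    (hlt : ∑ x ∈ Finset.univ.filter R, ((if K.cm.F x then 0 else 1 / 2) - K.om x -
        (if K.cm.Lf x then vv K.cm.th (K.cm.inv x) else 0)) <
        ∑ x ∈ Finset.univ.filter R, vv K.cm.fc x) :
    ∑ x ∈ Finset.univ.filter R, (K.wv x + K.w1 x) - 2 * ∑ x ∈ Finset.univ.filter R, vv K.cm.fc x +
      ∑ x ∈ Finset.univ.filter R, (K.w12 x - K.w1v x / 3 -
        2 * (if K.cm.Lf x ∧ K.l x % 2 = 1 then vv K.cm.th (K.inv x) else 0)) < 0 :=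
  K.count_region h.th h.ga (fun _ => K.per_emp) hlt

end OMap

end Pool.Agent.Lib.MP_5854e1_co.Crc.Oct
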