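import Pool.Agent.Lib.MP_5854e1_co.Crc.OGood
import Pool.Agent.Lib.MP_5854e1_co.MinGraphs
import Pool.Agent.Lib.MP_5854e1_co.MnrC

/-!
# Covers of `K_{1,2,2,2}` as labelled maps
-/

set_option autoImplicit false

open Equiv Equiv.Perm

namespace Pool.Agent.Lib.MP_5854e1_co

namespace Crc.Oct

theorem adj_ad : ∀ u v : Fin 7, K1222.Adj u v → ad u.val v.val = true := by decide

theorem ad_adj : ∀ u v : Fin 7, ad u.val v.val = true → K1222.Adj u v := by decide

/-- the neighbours of a label -/
def nbs (u : ℕ) : List ℕ := (List.range 7).filter fun v => ad u v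

/-- every cyclic order of the neighbours has a code -/
def ckC5 : Bool := (List.range 7).all fun u => Nat.beq u 0 ||
  (nbs u).all fun a => (nbs u).all fun b => Nat.beq a b || (nbs u).all fun c =>
    Nat.beq a c || Nat.beq b c || (nbs u).all fun d =>
    Nat.beq a d || Nat.beq b d || Nat.beq c d || (nbs u).all fun e =>
    Nat.beq a e || Nat.beq b e || Nat.beq c e || Nat.beq d e ||
      (List.range 25).any fun i => okc u i && Nat.beq (nt u i a) b && Nat.beq (nt u i b) c &&
        Nat.beq (nt u i c) d && Nat.beq (nt u i d) e && Nat.beq (nt u i e) a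

/-- every cyclic order of the neighbours of `v` has a code -/
def ckC6 : Bool :=
  (nbs 0).all fun a => (nbs 0).all fun b => Nat.beq a b || (nbs 0).all fun c =>
    Nat.beq a c || Nat.beq b c || (nbs 0).all fun d =>
    Nat.beq a d || Nat.beq b d || Nat.beq c d || (nbs 0).all fun e =>
    Nat.beq a e || Nat.beq b e || Nat.beq c e || Nat.beq d e || (nbs 0).all fun f =>
    Nat.beq a f || Nat.beq b f || Nat.beq c f || Nat.beq d f || Nat.beq e f ||
      (List.range 121).any fun i => okc 0 i && Nat.beq (nt 0 i a) b && Nat.beq (nt 0 i b) c &&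
        Nat.beq (nt 0 i c) d && Nat.beq (nt 0 i d) e && Nat.beq (nt 0 i e) f &&
        Nat.beq (nt 0 i f) a

theorem ckC5_ok : ckC5 = true := by decide +kernel

theorem ckC6_ok : ckC6 = true := by decide +kernel

theorem mem_nbs {u v : ℕ} (h : ad u v = true) : v ∈ nbs u := by
  unfold nbs
  rw [List.mem_filter, List.mem_range]
  exact ⟨(ad_lt h).2, h⟩

theorem beq_ff {a b : ℕ} (h : a ≠ b) : Nat.beq a b = false := by
  rw [Bool.eq_false_iff, Ne, Nat.beq_eq]
  exact h

theorem code5 {u a b c d e : ℕ} (hu : u ≠ 0) (ha : ad u a = true)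
    (hb : ad u b = true) (hc : ad u c = true) (hd : ad u d = true) (he : ad u e = true)
    (h1 : a ≠ b) (h2 : a ≠ c) (h3 : a ≠ d) (h4 : b ≠ c) (h5 : b ≠ d) (h6 : c ≠ d)
    (h7 : a ≠ e) (h8 : b ≠ e) (h9 : c ≠ e) (h10 : d ≠ e) :
    ∃ i, okc u i = true ∧ nt u i a = b ∧ nt u i b = c ∧ nt u i c = d ∧ nt u i d = e ∧
      nt u i e = a := by
  have k := all_range ckC5_ok (ad_lt ha).1
  rw [beq_ff hu, Bool.false_or] at k
  have k1 := List.all_eq_true.1 (List.all_eq_true.1 k a (mem_nbs ha)) b (mem_nbs hb)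
  rw [beq_ff h1, Bool.false_or] at k1
  have k2 := List.all_eq_true.1 k1 c (mem_nbs hc)
  rw [beq_ff h2, beq_ff h4, Bool.false_or, Bool.false_or] at k2
  have k3 := List.all_eq_true.1 k2 d (mem_nbs hd)
  rw [beq_ff h3, beq_ff h5, beq_ff h6, Bool.false_or, Bool.false_or, Bool.false_or] at k3
  have k4 := List.all_eq_true.1 k3 e (mem_nbs he)
  rw [beq_ff h7, beq_ff h8, beq_ff h9, beq_ff h10, Bool.false_or, Bool.false_or, Bool.false_or,
    Bool.false_or, List.any_eq_true] at k4
  obtain ⟨i, -, k5⟩ := k4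
  simp only [Bool.and_eq_true, Nat.beq_eq] at k5
  obtain ⟨⟨⟨⟨⟨p1, p2⟩, p3⟩, p4⟩, p5⟩, p6⟩ := k5
  exact ⟨i, p1, p2, p3, p4, p5, p6⟩

theorem code6 {a b c d e f : ℕ} (ha : ad 0 a = true)
    (hb : ad 0 b = true) (hc : ad 0 c = true) (hd : ad 0 d = true) (he : ad 0 e = true)
    (hf : ad 0 f = true)
    (h1 : a ≠ b) (h2 : a ≠ c) (h3 : a ≠ d) (h4 : b ≠ c) (h5 : b ≠ d) (h6 : c ≠ d)
    (h7 : a ≠ e) (h8 : b ≠ e) (h9 : c ≠ e) (h10 : d ≠ e)
    (h11 : a ≠ f) (h12 : b ≠ f) (h13 : c ≠ f) (h14 : d ≠ f) (h15 : e ≠ f) :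
    ∃ i, okc 0 i = true ∧ nt 0 i a = b ∧ nt 0 i b = c ∧ nt 0 i c = d ∧ nt 0 i d = e ∧
      nt 0 i e = f ∧ nt 0 i f = a := by
  have k1 := List.all_eq_true.1 (List.all_eq_true.1 ckC6_ok a (mem_nbs ha)) b (mem_nbs hb)
  rw [beq_ff h1, Bool.false_or] at k1
  have k2 := List.all_eq_true.1 k1 c (mem_nbs hc)
  rw [beq_ff h2, beq_ff h4, Bool.false_or, Bool.false_or] at k2
  have k3 := List.all_eq_true.1 k2 d (mem_nbs hd)
  rw [beq_ff h3, beq_ff h5, beq_ff h6, Bool.false_or, Bool.false_or, Bool.false_or] at k3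
  have k4 := List.all_eq_true.1 k3 e (mem_nbs he)
  rw [beq_ff h7, beq_ff h8, beq_ff h9, beq_ff h10, Bool.false_or, Bool.false_or, Bool.false_or,
    Bool.false_or] at k4
  have k5 := List.all_eq_true.1 k4 f (mem_nbs hf)
  rw [beq_ff h11, beq_ff h12, beq_ff h13, beq_ff h14, beq_ff h15, Bool.false_or, Bool.false_or,
    Bool.false_or, Bool.false_or, Bool.false_or, List.any_eq_true] at k5
  obtain ⟨i, -, k6⟩ := k5
  simp only [Bool.and_eq_true, Nat.beq_eq] at k6
  obtain ⟨⟨⟨⟨⟨⟨p1, p2⟩, p3⟩, p4⟩, p5⟩, p6⟩, p7⟩ := k6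
  exact ⟨i, p1, p2, p3, p4, p5, p6, p7⟩

theorem card_nb : ∀ u : Fin 7, (K1222.neighborFinset u).card = dgr u.val := by decide

section cover

variable {W : Type*} [Finite W] {H : SimpleGraph W} {φ : W → Fin 7}

/-- the number of darts at a vertex -/
theorem card_darts (hφ : IsCover H K1222 φ) (v : W) :
    Nat.card {d : H.Dart // d.fst = v} = dgr (φ v).val := by
  have h1 : Nat.card {d : H.Dart // d.fst = v} = Nat.card (K1222.neighborSet (φ v)) := by
    refine Nat.card_congr (Equiv.ofBijective
      (fun d => (⟨φ d.1.snd, by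
        have := hφ.adj d.1.adj
        rw [d.2] at this
        exact this⟩ : K1222.neighborSet (φ v))) ⟨?_, ?_⟩)
    · rintro ⟨d, hd⟩ ⟨e, he⟩ h
      apply Subtype.ext
      have h2 : φ d.snd = φ e.snd := congrArg Subtype.val h
      refine hφ.dart_inj (hd.trans he.symm) ?_
      exact SimpleGraph.Dart.ext _ _ (Prod.ext (by
        show φ d.fst = φ e.fst
        rw [hd, he]) h2)
    · rintro ⟨w, hw⟩
      obtain ⟨y, hy, hyw⟩ := (hφ v).surjOn hw
      exact ⟨⟨⟨(v, y), hy⟩, rfl⟩, Subtype.ext hyw⟩
  rw [h1, Nat.card_eq_fintype_card, SimpleGraph.card_neighborSet_eq_degree,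
    SimpleGraph.degree, card_nb]

variable (hφ : IsCover H K1222 φ) (rot : Perm H.Dart)
  (hrot : ∀ x y, rot.SameCycle x y ↔ x.fst = y.fst)

include hrot in
theorem rot_fst (x : H.Dart) (i : ℕ) : (rot^[i] x).fst = x.fst := by
  refine ((hrot _ _).1 ?_)
  exact (show rot.SameCycle x (rot^[i] x) from
    ⟨i, by rw [zpow_natCast, Equiv.Perm.coe_pow]⟩).symm

include hφ hrot in
theorem per_dart (x : H.Dart) : Function.minimalPeriod rot x = dgr (φ x.fst).val := by
  rw [← card_sameCycle, ← card_darts hφ x.fst]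
  exact Nat.card_congr (Equiv.subtypeEquivRight fun y => by
    rw [hrot]
    exact eq_comm)

include hφ in
theorem dart_eq {x y : H.Dart} (h1 : x.fst = y.fst) (h2 : φ x.snd = φ y.snd) : x = y :=
  hφ.dart_inj h1 (SimpleGraph.Dart.ext _ _ (Prod.ext (congrArg φ h1) h2))

include hφ hrot in
/-- existence of the codes -/
theorem exists_code (v : W) : ∃ c, ∀ x : H.Dart, x.fst = v → okc (φ v).val c = true ∧
    (φ (rot x).snd).val = nt (φ v).val c (φ x.snd).val := by
  by_cases hx : ∃ x : H.Dart, x.fst = v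
  · obtain ⟨x, rfl⟩ := hx
    have hper := per_dart hφ rot hrot x
    have had : ∀ i, ad (φ x.fst).val (φ (rot^[i] x).snd).val = true := by
      intro i
      have := hφ.adj (rot^[i] x).adj
      rw [rot_fst rot hrot] at this
      exact adj_ad _ _ this
    have hne : ∀ i j, i < Function.minimalPeriod rot x → j < Function.minimalPeriod rot x →
        i ≠ j → (φ (rot^[i] x).snd).val ≠ (φ (rot^[j] x).snd).val := by
      intro i j hi hj hij h
      apply hij
      refine Function.iterate_injOn_Iio_minimalPeriod hi hj ?_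
      exact dart_eq hφ (by rw [rot_fst rot hrot, rot_fst rot hrot]) (Fin.ext h)
    have hback : rot^[Function.minimalPeriod rot x] x = x :=
      Function.isPeriodicPt_minimalPeriod _ _
    have hall : ∀ y : H.Dart, y.fst = x.fst → ∃ i < Function.minimalPeriod rot x,
        rot^[i] x = y := fun y hy => sameCycle_iterate rot ((hrot x y).2 hy.symm)
    by_cases hu : (φ x.fst).val = 0
    · have hd : Function.minimalPeriod rot x = 6 := by
        rw [hper, hu]
        rfl
      rw [hd] at hne hback hall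
      have had' : ∀ i, ad 0 (φ (rot^[i] x).snd).val = true := by
        intro i
        have := had i
        rwa [hu] at this
      obtain ⟨c, hc, p1, p2, p3, p4, p5, p6⟩ := code6 (had' 0) (had' 1) (had' 2) (had' 3)
        (had' 4) (had' 5)
        (hne 0 1 (by omega) (by omega) (by omega)) (hne 0 2 (by omega) (by omega) (by omega))
        (hne 0 3 (by omega) (by omega) (by omega)) (hne 1 2 (by omega) (by omega) (by omega))
        (hne 1 3 (by omega) (by omega) (by omega)) (hne 2 3 (by omega) (by omega) (by omega))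
        (hne 0 4 (by omega) (by omega) (by omega)) (hne 1 4 (by omega) (by omega) (by omega))
        (hne 2 4 (by omega) (by omega) (by omega)) (hne 3 4 (by omega) (by omega) (by omega))
        (hne 0 5 (by omega) (by omega) (by omega)) (hne 1 5 (by omega) (by omega) (by omega))
        (hne 2 5 (by omega) (by omega) (by omega)) (hne 3 5 (by omega) (by omega) (by omega))
        (hne 4 5 (by omega) (by omega) (by omega))
      refine ⟨c, fun y hy => ?_⟩
      rw [hu]
      refine ⟨hc, ?_⟩
      obtain ⟨i, hi, rfl⟩ := hall y hy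
      rw [← Function.iterate_succ_apply' rot]
      interval_cases i
      · exact p1.symm
      · exact p2.symm
      · exact p3.symm
      · exact p4.symm
      · exact p5.symm
      · rw [hback]
        exact p6.symm
    · have hd : Function.minimalPeriod rot x = 5 := by
        rw [hper]
        unfold dgr
        rw [beq_ff hu]
        rfl
      rw [hd] at hne hback hall
      obtain ⟨c, hc, p1, p2, p3, p4, p5⟩ := code5 hu (had 0) (had 1) (had 2) (had 3) (had 4)
        (hne 0 1 (by omega) (by omega) (by omega)) (hne 0 2 (by omega) (by omega) (by omega))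
        (hne 0 3 (by omega) (by omega) (by omega)) (hne 1 2 (by omega) (by omega) (by omega))
        (hne 1 3 (by omega) (by omega) (by omega)) (hne 2 3 (by omega) (by omega) (by omega))
        (hne 0 4 (by omega) (by omega) (by omega)) (hne 1 4 (by omega) (by omega) (by omega))
        (hne 2 4 (by omega) (by omega) (by omega)) (hne 3 4 (by omega) (by omega) (by omega))
      refine ⟨c, fun y hy => ⟨hc, ?_⟩⟩
      obtain ⟨i, hi, rfl⟩ := hall y hy
      rw [← Function.iterate_succ_apply' rot]
      interval_cases i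
      · exact p1.symm
      · exact p2.symm
      · exact p3.symm
      · exact p4.symm
      · rw [hback]
        exact p5.symm
  · exact ⟨0, fun x h => absurd ⟨x, h⟩ hx⟩

/-- the labelled map of a cover -/
noncomputable def ofCover : OMap H.Dart where
  rot := rot
  inv := flip H
  l := fun x => (φ x.fst).val
  cd := fun x => (exists_code hφ rot hrot x.fst).choose
  inv_inv := fun x => x.symm_symm
  inv_ne := fun x => SimpleGraph.Dart.symm_ne x
  l_rot := fun x => by
    rw [show (rot x).fst = x.fst from rot_fst rot hrot x 1]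
  cd_rot := fun x => by
    rw [show (rot x).fst = x.fst from rot_fst rot hrot x 1]
  adj := fun x => adj_ad _ _ (hφ.adj x.adj)
  cd_ok := fun x => ((exists_code hφ rot hrot x.fst).choose_spec x rfl).1
  nx := fun x => ((exists_code hφ rot hrot x.fst).choose_spec x rfl).2
  inj := fun x i h => dart_eq hφ (rot_fst rot hrot x i) (Fin.ext h)

end cover

/-- the automorphism which exchanges the two circles -/
def swp (u : Fin 7) : Fin 7 := ([0, 2, 1, 4, 3, 6, 5] : List (Fin 7)).getD u.val 0

theorem swp_adj : ∀ u v : Fin 7, K1222.Adj u v ↔ K1222.Adj (swp u) (swp v) := by decide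

theorem swp_inj : ∀ u v : Fin 7, swp u = swp v → u = v := by decide

theorem swp_surj : ∀ u : Fin 7, ∃ v, swp v = u := by decide

theorem swp_ci : ∀ u v : Fin 7, ci (swp u).val (swp v).val = ci u.val v.val := by decide

theorem swp_tz : ∀ u : Fin 7, u.val ≠ 0 → tz u.val = false → tz (swp u).val = true := by decide

theorem swp_zero : ∀ u : Fin 7, (swp u).val = 0 ↔ u.val = 0 := by decide

theorem swp_cover {W : Type*} {H : SimpleGraph W} {φ : W → Fin 7} (hφ : IsCover H K1222 φ) :
    IsCover H K1222 (fun w => swp (φ w)) := by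
  intro v
  have h1 : Set.BijOn swp (K1222.neighborSet (φ v)) (K1222.neighborSet (swp (φ v))) := by
    refine ⟨fun u hu => (swp_adj _ _).1 hu, fun u _ w _ h => swp_inj _ _ h, fun w hw => ?_⟩
    obtain ⟨u, rfl⟩ := swp_surj w
    exact ⟨u, (swp_adj _ _).2 hw, rfl⟩
  exact h1.comp (hφ v)

end Crc.Oct

end Pool.Agent.Lib.MP_5854e1_co
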