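import Pool.Agent.Lib.MP_5854e1_co.Crc.OState

/-!
# Maps labelled by `K_{1,2,2,2}`: facial triangles and the codes at both ends of an edge
-/

set_option autoImplicit false

open Equiv Equiv.Perm

namespace Pool.Agent.Lib.MP_5854e1_co.Crc.Oct

namespace OMap

variable {D : Type*} (K : OMap D)

theorem nt_ne (x : D) : nt (K.l x) (K.cd x) (K.r x) ≠ K.r x := by
  have k := fct_use f_deg (K.cd_ok x) (K.ad_lr x)
  simp only [Bool.and_eq_true] at k
  exact ne_of_nbeq k.1.1.1.1

theorem l_ne_r (x : D) : K.l x ≠ K.r x := by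
  have k := fct_use f_ad (K.cd_ok x) (K.ad_lr x)
  simp only [Bool.and_eq_true] at k
  exact ne_of_nbeq k.2

/-- the face of `x` stays in the labels `p, q, t`: the codes at both ends of `x` -/
theorem face_codes {x : D} {p q t : ℕ} (hp : K.l x = p) (hq : K.r x = q)
    (h : ∀ y, K.cm.fc.SameCycle x y → (K.l y = p ∨ K.l y = q ∨ K.l y = t) ∧
      (K.r y = p ∨ K.r y = q ∨ K.r y = t)) :
    nt q (K.cd (K.inv x)) p = t ∧ nt p (K.cd x) t = q := by
  constructor
  · have h1 := (h (K.cm.fc x) ⟨1, by simp⟩).2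
    have h2 := K.r_fc x
    rw [hp, hq] at h2
    have h3 : nt q (K.cd (K.inv x)) p ≠ p := by
      have := K.nt_ne (K.inv x)
      rw [K.l_inv, K.r_inv, hp, hq] at this
      exact this
    have h4 : K.r (K.cm.fc x) ≠ q := by
      have := K.l_ne_r (K.cm.fc x)
      rw [K.l_fc, hq] at this
      exact this.symm
    rw [h2] at h1 h4
    rcases h1 with h1 | h1 | h1
    · exact absurd h1 h3
    · exact absurd h1 h4
    · exact h1
  · obtain ⟨y, hy⟩ : ∃ y, K.cm.fc y = x := ⟨K.cm.fc.symm x, by simp⟩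
    have hs : K.cm.fc.SameCycle x y := by
      refine SameCycle.symm ⟨1, ?_⟩
      rw [zpow_one]
      exact hy
    have h1 := (h y hs).1
    have h2 : K.r y = p := by
      rw [← K.l_fc, hy, hp]
    have h3 : K.cd (K.inv y) = K.cd x := by
      rw [← K.cd_fc, hy]
    have h4 : nt p (K.cd x) (K.l y) = q := by
      have := K.r_fc y
      rw [hy, hq, h2, h3] at this
      exact this.symm
    have h5 : K.l y ≠ p := by
      have := K.l_ne_r y
      rw [h2] at this
      exact this
    have h6 : K.l y ≠ q := by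
      intro h7
      have h8 := K.nt_ne (K.inv y)
      rw [K.l_inv, K.r_inv, h2, h3, h4, h7] at h8
      exact h8 rfl
    rcases h1 with h1 | h1 | h1
    · exact absurd h1 h5
    · exact absurd h1 h6
    · rw [h1] at h4
      exact h4

/-- the same for the face of `inv x` -/
theorem face_codes_inv {x : D} {p q t : ℕ} (hp : K.l x = p) (hq : K.r x = q)
    (h : ∀ y, K.cm.fc.SameCycle (K.inv x) y → (K.l y = p ∨ K.l y = q ∨ K.l y = t) ∧
      (K.r y = p ∨ K.r y = q ∨ K.r y = t)) :
    nt p (K.cd x) q = t ∧ nt q (K.cd (K.inv x)) t = p := by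
  have h1 := K.face_codes (x := K.inv x) (p := q) (q := p) (t := t) (by rw [K.l_inv, hq])
    (by rw [K.r_inv, hp]) (fun y hy => by
      obtain ⟨h2, h3⟩ := h y hy
      refine ⟨?_, ?_⟩
      · rcases h2 with h2 | h2 | h2
        · exact Or.inr (Or.inl h2)
        · exact Or.inl h2
        · exact Or.inr (Or.inr h2)
      · rcases h3 with h3 | h3 | h3
        · exact Or.inr (Or.inl h3)
        · exact Or.inl h3
        · exact Or.inr (Or.inr h3))
  rw [K.inv_inv] at h1
  exact h1

/-- both cases -/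
theorem facial_codes {x : D} {p q t : ℕ} (hp : K.l x = p) (hq : K.r x = q)
    (h : (∀ y, K.cm.fc.SameCycle x y → (K.l y = p ∨ K.l y = q ∨ K.l y = t) ∧
        (K.r y = p ∨ K.r y = q ∨ K.r y = t)) ∨
      (∀ y, K.cm.fc.SameCycle (K.inv x) y → (K.l y = p ∨ K.l y = q ∨ K.l y = t) ∧
        (K.r y = p ∨ K.r y = q ∨ K.r y = t))) :
    (nt q (K.cd (K.inv x)) p = t ∧ nt p (K.cd x) t = q) ∨
      (nt p (K.cd x) q = t ∧ nt q (K.cd (K.inv x)) t = p) := by
  rcases h with h | h
  · exact Or.inl (K.face_codes hp hq h)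
  · exact Or.inr (K.face_codes_inv hp hq h)

end OMap

end Pool.Agent.Lib.MP_5854e1_co.Crc.Oct
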