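import Pool.Agent.Lib.MP_5854e1_co.Crc.OLoc

/-!
# Maps labelled by `K_{1,2,2,2}`: the hypotheses of the circle method
-/

set_option autoImplicit false

open Equiv Equiv.Perm

namespace Pool.Agent.Lib.MP_5854e1_co.Crc.Oct

/-- one for edges which are not on circles -/
def nci (u v : ℕ) : ℕ := if ci u v then 0 else 1

/-- the number of the first five darts of the vertex which are not on circles -/
def ncn (u i v : ℕ) : ℕ := nci u v + nci u (nt u i v) + nci u (nt u i (nt u i v)) +
  nci u (nt u i (nt u i (nt u i v))) + nci u (nt u i (nt u i (nt u i (nt u i v))))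

private theorem g4 : fct (fun u i v =>
    if Nat.beq u 0 then
      Nat.beq (ncn u i v + nci u (nt u i (nt u i (nt u i (nt u i (nt u i v)))))) 6
    else Nat.beq (ncn u i v) 3) = true := by decide +kernel

namespace OMap

variable {D : Type*} (K : OMap D)

/-- weight of the nodes -/
noncomputable def om (x : D) : ℚ := if K.l x = 0 then 1 / 6 else 0

theorem l_th (x : D) : K.l (K.cm.th x) = 0 ↔ K.l x = 0 := by
  by_cases h : K.c x
  · rw [K.th_c h, K.l_rot]
    exact ⟨fun h0 => absurd h0 (K.c_ne ((K.c_inv x).2 h)), fun h0 => absurd h0 (K.c_ne h)⟩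
  · rw [K.th_n h, K.l_rot]

theorem tz_th {x : D} : tz (K.l (K.cm.th x)) = tz (K.l x) := by
  by_cases h : K.c x
  · rw [K.th_c h, K.l_rot]
    exact ((K.c_oc h).2.2.2.2.2.1).symm
  · rw [K.th_n h, K.l_rot]

variable [Fintype D] [DecidableEq D]

omit [DecidableEq D] in
theorem l0_same {x y : D} (h : K.cm.th.SameCycle x y) : K.l x = 0 ↔ K.l y = 0 :=
  inv_same (R := fun x => K.l x = 0) K.l_th h

omit [DecidableEq D] in
theorem tz_same {x y : D} (h : K.cm.th.SameCycle x y) : tz (K.l x) = tz (K.l y) := by
  have := inv_same (R := fun z => tz (K.l z) = tz (K.l x)) (fun z => by rw [K.tz_th]) h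
  exact (this.1 rfl).symm

omit [DecidableEq D] in
theorem good : K.cm.Good K.om where
  node := by
    intro x hx
    have h8 : K.l x = 0 := by
      by_contra h3
      exact hx (K.f x) (K.f_same h3) (K.f_is h3).1
    have hxn : ¬ K.c x := hx x (SameCycle.refl _ _)
    refine ⟨?_, fun h => hxn (h x (SameCycle.refl _ _))⟩
    have hl : ∀ y, K.cm.th.SameCycle x y → K.l y = 0 := fun y hy => (K.l0_same hy).1 h8
    have hit : ∀ i, (K.cm.th)^[i] x = (K.rot)^[i] x := by
      intro i
      induction i with
      | zero => rfl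
      | succ i ih =>
        rw [Function.iterate_succ_apply', Function.iterate_succ_apply', ← ih]
        exact K.th_n (hx _ ⟨i, by rw [zpow_natCast, Equiv.Perm.coe_pow]⟩)
    have hper : Function.minimalPeriod K.cm.th x = 6 := by
      have h4 : Function.minimalPeriod K.rot x = 6 := by
        rw [K.per_rot, h8]
        rfl
      rw [← h4]
      apply Nat.dvd_antisymm
      · apply Function.IsPeriodicPt.minimalPeriod_dvd
        show (K.cm.th)^[_] x = x
        rw [hit]
        exact Function.isPeriodicPt_minimalPeriod _ _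
      · apply Function.IsPeriodicPt.minimalPeriod_dvd
        show (K.rot)^[_] x = x
        rw [← hit]
        exact Function.isPeriodicPt_minimalPeriod _ _
    have h1 : ∀ y ∈ cl K.cm.th x, K.om y = 1 / 6 := fun y hy => by
      unfold om
      rw [if_pos (hl y (mem_cl.1 hy))]
    rw [Finset.sum_congr rfl h1, Finset.sum_const, card_cl, hper]
    norm_num
  circ := by
    intro x hx y hy
    refine ⟨fun h => h, ?_⟩
    unfold om
    rw [if_neg (fun h => K.c_ne hx ((K.l0_same hy).2 h))]
  same := by
    intro x y hx hy hxy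
    have hx : K.c x := hx
    have hy : K.c y := hy
    obtain ⟨i, -, hi⟩ := sameCycle_iterate K.cm.th hxy
    have key : ∀ i, K.cm.th.SameCycle (K.inv (K.f ((K.cm.th)^[i] x))) (K.inv x) := by
      intro i
      induction i with
      | zero =>
        show K.cm.th.SameCycle (K.inv (K.f x)) (K.inv x)
        rw [K.f_c hx]
      | succ i ih =>
        rw [Function.iterate_succ_apply']
        have hlt : K.l ((K.cm.th)^[i] x) ≠ 0 := fun h0 => K.c_ne hx
          ((K.l0_same (show K.cm.th.SameCycle x ((K.cm.th)^[i] x) from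
            ⟨i, by rw [zpow_natCast, Equiv.Perm.coe_pow]⟩)).2 h0)
        by_cases h : K.c ((K.cm.th)^[i] x)
        · rw [K.th_c h]
          rw [K.f_c h] at ih
          exact (K.inv_o_same ((K.c_inv _).2 h)).trans ih
        · rw [K.th_n h, K.f_n h hlt]
          exact ih
    have h1 := key i
    rw [hi, K.f_c hy] at h1
    exact h1.symm
  port := by
    rintro x hx ⟨h1, h2⟩
    have hx : K.c x := hx
    have hix : K.c (K.inv x) := (K.c_inv x).2 hx
    have e1 : K.c (K.rot (K.inv x)) := by
      rw [← K.th_c hx]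
      exact h1 _ (K.same_step x)
    have e2 : K.o (K.inv x) = K.rot (K.inv x) := K.f_c e1
    have e3 := K.inv_o_same hix
    rw [e2] at e3
    have e4 : K.cm.th (K.inv (K.rot (K.inv x))) = K.rot (K.rot (K.inv x)) := by
      rw [K.th_c ((K.c_inv _).2 e1), K.inv_inv]
    have e5 : K.c (K.rot (K.rot (K.inv x))) := by
      rw [← e4]
      exact h2 _ (e3.symm.trans (K.same_step _))
    have k := fct_use f_leaf (K.cd_ok (K.inv x)) (K.ad_lr (K.inv x))
    have a1 : ci (K.l (K.inv x)) (K.r (K.inv x)) = true := hix
    have a2 : ci (K.l (K.inv x)) (nt (K.l (K.inv x)) (K.cd (K.inv x)) (K.r (K.inv x))) = true := by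
      unfold c at e1
      rwa [K.l_rot, K.r_rot] at e1
    have a3 : ci (K.l (K.inv x)) (nt (K.l (K.inv x)) (K.cd (K.inv x))
        (nt (K.l (K.inv x)) (K.cd (K.inv x)) (K.r (K.inv x)))) = true := by
      unfold c at e5
      rwa [K.r_rot, K.l_rot, K.l_rot, K.cd_rot, K.r_rot] at e5
    rw [a1, a2, a3] at k
    simp only [Bool.not_true, Bool.false_or, Bool.and_false] at k
    exact absurd k (by decide)

open Classical in
/-- the count -/
theorem count [Nonempty D] (hpl : defect K.rot K.inv = 0) :
    ∑ x, ((if K.cm.F x then 0 else 1 / 2) - K.om x) < (cyc K.cm.fc : ℚ) := by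
  have horb : (1 : ℤ) ≤ orb K.rot K.inv := by
    have : 0 < orb K.rot K.inv := by
      unfold orb ncl
      obtain ⟨x⟩ := ‹Nonempty D›
      have : Nonempty (Quot fun x y => K.rot x = y ∨ K.inv x = y) := ⟨Quot.mk _ x⟩
      exact Nat.card_pos
    exact_mod_cast this
  have hinv : (cyc K.inv : ℚ) = ∑ _x : D, (1 / 2 : ℚ) := by
    rw [cyc_eq_vv]
    refine Finset.sum_congr rfl fun x _ => ?_
    unfold vv
    have h2 : Function.minimalPeriod K.inv x = 2 := by
      have hd : Function.minimalPeriod K.inv x ∣ 2 :=
        Function.IsPeriodicPt.minimalPeriod_dvd (K.inv_inv x)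
      rcases (Nat.dvd_prime Nat.prime_two).1 hd with h | h
      · exfalso
        exact K.inv_ne x (Function.minimalPeriod_eq_one_iff_isFixedPt.1 h)
      · exact h
    rw [h2]
    norm_num
  have hcard : (Nat.card D : ℚ) = ∑ _x : D, (1 : ℚ) := by
    rw [Nat.card_eq_fintype_card]
    simp
  have h1 : (cyc K.rot : ℚ) + cyc K.inv + cyc K.cm.fc - Nat.card D - 2 * orb K.rot K.inv = 0 := by
    unfold defect at hpl
    have h2 : (((cyc K.rot : ℤ) + cyc K.inv + cyc (K.rot * K.inv) - Nat.card D -
      2 * orb K.rot K.inv : ℤ) : ℚ) = 0 := by exact_mod_cast hpl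
    push_cast at h2
    exact h2
  have hzero : ∑ x, ((1 / 2 - vv K.rot x) - ((if K.cm.F x then 0 else 1 / 2) - K.om x)) = 0 := by
    have h2 := sum_avg K.rot (fun _ => True) (fun _ => Iff.rfl)
      (fun x => ((1 / 2 - vv K.rot x) - ((if K.cm.F x then 0 else 1 / 2) - K.om x)))
    simp only [Finset.filter_true] at h2
    rw [h2]
    refine Finset.sum_eq_zero fun x _ => ?_
    have h3 : ∑ y ∈ cl K.rot x, ((1 / 2 - vv K.rot y) - ((if K.cm.F y then 0 else 1 / 2) -
        K.om y)) = 0 := by
      have h4 : ∀ f : D → ℚ, ∑ y ∈ cl K.rot x, f y =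
          ∑ i ∈ Finset.range (Function.minimalPeriod K.rot x), f (K.rot^[i] x) := by
        intro f
        rw [sum_range_period]
        refine Finset.sum_congr ?_ fun _ _ => rfl
        ext y
        simp [cl]
      rw [h4, K.per_rot]
      have hv : ∀ i, vv K.rot (K.rot^[i] x) = 1 / (dgr (K.l x) : ℚ) := by
        intro i
        unfold vv
        rw [K.per_rot, (K.r_iter x i).2.1]
      have hF : ∀ i, ((if K.cm.F (K.rot^[i] x) then 0 else 1 / 2 : ℚ)) =
          (nci (K.l x) ((nt (K.l x) (K.cd x))^[i] (K.r x)) : ℚ) / 2 := by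
        intro i
        have : K.cm.F (K.rot^[i] x) ↔
            ci (K.l x) ((nt (K.l x) (K.cd x))^[i] (K.r x)) = true := by
          show K.c _ ↔ _
          unfold c
          rw [(K.r_iter x i).1, (K.r_iter x i).2.1]
        unfold nci
        by_cases h : K.cm.F (K.rot^[i] x)
        · rw [if_pos h, if_pos (this.1 h)]
          norm_num
        · rw [if_neg h, if_neg (fun h' => h (this.2 h'))]
          norm_num
      have ho : ∀ i, K.om (K.rot^[i] x) = K.om x := by
        intro i
        unfold om
        rw [(K.r_iter x i).2.1]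
      have k := fct_use g4 (K.cd_ok x) (K.ad_lr x)
      unfold ncn at k
      simp only [hv, hF, ho]
      by_cases c1 : Nat.beq (K.l x) 0 = true
      · rw [if_pos c1, Nat.beq_eq] at k
        have hd : dgr (K.l x) = 6 := by
          unfold dgr
          rw [if_pos c1]
        have hom : K.om x = 1 / 6 := by
          unfold om
          rw [if_pos (Nat.beq_eq.symm ▸ c1 : K.l x = 0)]
        rw [hd, hom]
        simp only [Finset.sum_range_succ, Finset.sum_range_zero, Function.iterate_succ,
          Function.iterate_zero, Function.comp_apply, id_eq]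
        have k' := congrArg (Nat.cast (R := ℚ)) k
        simp only [Nat.cast_add, Nat.cast_ofNat, Nat.cast_one] at k' ⊢
        linarith
      · rw [if_neg c1, Nat.beq_eq] at k
        have hd : dgr (K.l x) = 5 := by
          unfold dgr
          rw [if_neg c1]
        have hom : K.om x = 0 := by
          unfold om
          rw [if_neg (fun h => c1 (Nat.beq_eq.symm ▸ h : Nat.beq (K.l x) 0 = true))]
        rw [hd, hom]
        simp only [Finset.sum_range_succ, Finset.sum_range_zero, Function.iterate_succ,
          Function.iterate_zero, Function.comp_apply, id_eq]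
        have k' := congrArg (Nat.cast (R := ℚ)) k
        simp only [Nat.cast_add, Nat.cast_ofNat, Nat.cast_one] at k' ⊢
        linarith
    rw [h3, mul_zero]
  rw [Finset.sum_sub_distrib, Finset.sum_sub_distrib, ← cyc_eq_vv, ← hinv] at hzero
  have hhalf : (Nat.card D : ℚ) = 2 * cyc K.inv := by
    rw [hcard, hinv, Finset.mul_sum]
    refine Finset.sum_congr rfl fun _ _ => ?_
    norm_num
  have horb' : (1 : ℚ) ≤ orb K.rot K.inv := by exact_mod_cast horb
  linarith

end OMap

end Pool.Agent.Lib.MP_5854e1_co.Crc.Oct
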