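import Mathlib

/-!
# The circle method for `K_{1,2,2,2}`: labels and rotations

Labels: `v = 0`; the parts are `{1, 2}`, `{3, 4}`, `{5, 6}`.  The contracted circles are the lifts
of the triangles `1 3 5` and `2 4 6`.  A rotation at a vertex is given by a code (`1, ..., 120` for
`v`, `1, ..., 24` for the other labels).
-/

set_option autoImplicit false

namespace Pool.Agent.Lib.MP_5854e1_co.Crc.Oct

/-- the rotations: in block `i` (28 bits) the hexadecimal digit `l` is the label after `l` -/
def rtN : List ℕ :=
  [0x5432160542136053241605312460523146052143604352160425136042351604132560432156041253603425160321546032541603124560341256031524602431560231456023514602135460241536021543604632150462135036241503612450263145026143503462150246135024361501432650342165014263504326150231645023641501324650431265013624504231650321465032614501236450421635012643505362140526134032651403162540236154021653403652140265134023561401352640325164012563405236140213654026351401235640513264016325405321640312564036215401326540512634016253405426130521643042561304126530241653021564304625130261543024651301425630421563012654305264130216453026541301254630512463016245305412630415263046125301462530516243016524305431620531462043516204135620341562031546204631520361452034615201436520431652013645205361420316542036514201356420513642016354205416320415632046153201465320516432016543200000000,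
   0x5430006530400643500064035006340500630540064630005360400534600050436005430600503640055360004306500436500040356004503600406350045406003405600346050030465003506400306540030000000,
   0x5430006530400643500064035006340500630540064630005360400534600050436005430600503640055360004306500436500040356004503600406350045406003405600346050030465003506400306540030000000,
   0x5200106510002621005062000156120005610005262600105160002512006050200165210006501006255100602100065216005020100562500016206001525200061200056126000510200651500062106005210000000,
   0x5200106510002621005062000156120005610005262600105160002512006050200165210006501006255100602100065216005020100562500016206001525200061200056126000510200651500062106005210000000,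
   0x32104003102400213040020134001203400103240024103001402300124030002143002104300014230031402001043200143020001342003014200041320032041002034100240310002431003042100043210000000,
   0x32104003102400213040020134001203400103240024103001402300124030002143002104300014230031402001043200143020001342003014200041320032041002034100240310002431003042100043210000000]

/-- the label after `l` in the rotation `i` of a vertex with label `u` -/
def nt (u i l : ℕ) : ℕ := (rtN.getD u 0 >>> (28 * i + 4 * l)) &&& 15

/-- adjacency of the labels -/
def ad (u v : ℕ) : Bool := Nat.blt u 7 && Nat.blt v 7 && !Nat.beq ((u + 1) / 2) ((v + 1) / 2)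

/-- circle edges -/
def ci (u v : ℕ) : Bool :=
  Nat.blt 0 u && Nat.blt 0 v && ad u v && Nat.beq ((u + v) % 2) 0

/-- the labels on the first circle -/
def tz (u : ℕ) : Bool := Nat.beq (u % 2) 1

/-- the edges from `v` to the second circle -/
def qd (u v : ℕ) : Bool :=
  (Nat.beq u 0 && Nat.blt 0 v && !tz v) || (Nat.beq v 0 && Nat.blt 0 u && !tz u)

/-- codes of rotations -/
def okc (u i : ℕ) : Bool := Nat.ble 1 i && Nat.ble i (if Nat.beq u 0 then 120 else 24)

/-- the third label of the circle -/
def oc (u v : ℕ) : ℕ := (if tz u then 9 else 12) - u - v

/-- the degree of a label -/
def dgr (u : ℕ) : ℕ := if Nat.beq u 0 then 6 else 5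

/-- the number of steps to the next circle dart -/
def stp (u i v : ℕ) : ℕ :=
  if ci u v then 0 else if ci u (nt u i v) then 1 else if ci u (nt u i (nt u i v)) then 2 else 3

/-- the two circle darts are consecutive -/
def leafw (u i : ℕ) : Bool :=
  (List.range 7).any fun v => ci u v && ci u (nt u i v)

/-- a check over all labels `u`, codes `i` and neighbours `v` -/
def fct (p : ℕ → ℕ → ℕ → Bool) : Bool :=
  (List.range 7).all fun u => (List.range 121).all fun i => !okc u i ||
    (List.range 7).all fun v => !ad u v || p u i v

theorem all_range {n : ℕ} {p : ℕ → Bool} (h : (List.range n).all p = true) {i : ℕ} (hi : i < n) :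
    p i = true := List.all_eq_true.1 h i (List.mem_range.2 hi)

theorem ad_lt {u v : ℕ} (h : ad u v = true) : u < 7 ∧ v < 7 := by
  unfold ad at h
  simp only [Bool.and_eq_true, Nat.blt_eq] at h
  exact h.1

theorem okc_lt {u i : ℕ} (h : okc u i = true) : i < 121 := by
  unfold okc at h
  rw [Bool.and_eq_true, Nat.ble_eq, Nat.ble_eq] at h
  have : (if Nat.beq u 0 = true then 120 else 24) ≤ 120 := by split_ifs <;> omega
  omega

theorem okc_pos {u i : ℕ} (h : okc u i = true) : i ≠ 0 := by
  unfold okc at h
  rw [Bool.and_eq_true, Nat.ble_eq, Nat.ble_eq] at h
  omega

theorem fct_use {p : ℕ → ℕ → ℕ → Bool} (h : fct p = true) {u i v : ℕ} (h1 : okc u i = true)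
    (h2 : ad u v = true) : p u i v = true := by
  obtain ⟨hu, hv⟩ := ad_lt h2
  have k := all_range (all_range h hu) (okc_lt h1)
  rw [h1, Bool.not_true, Bool.false_or] at k
  have k2 := all_range k hv
  rw [h2, Bool.not_true, Bool.false_or] at k2
  exact k2

/-- the label at a digit and its adjacency -/
theorem f_ad : fct (fun u i v => ad u (nt u i v) && ad v u && !Nat.beq u v) = true := by
  decide +kernel

/-- the length of the rotation -/
theorem f_deg : fct (fun u i v => !Nat.beq (nt u i v) v && !Nat.beq (nt u i (nt u i v)) v &&
    !Nat.beq (nt u i (nt u i (nt u i v))) v && !Nat.beq (nt u i (nt u i (nt u i (nt u i v)))) v &&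
    (if Nat.beq u 0 then !Nat.beq (nt u i (nt u i (nt u i (nt u i (nt u i v))))) v &&
      Nat.beq (nt u i (nt u i (nt u i (nt u i (nt u i (nt u i v)))))) v
    else Nat.beq (nt u i (nt u i (nt u i (nt u i (nt u i v))))) v)) = true := by decide +kernel

/-- the next circle dart -/
theorem f_stp : fct (fun u i v => Nat.beq u 0 ||
    (ci u ((nt u i)^[stp u i v] v) && (ci u v || Nat.beq (stp u i v) (stp u i (nt u i v) + 1)))) =
    true := by decide +kernel

/-- the other circle dart -/
theorem f_oc : fct (fun u i v => !ci u v || (ci u (oc u v) && Nat.beq (oc u (oc u v)) v &&
    !Nat.beq (oc u v) v && Nat.blt 0 u && Nat.blt 0 v && (tz u == tz v) && ci v u &&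
    Nat.beq ((nt u i)^[stp u i (nt u i v) + 1] v) (oc u v) && Nat.beq (oc v u) (oc u v) &&
    !ci u 0)) = true := by
  decide +kernel

/-- the window of a leaf circle -/
theorem f_leaf : fct (fun u i v => !ci u v || !ci u (nt u i v) ||
    (Nat.beq (nt u i v) (oc u v) && leafw u i && Nat.beq (oc u (oc u v)) v &&
    !ci u (nt u i (nt u i v)))) = true := by
  decide +kernel

end Pool.Agent.Lib.MP_5854e1_co.Crc.Oct
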