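import Pool.Agent.Lib.MP_5854e1_co.Crc.RegionThm
import Pool.Agent.Lib.MP_5854e1_co.Crc.OTab

/-!
# Maps labelled by `K_{1,2,2,2}`: local structure
-/

set_option autoImplicit false

open Equiv Equiv.Perm

namespace Pool.Agent.Lib.MP_5854e1_co.Crc.Oct

theorem ne_of_nbeq {a b : ℕ} (h : (!Nat.beq a b) = true) : a ≠ b := by
  rintro rfl
  rw [Nat.beq_refl] at h
  exact absurd h (by decide)

/-- a map whose darts are labelled like a cover of `K_{1,2,2,2}` -/
structure OMap (D : Type*) where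
  /-- next dart at the vertex -/
  rot : Perm D
  /-- the other dart of the edge -/
  inv : Perm D
  /-- label of the vertex -/
  l : D → ℕ
  /-- code of the rotation at the vertex -/
  cd : D → ℕ
  inv_inv : ∀ x, inv (inv x) = x
  inv_ne : ∀ x, inv x ≠ x
  l_rot : ∀ x, l (rot x) = l x
  cd_rot : ∀ x, cd (rot x) = cd x
  adj : ∀ x, ad (l x) (l (inv x)) = true
  cd_ok : ∀ x, okc (l x) (cd x) = true
  nx : ∀ x, l (inv (rot x)) = nt (l x) (cd x) (l (inv x))
  inj : ∀ x i, l (inv (rot^[i] x)) = l (inv x) → rot^[i] x = x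

namespace OMap

variable {D : Type*} (K : OMap D)

/-- label of the other end -/
def r (x : D) : ℕ := K.l (K.inv x)

theorem r_inv (x : D) : K.r (K.inv x) = K.l x := by rw [r, K.inv_inv]

theorem l_inv (x : D) : K.l (K.inv x) = K.r x := rfl

theorem r_rot (x : D) : K.r (K.rot x) = nt (K.l x) (K.cd x) (K.r x) := K.nx x

theorem ad_lr (x : D) : ad (K.l x) (K.r x) = true := K.adj x

theorem ad_rl (x : D) : ad (K.r x) (K.l x) = true := by
  have := K.ad_lr (K.inv x)
  rwa [K.r_inv] at this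

theorem l_lt (x : D) : K.l x < 7 := (ad_lt (K.ad_lr x)).1

theorem r_lt (x : D) : K.r x < 7 := (ad_lt (K.ad_lr x)).2

theorem cd_lt (x : D) : K.cd x < 121 := okc_lt (K.cd_ok x)

theorem cd_ne (x : D) : K.cd x ≠ 0 := okc_pos (K.cd_ok x)

/-- labels along the rotation -/
theorem r_iter (x : D) (i : ℕ) : K.r (K.rot^[i] x) = (nt (K.l x) (K.cd x))^[i] (K.r x) ∧
    K.l (K.rot^[i] x) = K.l x ∧ K.cd (K.rot^[i] x) = K.cd x := by
  induction i with
  | zero => exact ⟨rfl, rfl, rfl⟩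
  | succ i ih =>
    rw [Function.iterate_succ_apply', K.r_rot, K.l_rot, K.cd_rot, ih.1, ih.2.1, ih.2.2,
      Function.iterate_succ_apply']
    exact ⟨rfl, rfl, rfl⟩

/-- circle darts -/
def c (x : D) : Prop := ci (K.l x) (K.r x) = true

theorem c_oc {x : D} (h : K.c x) : ci (K.l x) (oc (K.l x) (K.r x)) = true ∧
    oc (K.l x) (oc (K.l x) (K.r x)) = K.r x ∧ oc (K.l x) (K.r x) ≠ K.r x ∧ 0 < K.l x ∧
    0 < K.r x ∧ tz (K.l x) = tz (K.r x) ∧ ci (K.r x) (K.l x) = true ∧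
    (nt (K.l x) (K.cd x))^[stp (K.l x) (K.cd x) (nt (K.l x) (K.cd x) (K.r x)) + 1] (K.r x) =
      oc (K.l x) (K.r x) ∧ oc (K.r x) (K.l x) = oc (K.l x) (K.r x) := by
  have k := fct_use f_oc (K.cd_ok x) (K.ad_lr x)
  have e0 : ci (K.l x) (K.r x) = true := h
  rw [e0, Bool.not_true, Bool.false_or] at k
  simp only [Bool.and_eq_true, Nat.beq_eq, Nat.blt_eq, beq_iff_eq, Bool.not_eq_true'] at k
  obtain ⟨⟨⟨⟨⟨⟨⟨⟨⟨k1, k2⟩, k3⟩, k4⟩, k5⟩, k6⟩, k7⟩, k8⟩, k9⟩, -⟩ := k
  refine ⟨k1, k2, ?_, k4, k5, k6, k7, k8, k9⟩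
  intro h
  rw [h, Nat.beq_refl] at k3
  exact absurd k3 (by decide)

theorem c_inv (x : D) : K.c (K.inv x) ↔ K.c x := by
  constructor
  · intro h
    have := (K.c_oc h).2.2.2.2.2.2.1
    rw [K.r_inv, K.l_inv] at this
    exact this
  · intro h
    have := (K.c_oc h).2.2.2.2.2.2.1
    show ci (K.l (K.inv x)) (K.r (K.inv x)) = true
    rw [K.r_inv, K.l_inv]
    exact this

/-- the map with contracted circles -/
def cm : CMap D where
  rot := K.rot
  inv := K.inv
  F := K.c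
  c := K.c
  inv_inv := K.inv_inv
  inv_ne := K.inv_ne
  F_inv := K.c_inv
  c_inv := K.c_inv
  c_F := fun _ h => h

theorem th_c {x : D} (h : K.c x) : K.cm.th x = K.rot (K.inv x) := K.cm.th_F h

theorem th_n {x : D} (h : ¬ K.c x) : K.cm.th x = K.rot x := K.cm.th_nF h

theorem l_pos {x : D} (h : K.c x) : 0 < K.l x := (K.c_oc h).2.2.2.1

theorem c_ne {x : D} (h : K.c x) : K.l x ≠ 0 := (K.l_pos h).ne'

/-- the first circle dart from `x` on -/
def f (x : D) : D := K.rot^[stp (K.l x) (K.cd x) (K.r x)] x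

theorem f_c {x : D} (h : K.c x) : K.f x = x := by
  have e0 : ci (K.l x) (K.r x) = true := h
  unfold f stp
  rw [if_pos e0]
  rfl

theorem f_n {x : D} (h : ¬ K.c x) (hx : K.l x ≠ 0) : K.f (K.rot x) = K.f x := by
  have e0 : ci (K.l x) (K.r x) = false := by simpa [c] using h
  have k := fct_use f_stp (K.cd_ok x) (K.ad_lr x)
  have e1 : Nat.beq (K.l x) 0 = false := by
    rw [Bool.eq_false_iff, Ne, Nat.beq_eq]
    exact hx
  rw [e1, e0, Bool.false_or, Bool.false_or, Bool.and_eq_true, Nat.beq_eq] at k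
  unfold f
  rw [K.l_rot, K.cd_rot, K.r_rot, k.2, Function.iterate_succ_apply]

theorem f_is {x : D} (hx : K.l x ≠ 0) : K.c (K.f x) ∧ K.l (K.f x) = K.l x ∧
    K.cd (K.f x) = K.cd x := by
  have k := fct_use f_stp (K.cd_ok x) (K.ad_lr x)
  have e1 : Nat.beq (K.l x) 0 = false := by
    rw [Bool.eq_false_iff, Ne, Nat.beq_eq]
    exact hx
  rw [e1, Bool.false_or, Bool.and_eq_true] at k
  obtain ⟨i1, i2, i3⟩ := K.r_iter x (stp (K.l x) (K.cd x) (K.r x))
  refine ⟨?_, i2, i3⟩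
  show ci (K.l (K.f x)) (K.r (K.f x)) = true
  unfold f
  rw [i1, i2]
  exact k.1

theorem same_step (x : D) : K.cm.th.SameCycle x (K.cm.th x) := ⟨1, by simp⟩

theorem f_same_aux (n : ℕ) : ∀ x : D, stp (K.l x) (K.cd x) (K.r x) = n → K.l x ≠ 0 →
    K.cm.th.SameCycle x (K.f x) := by
  induction n with
  | zero =>
    intro x hn _
    unfold f
    rw [hn]
    exact SameCycle.refl _ _
  | succ n ih =>
    intro x hn hx
    have hc : ¬ K.c x := by
      intro hc
      have e0 : ci (K.l x) (K.r x) = true := hc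
      unfold stp at hn
      rw [if_pos e0] at hn
      exact absurd hn (by omega)
    have h1 : K.cm.th.SameCycle x (K.rot x) := by
      rw [← K.th_n hc]
      exact K.same_step x
    have e0 : ci (K.l x) (K.r x) = false := by simpa [c] using hc
    have k := fct_use f_stp (K.cd_ok x) (K.ad_lr x)
    have e1 : Nat.beq (K.l x) 0 = false := by
      rw [Bool.eq_false_iff, Ne, Nat.beq_eq]
      exact hx
    rw [e1, e0, Bool.false_or, Bool.false_or, Bool.and_eq_true, Nat.beq_eq] at k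
    have h2 := ih (K.rot x) (by rw [K.l_rot, K.cd_rot, K.r_rot]; omega) (by rwa [K.l_rot])
    rw [K.f_n hc hx] at h2
    exact h1.trans h2

theorem f_same {x : D} (hx : K.l x ≠ 0) : K.cm.th.SameCycle x (K.f x) :=
  K.f_same_aux _ x rfl hx

/-- the other circle dart at the vertex -/
def o (x : D) : D := K.f (K.rot x)

theorem o_eq (x : D) :
    K.o x = K.rot^[stp (K.l x) (K.cd x) (nt (K.l x) (K.cd x) (K.r x)) + 1] x := by
  unfold o f
  rw [K.l_rot, K.cd_rot, K.r_rot, Function.iterate_succ_apply]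

theorem o_is {x : D} (h : K.c x) : K.c (K.o x) ∧ K.l (K.o x) = K.l x ∧
    K.cd (K.o x) = K.cd x ∧ K.r (K.o x) = oc (K.l x) (K.r x) := by
  obtain ⟨h1, h2, h3⟩ := K.f_is (x := K.rot x) (by rw [K.l_rot]; exact K.c_ne h)
  rw [K.l_rot] at h2
  rw [K.cd_rot] at h3
  refine ⟨h1, h2, h3, ?_⟩
  rw [K.o_eq, (K.r_iter x _).1]
  exact (K.c_oc h).2.2.2.2.2.2.2.1

theorem o_o {x : D} (h : K.c x) : K.o (K.o x) = x := by
  obtain ⟨h1, h2, h3, h4⟩ := K.o_is h
  obtain ⟨g1, g2, g3, g4⟩ := K.o_is h1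
  have e : ∃ j, K.o (K.o x) = K.rot^[j] x := by
    rw [K.o_eq (K.o x), K.o_eq x, ← Function.iterate_add_apply]
    exact ⟨_, rfl⟩
  obtain ⟨j, hj⟩ := e
  rw [hj]
  apply K.inj
  rw [← hj]
  show K.r (K.o (K.o x)) = K.r x
  rw [g4, h2, h4]
  exact (K.c_oc h).2.1

/-- the contour through `o x` backwards reaches `x` -/
theorem inv_o_same {x : D} (h : K.c x) : K.cm.th.SameCycle (K.inv (K.o x)) x := by
  obtain ⟨h1, h2, -⟩ := K.o_is h
  have e1 : K.cm.th.SameCycle (K.inv (K.o x)) (K.rot (K.o x)) := by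
    have := K.th_c ((K.c_inv (K.o x)).2 h1)
    rw [K.inv_inv] at this
    rw [← this]
    exact K.same_step _
  have e2 : K.cm.th.SameCycle (K.rot (K.o x)) (K.o (K.o x)) :=
    K.f_same (by rw [K.l_rot, h2]; exact K.c_ne h)
  rw [K.o_o h] at e2
  exact e1.trans e2

/-- the contour through a circle dart -/
theorem c_same {x : D} (h : K.c x) : K.cm.th.SameCycle x (K.o (K.inv x)) := by
  have e1 : K.cm.th.SameCycle x (K.rot (K.inv x)) := by
    rw [← K.th_c h]
    exact K.same_step _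
  have hi := (K.c_inv x).2 h
  exact e1.trans (K.f_same (by rw [K.l_rot]; exact K.c_ne hi))

theorem rot_dgr (x : D) : K.rot^[dgr (K.l x)] x = x := by
  apply K.inj
  show K.r _ = K.r x
  rw [(K.r_iter x _).1]
  have k := fct_use f_deg (K.cd_ok x) (K.ad_lr x)
  unfold dgr
  rw [Bool.and_eq_true] at k
  have k2 := k.2
  by_cases h : Nat.beq (K.l x) 0 = true
  · rw [if_pos h] at k2 ⊢
    rw [Bool.and_eq_true, Nat.beq_eq] at k2
    exact k2.2
  · rw [if_neg h] at k2 ⊢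
    rw [Nat.beq_eq] at k2
    exact k2

theorem rot_ne (x : D) {i : ℕ} (h0 : 0 < i) (hi : i < dgr (K.l x)) : K.rot^[i] x ≠ x := by
  intro h
  have h1 := (K.r_iter x i).1
  rw [h] at h1
  have k := fct_use f_deg (K.cd_ok x) (K.ad_lr x)
  unfold dgr at hi
  simp only [Bool.and_eq_true] at k
  obtain ⟨⟨⟨⟨k1, k2⟩, k3⟩, k4⟩, k5⟩ := k
  by_cases hh : Nat.beq (K.l x) 0 = true
  · rw [if_pos hh] at k5 hi
    rw [Bool.and_eq_true] at k5
    interval_cases i
    · exact ne_of_nbeq k1 h1.symm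
    · exact ne_of_nbeq k2 h1.symm
    · exact ne_of_nbeq k3 h1.symm
    · exact ne_of_nbeq k4 h1.symm
    · exact ne_of_nbeq k5.1 h1.symm
  · rw [if_neg hh] at hi
    interval_cases i
    · exact ne_of_nbeq k1 h1.symm
    · exact ne_of_nbeq k2 h1.symm
    · exact ne_of_nbeq k3 h1.symm
    · exact ne_of_nbeq k4 h1.symm

theorem dgr_pos (u : ℕ) : 0 < dgr u := by
  unfold dgr
  split_ifs <;> norm_num

theorem per_rot (x : D) : Function.minimalPeriod K.rot x = dgr (K.l x) := by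
  have h1 : Function.IsPeriodicPt K.rot (dgr (K.l x)) x := K.rot_dgr x
  have h2 := h1.minimalPeriod_le (dgr_pos _)
  have h3 := h1.minimalPeriod_pos (dgr_pos _)
  by_contra hne
  exact K.rot_ne x h3 (lt_of_le_of_ne h2 hne) (Function.isPeriodicPt_minimalPeriod K.rot x)

end OMap

end Pool.Agent.Lib.MP_5854e1_co.Crc.Oct
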