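import Pool.Agent.Lib.MP_5854e1_co.Crc.OGood

/-!
# Maps labelled by `K_{1,2,2,2}`: the states of the darts of a region

`A x` is the code of the rotation at the start of `x`, `B x` the code at its end; the value `0`
stands for the exceptional circle.
-/

set_option autoImplicit false

open Equiv Equiv.Perm

namespace Pool.Agent.Lib.MP_5854e1_co.Crc.Oct

/-- the circle neighbour from which the contour of a leaf circle enters -/
def ent (u i : ℕ) : ℕ :=
  let a := (if tz u then (if Nat.beq u 1 then 3 else 1) else (if Nat.beq u 2 then 4 else 2))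
  if Nat.beq (nt u i a) (oc u a) then oc u a else a

/-- the number of the port with label `l` at a leaf circle -/
def prt (u i l : ℕ) : ℕ :=
  if Nat.beq (nt u i (ent u i)) l then 0
  else if Nat.beq (nt u i (nt u i (ent u i))) l then 1 else 2

/-- validity of a state -/
def val (u v a : ℕ) : Bool := ad u v && (if Nat.beq a 0 then tz u else
  okc u a && (Nat.beq u 0 || (if ci u v then Nat.beq (nt u a v) (oc u v) else leafw u a)))

/-- validity of the code at the end -/
def vale (u v a b : ℕ) : Bool := if Nat.beq b 0 then tz v && (!ci u v || Nat.beq a 0) else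
  okc v b && (Nat.beq v 0 || (if ci u v then !Nat.beq a 0 && Nat.beq (nt v b (oc v u)) u
    else leafw v b))

/-- the possible next labels -/
def nexts (u v b : ℕ) : List ℕ :=
  if Nat.beq b 0 then (List.range 7).filter fun w => ad v w && !Nat.beq w u else [nt v b u]

private theorem h2 : fct (fun u i v => ad u (nt u i v) && !Nat.beq (nt u i v) v) = true := by
  decide +kernel

private theorem h3 : fct (fun u _ v => !ci u v || (!Nat.beq u v && !Nat.beq (oc v u) u)) =
    true := by decide +kernel

/-- the entering label of a leaf circle -/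
theorem f_ent : fct (fun u i v => !ci u v || !Nat.beq (nt u i v) (oc u v) ||
    (Nat.beq (ent u i) (oc u v) && Nat.beq (nt u i (nt u i (nt u i (nt u i (ent u i))))) v)) =
    true := by decide +kernel

namespace OMap

variable {D : Type*} (K : OMap D)

theorem fc_apply (x : D) : K.cm.fc x = K.rot (K.inv x) := rfl

theorem l_fc (x : D) : K.l (K.cm.fc x) = K.r x := by
  rw [K.fc_apply, K.l_rot]
  rfl

theorem cd_fc (x : D) : K.cd (K.cm.fc x) = K.cd (K.inv x) := by
  rw [K.fc_apply, K.cd_rot]

theorem r_fc (x : D) : K.r (K.cm.fc x) = nt (K.r x) (K.cd (K.inv x)) (K.l x) := by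
  rw [K.fc_apply, K.r_rot, K.r_inv]
  rfl

/-- the dart belongs to the contour of the exceptional circle -/
def isX (x : D) : Prop := ∃ z, K.cm.th.SameCycle x z ∧ K.cm.Xc z

open Classical in
/-- the code at the start -/
noncomputable def A (x : D) : ℕ := if K.isX x then 0 else K.cd x

open Classical in
/-- the code at the end -/
noncomputable def B (x : D) : ℕ := if K.isX (K.cm.ga x) then 0 else K.cd (K.inv x)

theorem isX_same {x y : D} (h : K.cm.th.SameCycle x y) : K.isX x ↔ K.isX y :=
  ⟨fun ⟨z, h1, h2⟩ => ⟨z, h.symm.trans h1, h2⟩, fun ⟨z, h1, h2⟩ => ⟨z, h.trans h1, h2⟩⟩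

theorem A_fc (x : D) : K.A (K.cm.fc x) = K.B x := by
  classical
  unfold A B
  have h : K.isX (K.cm.fc x) ↔ K.isX (K.cm.ga x) := by
    rw [← K.cm.th_ga]
    exact (K.isX_same (K.same_step _)).symm
  by_cases h1 : K.isX (K.cm.ga x)
  · rw [if_pos h1, if_pos (h.2 h1)]
  · rw [if_neg h1, if_neg (fun h2 => h1 (h.1 h2)), K.cd_fc]

/-- the code at the start is constant along the contour outside circle darts -/
theorem A_rot {x : D} (h : ¬ K.c x) : K.A (K.rot x) = K.A x := by
  classical
  unfold A
  have h1 : K.isX (K.rot x) ↔ K.isX x := by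
    rw [← K.th_n h]
    exact (K.isX_same (K.same_step _)).symm
  rw [K.cd_rot]
  by_cases h2 : K.isX x
  · rw [if_pos h2, if_pos (h1.2 h2)]
  · rw [if_neg h2, if_neg (fun h3 => h2 (h1.1 h3))]

theorem A_lt (x : D) : K.A x < 121 := by
  classical
  unfold A
  split_ifs
  · norm_num
  · exact K.cd_lt x

theorem B_lt (x : D) : K.B x < 121 := by
  classical
  unfold B
  split_ifs
  · norm_num
  · exact K.cd_lt _

/-- the two codes of an edge which is not on a circle -/
theorem B_inv {x : D} (h : ¬ K.c x) : K.B (K.inv x) = K.A x ∧ K.A (K.inv x) = K.B x := by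
  have h' : ¬ K.c (K.inv x) := fun h1 => h ((K.c_inv x).1 h1)
  have e1 : K.cm.ga x = K.inv x := K.cm.ga_nF h
  have e2 : K.cm.ga (K.inv x) = x := by
    rw [K.cm.ga_nF h']
    exact K.inv_inv x
  unfold A B
  rw [e1, e2, K.inv_inv]
  exact ⟨rfl, rfl⟩

/-- a circle dart off the exceptional circle is on a leaf circle -/
theorem lf_of {x : D} (h : K.c x) (hx : ¬ K.isX x) : K.cm.Lf x := by
  refine ⟨h, ?_⟩
  by_contra h1
  exact hx ⟨x, SameCycle.refl _ _, h, h1⟩

/-- the window at a leaf circle -/
theorem window {x : D} (hx : ¬ K.isX x) (hl : K.l x ≠ 0) :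
    leafw (K.l x) (K.cd x) = true ∧ (K.c x → nt (K.l x) (K.cd x) (K.r x) =
      oc (K.l x) (K.r x)) := by
  obtain ⟨h1c, h2c, h3c⟩ := K.f_is hl
  have hz : ¬ K.isX (K.f x) := fun h => hx ((K.isX_same (K.f_same hl)).2 h)
  have hlf := (K.lf_of h1c hz).2
  have e1 : K.cm.th (K.inv (K.f x)) = K.rot (K.f x) := by
    rw [K.th_c ((K.c_inv _).2 h1c), K.inv_inv]
  have e2 : K.c (K.rot (K.f x)) := by
    rw [← e1]
    exact hlf _ (K.same_step _)
  have a1 : ci (K.l x) (K.r (K.f x)) = true := by
    have : ci (K.l (K.f x)) (K.r (K.f x)) = true := h1c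
    rwa [h2c] at this
  have a2 : ci (K.l x) (nt (K.l x) (K.cd x) (K.r (K.f x))) = true := by
    have : ci (K.l (K.rot (K.f x))) (K.r (K.rot (K.f x))) = true := e2
    rwa [K.l_rot, K.r_rot, h2c, h3c] at this
  have ha : ad (K.l x) (K.r (K.f x)) = true := by
    have := K.ad_lr (K.f x)
    rwa [h2c] at this
  have k := fct_use f_leaf (K.cd_ok x) ha
  rw [a1, a2] at k
  simp only [Bool.not_true, Bool.false_or, Bool.and_eq_true, Nat.beq_eq] at k
  refine ⟨k.1.1.2, fun hc => ?_⟩
  rw [K.f_c hc] at k
  exact k.1.1.1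

/-- the hypotheses on the region -/
structure Reg (R : D → Prop) : Prop where
  th : ∀ x, R (K.cm.th x) ↔ R x
  ga : ∀ x, R (K.cm.ga x) ↔ R x
  ne : ∀ x, R x → ¬ K.cm.Emp x
  one : ∀ x y, R x → R y → K.cm.Xc x → K.cm.Xc y → K.cm.th.SameCycle x y
  tz : ∀ x, R x → K.cm.Xc x → Oct.tz (K.l x) = true

variable {K} {R : D → Prop}

theorem Reg.fc (h : K.Reg R) (x : D) : R (K.cm.fc x) ↔ R x := by
  rw [← K.cm.th_ga, h.th, h.ga]

theorem Reg.x_tz [Fintype D] (h : K.Reg R) {x : D} (hx : R x) (h1 : K.isX x) :
    Oct.tz (K.l x) = true := by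
  obtain ⟨z, hz, hX⟩ := h1
  rw [K.tz_same hz]
  exact h.tz z ((inv_same h.th hz).1 hx) hX

theorem Reg.val [Fintype D] (h : K.Reg R) {x : D} (hx : R x) :
    val (K.l x) (K.r x) (K.A x) = true := by
  classical
  unfold Oct.val
  rw [K.ad_lr, Bool.true_and]
  by_cases h1 : K.isX x
  · have e : K.A x = 0 := by
      unfold A
      rw [if_pos h1]
    rw [e, if_pos (Nat.beq_refl 0)]
    exact h.x_tz hx h1
  · have e : K.A x = K.cd x := by
      unfold A
      rw [if_neg h1]
    have e' : ¬ Nat.beq (K.cd x) 0 = true := by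
      rw [Nat.beq_eq]
      exact K.cd_ne x
    rw [e, if_neg e', K.cd_ok, Bool.true_and, Bool.or_eq_true]
    by_cases h2 : K.l x = 0
    · left
      rw [Nat.beq_eq]
      exact h2
    · right
      obtain ⟨w1, w2⟩ := K.window h1 h2
      by_cases h3 : K.c x
      · have h3' : ci (K.l x) (K.r x) = true := h3
        rw [if_pos h3', Nat.beq_eq]
        exact w2 h3
      · have h3' : ¬ ci (K.l x) (K.r x) = true := h3
        rw [if_neg h3']
        exact w1

theorem Reg.vale [Fintype D] (h : K.Reg R) {x : D} (hx : R x) :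
    vale (K.l x) (K.r x) (K.A x) (K.B x) = true := by
  classical
  unfold Oct.vale
  by_cases h1 : K.isX (K.cm.ga x)
  · have e : K.B x = 0 := by
      unfold B
      rw [if_pos h1]
    rw [e, if_pos (Nat.beq_refl 0), Bool.and_eq_true, Bool.or_eq_true]
    by_cases hc : K.c x
    · have eg : K.cm.ga x = x := K.cm.ga_F hc
      rw [eg] at h1
      refine ⟨?_, Or.inr ?_⟩
      · rw [← (K.c_oc hc).2.2.2.2.2.1]
        exact h.x_tz hx h1
      · unfold A
        rw [if_pos h1]
        rfl
    · have eg : K.cm.ga x = K.inv x := K.cm.ga_nF hc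
      rw [eg] at h1
      refine ⟨?_, Or.inl ?_⟩
      · have hR : R (K.inv x) := by
          rw [← eg]
          exact (h.ga x).2 hx
        exact h.x_tz hR h1
      · rw [Bool.not_eq_true', Bool.eq_false_iff]
        exact hc
  · have e : K.B x = K.cd (K.inv x) := by
      unfold B
      rw [if_neg h1]
    have e' : ¬ Nat.beq (K.cd (K.inv x)) 0 = true := by
      rw [Nat.beq_eq]
      exact K.cd_ne _
    have e'' : okc (K.r x) (K.cd (K.inv x)) = true := K.cd_ok (K.inv x)
    rw [e, if_neg e', e'', Bool.true_and, Bool.or_eq_true]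
    by_cases h2 : K.r x = 0
    · left
      rw [Nat.beq_eq]
      exact h2
    · right
      by_cases hc : K.c x
      · have hc' : ci (K.l x) (K.r x) = true := hc
        have eg : K.cm.ga x = x := K.cm.ga_F hc
        rw [eg] at h1
        have eA : K.A x = K.cd x := by
          unfold A
          rw [if_neg h1]
        have eA' : Nat.beq (K.A x) 0 = false := by
          rw [Bool.eq_false_iff, Ne, Nat.beq_eq, eA]
          exact K.cd_ne x
        rw [if_pos hc', eA', Bool.not_false, Bool.true_and, Nat.beq_eq]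
        have hE := (K.lf_of hc h1).2
        obtain ⟨y, hy⟩ : ∃ y, K.cm.th y = K.inv x := ⟨K.cm.th.symm (K.inv x), by simp⟩
        have hs : K.cm.th.SameCycle (K.inv x) y := by
          rw [← hy]
          exact (K.same_step y).symm
        have hcy : K.c y := hE y hs
        rw [K.th_c hcy] at hy
        have hcz : K.c (K.inv y) := (K.c_inv y).2 hcy
        have l1 : K.l (K.inv y) = K.r x := by
          rw [← K.l_rot, hy]
          rfl
        have c1 : K.cd (K.inv y) = K.cd (K.inv x) := by
          rw [← K.cd_rot, hy]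
        have r1 : nt (K.r x) (K.cd (K.inv x)) (K.r (K.inv y)) = K.l x := by
          have := K.r_rot (K.inv y)
          rw [hy, K.r_inv, l1, c1] at this
          exact this.symm
        have a1 : ci (K.r x) (K.r (K.inv y)) = true := by
          have : ci (K.l (K.inv y)) (K.r (K.inv y)) = true := hcz
          rwa [l1] at this
        have a2 : ci (K.r x) (nt (K.r x) (K.cd (K.inv x)) (K.r (K.inv y))) = true := by
          rw [r1]
          have : ci (K.l (K.inv x)) (K.r (K.inv x)) = true := (K.c_inv x).2 hc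
          rwa [K.r_inv] at this
        have ha : ad (K.r x) (K.r (K.inv y)) = true := by
          have := K.ad_lr (K.inv y)
          rwa [l1] at this
        have k := fct_use f_leaf (K.cd_ok (K.inv x)) ha
        have e3 : K.l (K.inv x) = K.r x := rfl
        rw [e3, a1, a2] at k
        simp only [Bool.not_true, Bool.false_or, Bool.and_eq_true, Nat.beq_eq] at k
        have k1 := k.1.1.1
        have k2 := k.1.2
        rw [r1] at k1
        rw [← k1] at k2
        rw [k2]
        exact r1
      · have hc' : ¬ ci (K.l x) (K.r x) = true := hc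
        rw [if_neg hc']
        have eg : K.cm.ga x = K.inv x := K.cm.ga_nF hc
        rw [eg] at h1
        exact (K.window h1 h2).1

theorem next_mem (x : D) : K.r (K.cm.fc x) ∈ nexts (K.l x) (K.r x) (K.B x) := by
  classical
  unfold nexts
  by_cases h1 : K.isX (K.cm.ga x)
  · have e : K.B x = 0 := by
      unfold B
      rw [if_pos h1]
    rw [e, if_pos (Nat.beq_refl 0), List.mem_filter, List.mem_range, Bool.and_eq_true]
    have ha := K.ad_lr (K.cm.fc x)
    rw [K.l_fc] at ha
    refine ⟨(ad_lt ha).2, ha, ?_⟩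
    have k := fct_use Oct.h2 (K.cd_ok (K.inv x)) (K.ad_rl x)
    have e3 : K.l (K.inv x) = K.r x := rfl
    rw [e3, Bool.and_eq_true] at k
    rw [K.r_fc]
    exact k.2
  · have e : K.B x = K.cd (K.inv x) := by
      unfold B
      rw [if_neg h1]
    have e' : ¬ Nat.beq (K.cd (K.inv x)) 0 = true := by
      rw [Nat.beq_eq]
      exact K.cd_ne _
    rw [e, if_neg e', List.mem_singleton, K.r_fc]

/-- an empty side has at least three darts -/
theorem per_emp [Finite D] {y : D} (hc : K.c y) (hE : K.cm.Emp y) :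
    3 ≤ Function.minimalPeriod K.cm.th y := by
  have key : ∀ z, K.cm.th.SameCycle y z → K.l (K.cm.th z) = K.r z ∧
      K.r (K.cm.th z) = oc (K.r z) (K.l z) := by
    intro z hz
    have hcz : K.c z := hE z hz
    have hcz' : K.c (K.cm.th z) := hE _ (hz.trans (K.same_step z))
    rw [K.th_c hcz] at hcz' ⊢
    refine ⟨by rw [K.l_rot]; rfl, ?_⟩
    have hi : K.c (K.inv z) := (K.c_inv z).2 hcz
    have k := fct_use f_leaf (K.cd_ok (K.inv z)) (K.ad_rl z)
    have e3 : K.l (K.inv z) = K.r z := rfl
    have a1 : ci (K.r z) (K.l z) = true := by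
      have : ci (K.l (K.inv z)) (K.r (K.inv z)) = true := hi
      rwa [K.r_inv] at this
    have a2 : ci (K.r z) (nt (K.r z) (K.cd (K.inv z)) (K.l z)) = true := by
      have : ci (K.l (K.rot (K.inv z))) (K.r (K.rot (K.inv z))) = true := hcz'
      rwa [K.l_rot, K.r_rot, K.r_inv] at this
    rw [e3, a1, a2] at k
    simp only [Bool.not_true, Bool.false_or, Bool.and_eq_true, Nat.beq_eq] at k
    rw [K.r_rot, K.r_inv]
    exact k.1.1.1
  have s1 := K.same_step y
  obtain ⟨p1, q1⟩ := key y (SameCycle.refl _ _)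
  obtain ⟨p2, -⟩ := key _ s1
  have k := fct_use Oct.h3 (K.cd_ok y) (K.ad_lr y)
  have a0 : ci (K.l y) (K.r y) = true := hc
  rw [a0, Bool.not_true, Bool.false_or, Bool.and_eq_true] at k
  obtain ⟨k1, k2⟩ := k
  have hp := minimalPeriod_pos' K.cm.th y
  have hper := Function.isPeriodicPt_minimalPeriod K.cm.th y
  by_contra hlt
  push Not at hlt
  have hcases : Function.minimalPeriod K.cm.th y = 1 ∨
      Function.minimalPeriod K.cm.th y = 2 := by omega
  rcases hcases with h | h <;> rw [h] at hper
  · have e : K.cm.th y = y := hper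
    rw [e] at p1
    exact ne_of_nbeq k1 p1
  · have e : K.cm.th (K.cm.th y) = y := hper
    rw [e, q1] at p2
    exact ne_of_nbeq k2 p2.symm

end OMap

end Pool.Agent.Lib.MP_5854e1_co.Crc.Oct
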