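import Pool.Agent.Lib.MP_5854e1_co.Crc.OCov
import Pool.Agent.Lib.MP_5854e1_co.Crc.OState

/-!
# `K_{1,2,2,2}`: reduction of the theorem to one region
-/

set_option autoImplicit false

open Equiv Equiv.Perm

namespace Pool.Agent.Lib.MP_5854e1_co

open Classical in
open Crc Crc.Oct in
/-- the statement about one region which excludes finite planar covers -/
def Crc.Oct.NoRegion : Prop :=
  ∀ (D : Type) [Fintype D] [DecidableEq D] (K : OMap D) (R : D → Prop), K.Reg R →
    (∃ x, R x) →
    ∑ x ∈ Finset.univ.filter R, ((if K.cm.F x then 0 else 1 / 2) - K.om x -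
      (if K.cm.Lf x then vv K.cm.th (K.cm.inv x) else 0)) <
      ∑ x ∈ Finset.univ.filter R, vv K.cm.fc x → False

open Crc Crc.Oct in
/-- **Reduction to one region.** -/
theorem K1222_noCover_of (hno : NoRegion) : ¬ HasPlanarCover K1222 := by
  classical
  rintro ⟨n, H, φ, hs, hφ, hpl⟩
  obtain ⟨rot, hrot, hdef⟩ := hpl.defect_eq
  have : Fintype H.Dart := Fintype.ofFinite _
  have hne : Nonempty H.Dart := by
    obtain ⟨v, hv⟩ := hs 0
    have h5 : (5 : Fin 7) ∈ K1222.neighborSet (φ v) := by
      rw [hv]
      show K1222.Adj 0 5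
      decide
    obtain ⟨w, hw, -⟩ := (hφ v).surjOn h5
    exact ⟨⟨(v, w), hw⟩⟩
  set K := ofCover hφ rot hrot with hK
  obtain ⟨R, hth, hga, hE, hex, hX, hlt⟩ := K.cm.exists_region K.good (K.count hdef)
  by_cases hall : ∀ x, R x → K.cm.Xc x → tz (K.l x) = true
  · refine hno H.Dart K R ⟨hth, hga, hE, hX, hall⟩ hex ?_
    convert hlt
  · push Not at hall
    obtain ⟨x0, hx0, hX0, ht0⟩ := hall
    have ht0' : tz (K.l x0) = false := by simpa using ht0
    set K' := ofCover (swp_cover hφ) rot hrot with hK'
    have hc : K'.c = K.c := by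
      funext x
      exact propext (by
        show ci (swp (φ x.fst)).val (swp (φ x.snd)).val = true ↔
          ci (φ x.fst).val (φ x.snd).val = true
        rw [swp_ci])
    have hcm : K'.cm = K.cm := by
      unfold OMap.cm
      congr 1
    have hom : K'.om = K.om := by
      funext x
      show (if (swp (φ x.fst)).val = 0 then (1 / 6 : ℚ) else 0) =
        (if (φ x.fst).val = 0 then (1 / 6 : ℚ) else 0)
      simp only [swp_zero]
    have hreg : K'.Reg R := by
      refine ⟨?_, ?_, ?_, ?_, ?_⟩
      · rw [hcm]; exact hth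
      · rw [hcm]; exact hga
      · rw [hcm]; exact hE
      · rw [hcm]; exact hX
      · rw [hcm]
        intro x hx hXx
        have hs1 := hX x x0 hx hx0 hXx hX0
        have e1 : tz (K.l x) = false := by
          rw [K.tz_same hs1]
          exact ht0'
        have e2 : K.l x ≠ 0 := K.c_ne hXx.1
        exact swp_tz (φ x.fst) e2 e1
    refine hno H.Dart K' R hreg hex ?_
    rw [hcm, hom]
    convert hlt

end Pool.Agent.Lib.MP_5854e1_co
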