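import Pool.Agent.Lib.MP_5854e1_co.Crc.CgB
import Pool.Agent.Lib.MP_5854e1_co.Crc.OState

/-!
# `K_{1,2,2,2}`: the region of a side of one circle

`M` is the map in which only the circle of `e` is contracted (`cmap`), `K.cm` the map in which all
the circles over `1 3 5` and `2 4 6` are contracted.  In the side of `e` all the other circles over
these triangles are faces.  Then the darts of the side which are not on the inner side of such a
face form a region.
-/

set_option autoImplicit false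

open Equiv Equiv.Perm Relation

namespace Pool.Agent.Lib.MP_5854e1_co.Crc.Oct

variable {D : Type*} [Fintype D] [DecidableEq D]

open Classical in
/-- one circle and its side -/
structure OMap.Side (K : OMap D) (M : CMap D) (e : D) : Prop where
  rot : M.rot = K.rot
  inv : M.inv = K.inv
  Fc : ∀ x, M.F x ↔ M.c x
  he : M.c e
  cK : ∀ x, M.c x → K.c x
  cx : ∀ x y, M.c x → M.rot.SameCycle x y → K.c y → M.c y
  tz : ∀ x, M.c x → Oct.tz (K.l x) = true
  cont : ∀ x, EqvGen M.rel e x → M.c x → M.th.SameCycle e x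
  euler : 2 ≤ ∑ x ∈ Finset.univ.filter (fun x => EqvGen M.rel e x),
    (vv M.th x + vv M.fc x - (if M.F x then 0 else 1 / 2))
  nonemp : ∃ x, EqvGen M.rel e x ∧ ¬ M.c x
  leaf : ∀ x, EqvGen M.rel e x → K.c x → ¬ M.c x → K.cm.Emp x ∨ K.cm.Emp (K.inv x)

/-- the region of a side -/
def OMap.rg (K : OMap D) (M : CMap D) (e x : D) : Prop := EqvGen M.rel e x ∧ ¬ K.cm.Emp x

variable {K : OMap D} {M : CMap D} {e : D}

/-! ### permutations which agree on a cycle -/

omit [Fintype D] [DecidableEq D] in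
private theorem it_cong {σ τ : Perm D} {x : D} (h : ∀ y, σ.SameCycle x y → τ y = σ y) (i : ℕ) :
    τ^[i] x = σ^[i] x := by
  induction i with
  | zero => rfl
  | succ i ih =>
    rw [Function.iterate_succ_apply', Function.iterate_succ_apply', ih]
    exact h _ ⟨i, by rw [zpow_natCast, Equiv.Perm.coe_pow]⟩

omit [DecidableEq D] in
private theorem same_cong {σ τ : Perm D} {x y : D} (h : ∀ y, σ.SameCycle x y → τ y = σ y) :
    σ.SameCycle x y ↔ τ.SameCycle x y := by
  constructor
  · intro hs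
    obtain ⟨i, -, hi⟩ := sameCycle_iterate σ hs
    exact ⟨i, by rw [zpow_natCast, Equiv.Perm.coe_pow, it_cong h, hi]⟩
  · intro hs
    obtain ⟨i, -, hi⟩ := sameCycle_iterate τ hs
    exact ⟨i, by rw [zpow_natCast, Equiv.Perm.coe_pow, ← it_cong h, hi]⟩

omit [Fintype D] [DecidableEq D] in
private theorem vv_cong {σ τ : Perm D} {x : D} (h : ∀ y, σ.SameCycle x y → τ y = σ y) :
    vv τ x = vv σ x := by
  unfold vv
  congr 2
  apply Nat.dvd_antisymm
  · apply Function.IsPeriodicPt.minimalPeriod_dvd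
    show τ^[_] x = x
    rw [it_cong h]
    exact Function.isPeriodicPt_minimalPeriod _ _
  · apply Function.IsPeriodicPt.minimalPeriod_dvd
    show σ^[_] x = x
    rw [← it_cong h]
    exact Function.isPeriodicPt_minimalPeriod _ _

/-! ### the vertices of the circle -/

/-- the darts at the vertices of the circle -/
private def Vx (M : CMap D) (x : D) : Prop := ∃ z, M.rot.SameCycle x z ∧ M.c z

omit [Fintype D] [DecidableEq D] in
private theorem vx_of {x : D} (hx : M.c x) : Vx M x := ⟨x, SameCycle.refl _ _, hx⟩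

omit [Fintype D] [DecidableEq D] in
private theorem vx_rot (x : D) : Vx M (M.rot x) ↔ Vx M x := by
  constructor
  · rintro ⟨y, hy, hc⟩
    exact ⟨y, (show M.rot.SameCycle x (M.rot x) from ⟨1, by simp⟩).trans hy, hc⟩
  · rintro ⟨y, hy, hc⟩
    exact ⟨y, (show M.rot.SameCycle x (M.rot x) from ⟨1, by simp⟩).symm.trans hy, hc⟩

omit [DecidableEq D] in
private theorem vx_th (h : K.Side M e) (x : D) : Vx M (M.th x) ↔ Vx M x := by
  by_cases hx : M.F x
  · have hc := (h.Fc x).1 hx
    rw [M.th_F hx]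
    exact ⟨fun _ => vx_of hc, fun _ => (vx_rot _).2 (vx_of ((M.c_inv x).2 hc))⟩
  · rw [M.th_nF hx]
    exact vx_rot x

omit [DecidableEq D] in
private theorem vx_c (h : K.Side M e) {x : D} (hx : Vx M x) : K.c x ↔ M.c x := by
  obtain ⟨z, hz, hc⟩ := hx
  exact ⟨fun hk => h.cx z x hc hz.symm hk, h.cK x⟩

omit [DecidableEq D] in
private theorem vx_thK (h : K.Side M e) {x : D} (hx : Vx M x) : K.cm.th x = M.th x := by
  by_cases hc : M.c x
  · rw [K.th_c (h.cK x hc), M.th_F ((h.Fc x).2 hc), h.rot, h.inv]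
  · rw [K.th_n (fun hk => hc ((vx_c h hx).1 hk)), M.th_nF (fun hF => hc ((h.Fc x).1 hF)), h.rot]

omit [DecidableEq D] in
private theorem vx_same (h : K.Side M e) {x y : D} (hx : Vx M x) :
    M.th.SameCycle x y ↔ K.cm.th.SameCycle x y :=
  same_cong fun _ hz => vx_thK h ((inv_same (R := Vx M) (vx_th h) hz).1 hx)

omit [DecidableEq D] in
private theorem vx_l (h : K.Side M e) {x : D} (hx : Vx M x) : K.l x ≠ 0 := by
  obtain ⟨z, hz, hc⟩ := hx
  have h1 : K.l z = K.l x := by
    rw [h.rot] at hz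
    exact ((inv_same (R := fun y => K.l y = K.l x) (fun y => by rw [K.l_rot]) hz).1 rfl)
  rw [← h1]
  exact K.c_ne (h.cK z hc)

/-! ### the side -/

omit [Fintype D] [DecidableEq D] in
private theorem s_th (x : D) : EqvGen M.rel e (M.th x) ↔ EqvGen M.rel e x := by
  have h1 : EqvGen M.rel x (M.th x) := EqvGen.rel _ _ (Or.inl rfl)
  exact ⟨fun h => h.trans _ _ _ (h1.symm _ _), fun h => h.trans _ _ _ h1⟩

omit [Fintype D] [DecidableEq D] in
private theorem s_ga (x : D) : EqvGen M.rel e (M.ga x) ↔ EqvGen M.rel e x := by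
  have h1 : EqvGen M.rel x (M.ga x) := EqvGen.rel _ _ (Or.inr rfl)
  exact ⟨fun h => h.trans _ _ _ (h1.symm _ _), fun h => h.trans _ _ _ h1⟩

omit [Fintype D] [DecidableEq D] in
private theorem s_fc (x : D) : EqvGen M.rel e (M.fc x) ↔ EqvGen M.rel e x := by
  rw [← M.th_ga, s_th, s_ga]

omit [DecidableEq D] in
private theorem fcK (h : K.Side M e) : K.cm.fc = M.fc := by
  show K.rot * K.inv = M.rot * M.inv
  rw [h.rot, h.inv]

omit [DecidableEq D] in
private theorem s_thK (h : K.Side M e) (x : D) :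
    EqvGen M.rel e (K.cm.th x) ↔ EqvGen M.rel e x := by
  by_cases hk : K.c x
  · have h1 : K.cm.th x = M.fc x := by
      rw [K.th_c hk, ← fcK h]
      rfl
    rw [h1, s_fc]
  · have h1 : K.cm.th x = M.th x := by
      rw [K.th_n hk, M.th_nF (fun hF => hk (h.cK x ((h.Fc x).1 hF))), h.rot]
    rw [h1, s_th]

omit [DecidableEq D] in
private theorem s_gaK (h : K.Side M e) (x : D) :
    EqvGen M.rel e (K.cm.ga x) ↔ EqvGen M.rel e x := by
  by_cases hk : K.c x
  · rw [K.cm.ga_F hk]
  · have h1 : K.cm.ga x = M.ga x := by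
      rw [K.cm.ga_nF hk, M.ga_nF (fun hF => hk (h.cK x ((h.Fc x).1 hF))), h.inv]
      rfl
    rw [h1, s_ga]

omit [DecidableEq D] in
private theorem s_inv (h : K.Side M e) {x : D} (hx : ¬ M.c x) :
    EqvGen M.rel e (K.inv x) ↔ EqvGen M.rel e x := by
  have h1 : M.ga x = K.inv x := by
    rw [M.ga_nF (fun hF => hx ((h.Fc x).1 hF)), h.inv]
  rw [← h1, s_ga]

omit [DecidableEq D] in
theorem OMap.Side.mem (h : K.Side M e) : K.rg M e e := by
  refine ⟨EqvGen.refl _, fun hE => ?_⟩
  have hM : M.Emp e := by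
    intro y hy
    have hV := (inv_same (R := Vx M) (vx_th h) hy).1 (vx_of h.he)
    have hK := hE y ((vx_same h (vx_of h.he)).1 hy)
    exact (h.Fc y).2 ((vx_c h hV).1 hK)
  obtain ⟨x, hx, hc⟩ := h.nonemp
  exact hc ((h.Fc x).1 (hM x (M.eqv_emp hM hx)))

omit [DecidableEq D] in
private theorem ne_emp (h : K.Side M e) {x : D} (hx : EqvGen M.rel e x) (hc : M.c x) :
    ¬ K.cm.Emp x := fun hE =>
  h.mem.2 ((K.cm.emp_same ((vx_same h (vx_of h.he)).1 (h.cont x hx hc))).2 hE)

omit [DecidableEq D] in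
theorem OMap.Side.reg (h : K.Side M e) : K.Reg (K.rg M e) := by
  have hX : ∀ x, K.rg M e x → K.cm.Xc x → M.c x := by
    intro x hx hX
    by_contra hc
    rcases h.leaf x hx.1 hX.1 hc with h1 | h1
    · exact hx.2 h1
    · exact hX.2 h1
  refine ⟨fun x => ?_, fun x => ?_, fun x hx => hx.2, fun x y hx hy hxX hyX => ?_,
    fun x hx hxX => h.tz x (hX x hx hxX)⟩
  · unfold OMap.rg
    rw [s_thK h, ← K.cm.emp_same (K.same_step x)]
  · unfold OMap.rg
    rw [s_gaK h]
    refine and_congr_right fun _ => not_congr ?_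
    by_cases hk : K.c x
    · rw [K.cm.ga_F hk]
    · rw [K.cm.ga_nF hk]
      exact ⟨fun hE => absurd ((K.c_inv x).1 (hE _ (SameCycle.refl _ _))) hk,
        fun hE => absurd (hE _ (SameCycle.refl _ _)) hk⟩
  · have h1 := (vx_same h (vx_of h.he)).1 (h.cont x hx.1 (hX x hx hxX))
    have h2 := (vx_same h (vx_of h.he)).1 (h.cont y hy.1 (hX y hy hyX))
    exact h1.symm.trans h2

/-! ### the count -/

private theorem h4 : fct (fun u i v =>
    if Nat.beq u 0 then
      Nat.beq (ncn u i v + nci u (nt u i (nt u i (nt u i (nt u i (nt u i v)))))) 6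
    else Nat.beq (ncn u i v) 3) = true := by decide +kernel

open Classical in
/-- the local count at one vertex -/
private theorem vtx (K : OMap D) (x : D) :
    ∑ y ∈ cl K.rot x, ((1 / 2 - vv K.rot y) - ((if K.cm.F y then 0 else 1 / 2) -
        K.om y)) = 0 := by
  have h4' : ∀ f : D → ℚ, ∑ y ∈ cl K.rot x, f y =
      ∑ i ∈ Finset.range (Function.minimalPeriod K.rot x), f (K.rot^[i] x) := by
    intro f
    rw [sum_range_period]
    refine Finset.sum_congr ?_ fun _ _ => rfl
    ext y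
    simp [cl]
  rw [h4', K.per_rot]
  have hv : ∀ i, vv K.rot (K.rot^[i] x) = 1 / (dgr (K.l x) : ℚ) := by
    intro i
    unfold vv
    rw [K.per_rot, (K.r_iter x i).2.1]
  have hF : ∀ i, ((if K.cm.F (K.rot^[i] x) then 0 else 1 / 2 : ℚ)) =
      (nci (K.l x) ((nt (K.l x) (K.cd x))^[i] (K.r x)) : ℚ) / 2 := by
    intro i
    have : K.cm.F (K.rot^[i] x) ↔
        ci (K.l x) ((nt (K.l x) (K.cd x))^[i] (K.r x)) = true := by
      show K.c _ ↔ _
      unfold OMap.c
      rw [(K.r_iter x i).1, (K.r_iter x i).2.1]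
    unfold nci
    by_cases h : K.cm.F (K.rot^[i] x)
    · rw [if_pos h, if_pos (this.1 h)]
      norm_num
    · rw [if_neg h, if_neg (fun h' => h (this.2 h'))]
      norm_num
  have ho : ∀ i, K.om (K.rot^[i] x) = K.om x := by
    intro i
    unfold OMap.om
    rw [(K.r_iter x i).2.1]
  have k := fct_use h4 (K.cd_ok x) (K.ad_lr x)
  unfold ncn at k
  simp only [hv, hF, ho]
  by_cases c1 : Nat.beq (K.l x) 0 = true
  · rw [if_pos c1, Nat.beq_eq] at k
    have hd : dgr (K.l x) = 6 := by
      unfold dgr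
      rw [if_pos c1]
    have hom : K.om x = 1 / 6 := by
      unfold OMap.om
      rw [if_pos (Nat.beq_eq.symm ▸ c1 : K.l x = 0)]
    rw [hd, hom]
    simp only [Finset.sum_range_succ, Finset.sum_range_zero, Function.iterate_succ,
      Function.iterate_zero, Function.comp_apply, id_eq]
    have k' := congrArg (Nat.cast (R := ℚ)) k
    simp only [Nat.cast_add, Nat.cast_ofNat] at k' ⊢
    linarith
  · rw [if_neg c1, Nat.beq_eq] at k
    have hd : dgr (K.l x) = 5 := by
      unfold dgr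
      rw [if_neg c1]
    have hom : K.om x = 0 := by
      unfold OMap.om
      rw [if_neg (fun h => c1 (Nat.beq_eq.symm ▸ h : Nat.beq (K.l x) 0 = true))]
    rw [hd, hom]
    simp only [Finset.sum_range_succ, Finset.sum_range_zero, Function.iterate_succ,
      Function.iterate_zero, Function.comp_apply, id_eq]
    have k' := congrArg (Nat.cast (R := ℚ)) k
    simp only [Nat.cast_add, Nat.cast_ofNat] at k' ⊢
    linarith

open Classical in
theorem OMap.Side.count (h : K.Side M e) :
    ∑ x ∈ Finset.univ.filter (K.rg M e), ((if K.cm.F x then 0 else 1 / 2) - K.om x -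
      (if K.cm.Lf x then vv K.cm.th (K.cm.inv x) else 0)) <
      ∑ x ∈ Finset.univ.filter (K.rg M e), vv K.cm.fc x := by
  obtain ⟨S, hS⟩ : ∃ S : D → Prop, S = fun x => EqvGen M.rel e x := ⟨_, rfl⟩
  have hSx : ∀ x, S x ↔ EqvGen M.rel e x := fun x => by rw [hS]
  have heul : 2 ≤ ∑ x ∈ Finset.univ.filter S,
      (vv M.th x + vv M.fc x - (if M.F x then 0 else 1 / 2)) := by
    subst hS
    exact h.euler
  -- split the side by the vertices of the circle
  have hsplit : ∀ f : D → ℚ, ∑ x ∈ Finset.univ.filter S, f x =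
      ∑ x ∈ Finset.univ.filter (fun x => S x ∧ Vx M x), f x +
      ∑ x ∈ Finset.univ.filter (fun x => S x ∧ ¬ Vx M x), f x := fun f => by
    rw [← Finset.filter_filter, ← Finset.filter_filter, Finset.sum_filter_add_sum_filter_not]
  -- the contour of `e`
  have hcont : ∑ x ∈ Finset.univ.filter (fun x => S x ∧ Vx M x), vv M.th x = 1 := by
    rw [← sum_vv M.th e]
    refine Finset.sum_congr ?_ fun _ _ => rfl
    ext x
    rw [mem_cl, Finset.mem_filter]
    constructor
    · rintro ⟨-, hx, hV⟩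
      have hl := vx_l h hV
      have h1 : K.cm.th.SameCycle x (K.f x) := K.f_same hl
      have h2 : M.th.SameCycle x (K.f x) := (vx_same h hV).2 h1
      have h3 : Vx M (K.f x) := (inv_same (R := Vx M) (vx_th h) h2).1 hV
      have h4 : M.c (K.f x) := (vx_c h h3).1 (K.f_is hl).1
      have h5 : EqvGen M.rel e (K.f x) :=
        ((hSx x).1 hx).trans _ _ _ (M.same_eqv h2)
      exact (h.cont _ h5 h4).trans h2.symm
    · intro hx
      refine ⟨Finset.mem_univ _, (hSx x).2 (M.same_eqv hx),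
        (inv_same (R := Vx M) (vx_th h) hx).1 (vx_of h.he)⟩
  -- the other vertices
  have hV0 : ∀ x, ¬ Vx M x → ∀ y, K.rot.SameCycle x y → M.th y = K.rot y := by
    intro x hx y hy
    rw [← h.rot] at hy ⊢
    exact M.th_nF fun hF => hx ⟨y, hy, (h.Fc y).1 hF⟩
  have hinv : ∀ x, (S (K.rot x) ∧ ¬ Vx M (K.rot x)) ↔ (S x ∧ ¬ Vx M x) := by
    intro x
    have h1 : Vx M (K.rot x) ↔ Vx M x := by
      rw [← h.rot]
      exact vx_rot x
    rw [h1]
    refine and_congr_left fun hV => ?_
    rw [← hV0 x hV x (SameCycle.refl _ _), hSx, hSx, s_th]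
  have hoth : ∑ x ∈ Finset.univ.filter (fun x => S x ∧ ¬ Vx M x), ((1 / 2 - vv K.rot x) -
      ((if K.cm.F x then 0 else 1 / 2) - K.om x)) = 0 := by
    have h5 := sum_avg K.rot (fun x => S x ∧ ¬ Vx M x) hinv (fun x => ((1 / 2 - vv K.rot x) -
      ((if K.cm.F x then 0 else 1 / 2) - K.om x)))
    simp only [vtx K, mul_zero, Finset.sum_const_zero] at h5
    convert h5
  have hth0 : ∑ x ∈ Finset.univ.filter (fun x => S x ∧ ¬ Vx M x), vv M.th x =
      ∑ x ∈ Finset.univ.filter (fun x => S x ∧ ¬ Vx M x), vv K.rot x := by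
    refine Finset.sum_congr rfl fun x hx => ?_
    exact vv_cong (hV0 x (Finset.mem_filter.1 hx).2.2)
  have hF0 : ∑ x ∈ Finset.univ.filter (fun x => S x ∧ ¬ Vx M x),
      (if M.F x then (0 : ℚ) else 1 / 2) =
      ∑ x ∈ Finset.univ.filter (fun x => S x ∧ ¬ Vx M x), (1 / 2 : ℚ) := by
    refine Finset.sum_congr rfl fun x hx => ?_
    rw [if_neg fun hF => (Finset.mem_filter.1 hx).2.2 (vx_of ((h.Fc x).1 hF))]
  have hF1 : ∑ x ∈ Finset.univ.filter (fun x => S x ∧ Vx M x),
      (if M.F x then (0 : ℚ) else 1 / 2) =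
      ∑ x ∈ Finset.univ.filter (fun x => S x ∧ Vx M x),
        ((if K.cm.F x then 0 else 1 / 2) - K.om x) := by
    refine Finset.sum_congr rfl fun x hx => ?_
    have hV := (Finset.mem_filter.1 hx).2.2
    have ho : K.om x = 0 := by
      unfold OMap.om
      rw [if_neg (vx_l h hV)]
    have hc : K.cm.F x ↔ M.F x := (vx_c h hV).trans (h.Fc x).symm
    rw [ho, sub_zero]
    by_cases hF : M.F x
    · rw [if_pos hF, if_pos (hc.2 hF)]
    · rw [if_neg hF, if_neg (fun h' => hF (hc.1 h'))]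
  -- the whole side
  have hmain : ∑ x ∈ Finset.univ.filter S, ((if K.cm.F x then 0 else 1 / 2) - K.om x) + 1 ≤
      ∑ x ∈ Finset.univ.filter S, vv K.cm.fc x := by
    rw [Finset.sum_sub_distrib, Finset.sum_add_distrib, hsplit (vv M.th),
      hsplit (fun x => if M.F x then (0 : ℚ) else 1 / 2), hcont, hth0, hF0, hF1] at heul
    rw [Finset.sum_sub_distrib, Finset.sum_sub_distrib] at hoth
    rw [hsplit (fun x => (if K.cm.F x then 0 else 1 / 2) - K.om x), fcK h]
    linarith
  -- the darts on the inner sides of the leaf circles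
  have hrg : ∀ f : D → ℚ, ∑ x ∈ Finset.univ.filter S, f x =
      ∑ x ∈ Finset.univ.filter (fun x => S x ∧ K.cm.Emp x), f x +
      ∑ x ∈ Finset.univ.filter (K.rg M e), f x := fun f => by
    have h1 : Finset.univ.filter (K.rg M e) =
        Finset.univ.filter (fun x => S x ∧ ¬ K.cm.Emp x) := by
      ext x
      rw [Finset.mem_filter, Finset.mem_filter, hSx]
      exact Iff.rfl
    rw [h1, ← Finset.filter_filter, ← Finset.filter_filter, Finset.sum_filter_add_sum_filter_not]
  have hE0 : ∑ x ∈ Finset.univ.filter (fun x => S x ∧ K.cm.Emp x),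
      ((if K.cm.F x then 0 else 1 / 2) - K.om x) = 0 := by
    refine Finset.sum_eq_zero fun x hx => ?_
    have hE := (Finset.mem_filter.1 hx).2.2
    have hF : K.cm.F x := hE x (SameCycle.refl _ _)
    have ho : K.om x = 0 := by
      unfold OMap.om
      rw [if_neg (K.c_ne hF)]
    rw [if_pos hF, ho, sub_zero]
  have hE1 : ∑ x ∈ Finset.univ.filter (fun x => S x ∧ K.cm.Emp x), vv K.cm.fc x =
      ∑ x ∈ Finset.univ.filter (fun x => S x ∧ K.cm.Emp x), vv K.cm.th x := by
    refine Finset.sum_congr rfl fun x hx => ?_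
    have hE := (Finset.mem_filter.1 hx).2.2
    refine vv_cong fun y hy => ?_
    rw [← K.cm.th_ga, K.cm.ga_F (hE y hy)]
  have hE2 : ∑ x ∈ Finset.univ.filter (fun x => S x ∧ K.cm.Emp x), vv K.cm.th x ≤
      ∑ x ∈ Finset.univ.filter (K.rg M e),
        (if K.cm.Lf x then vv K.cm.th (K.cm.inv x) else 0) := by
    rw [← Finset.sum_filter]
    have h1 : ∑ x ∈ Finset.univ.filter (fun x => S x ∧ K.cm.Emp x), vv K.cm.th x =
        ∑ x ∈ (Finset.univ.filter (fun x => S x ∧ K.cm.Emp x)).map K.inv.toEmbedding,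
          vv K.cm.th (K.cm.inv x) := by
      rw [Finset.sum_map]
      refine Finset.sum_congr rfl fun x _ => ?_
      show vv K.cm.th x = vv K.cm.th (K.inv (K.inv x))
      rw [K.inv_inv]
    rw [h1]
    refine Finset.sum_le_sum_of_subset_of_nonneg ?_ fun _ _ _ => (vv_pos _ _).le
    intro y hy
    rw [Finset.mem_map] at hy
    obtain ⟨x, hx, rfl⟩ := hy
    obtain ⟨-, hxS, hE⟩ := Finset.mem_filter.1 hx
    have hxS' := (hSx x).1 hxS
    have hk : K.c x := hE x (SameCycle.refl _ _)
    have hMc : ¬ M.c x := fun hc => ne_emp h hxS' hc hE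
    have hS2 : EqvGen M.rel e (K.inv x) := (s_inv h hMc).2 hxS'
    have hE' : ¬ K.cm.Emp (K.inv x) := fun h' => K.good.port x hk ⟨hE, h'⟩
    rw [Finset.mem_filter, Finset.mem_filter]
    refine ⟨⟨Finset.mem_univ _, hS2, hE'⟩, (K.c_inv x).2 hk, ?_⟩
    show K.cm.Emp (K.inv (K.inv x))
    rw [K.inv_inv]
    exact hE
  rw [hrg (fun x => (if K.cm.F x then 0 else 1 / 2) - K.om x), hrg (vv K.cm.fc), hE0, hE1,
    zero_add] at hmain
  rw [Finset.sum_sub_distrib]
  linarith

end Pool.Agent.Lib.MP_5854e1_co.Crc.Oct
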