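import Pool.Agent.Lib.MP_5854e1_co.Crc.OTri

/-!
# `K_{1,2,2,2}`: heights of the minimal side
-/

set_option autoImplicit false

open Equiv Equiv.Perm Relation

namespace Pool.Agent.Lib.MP_5854e1_co

namespace Crc.Oct

open Cg K7S

/-- the labelled map `K` and the map `B` of a cover with a relabelling and a minimal side -/
structure Lk {D : Type*} [Fintype D] [DecidableEq D] (K : OMap D) (B : Bs K1222 D)
    {σ : Perm (Fin 7)} (hσ : IsAut K1222 σ) (e : D) : Prop where
  rot : B.rot = K.rot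
  inv : B.inv = K.inv
  l : ∀ x, K.l x = ((B.rel hσ).lab x).1.val
  r : ∀ x, K.r x = ((B.rel hσ).lab x).2.val
  hpl : defect B.rot B.inv = 0
  he : B.Cand T0 hσ e
  min : ∀ (τ : Perm (Fin 7)) (hτ : IsAut K1222 τ) (f : D), B.Cand T0 hτ f →
      B.sz T0 hσ e ≤ B.sz T0 hτ f

variable {D : Type*} [Fintype D] [DecidableEq D] {K : OMap D} {B : Bs K1222 D}
  {σ : Perm (Fin 7)} {hσ : IsAut K1222 σ} {e : D}

namespace Lk

variable (L : Lk K B hσ e)

include L

theorem cK (x : D) : K.c x ↔ (B.rel hσ).On T0 x ∨ (B.rel hσ).On TU x := by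
  unfold OMap.c
  rw [L.l, L.r, ci_iff _ _ ((B.rel hσ).adj x)]
  exact Iff.rfl

theorem fc_eq : K.cm.fc = B.rot * B.inv := by
  rw [L.rot, L.inv]
  rfl

/-- a face over the circle labels is an empty contour -/
theorem emp_of {f : D} (h : ∀ y, (B.rot * B.inv).SameCycle f y → K.c y) : K.cm.Emp f := by
  intro y hy
  obtain ⟨i, -, rfl⟩ := sameCycle_iterate K.cm.th hy
  clear hy
  have key : ∀ i, (B.rot * B.inv).SameCycle f (K.cm.th^[i] f) := by
    intro i
    induction i with
    | zero => exact SameCycle.refl _ _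
    | succ i ih =>
      rw [Function.iterate_succ_apply', K.th_c (h _ ih)]
      refine ih.trans ⟨1, ?_⟩
      rw [zpow_one, L.rot, L.inv]
      rfl
  exact h _ (key i)

/-- the other circles of the two types in the side are faces -/
theorem leaf {x : D} (hx : EqvGen ((B.rel hσ).cmap T0 e).rel e x) (hc : K.c x)
    (hn : ¬ (B.rel hσ).Ci T0 e x) : K.cm.Emp x ∨ K.cm.Emp (K.inv x) := by
  have fin : ∀ (Z : Fin 7 → Prop), (∀ y, (B.rel hσ).On Z y → K.c y) →
      (∃ f, (f = x ∨ f = B.inv x) ∧ ∀ y, (B.rot * B.inv).SameCycle f y →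
        (B.rel hσ).Ci Z x y) → K.cm.Emp x ∨ K.cm.Emp (K.inv x) := by
    rintro Z hZ ⟨f, hf, hall⟩
    have h1 := L.emp_of (f := f) fun y hy => hZ y (hall y hy).1
    rcases hf with rfl | rfl
    · exact Or.inl h1
    · right
      rw [← L.inv]
      exact h1
  rcases (L.cK x).1 hc with h | h
  · refine fin T0 (fun y hy => (L.cK y).2 (Or.inl hy)) ?_
    refine B.facial0 tri_T0 L.hpl L.he L.min aut_one T0_ρ1 h ?_ hx
    intro y z hy hz hyz
    apply hn
    refine ⟨h, hy.2.trans _ _ _ ((EqvGen.rel _ _ ⟨hy.1, hz.1, Or.inr hyz⟩).trans _ _ _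
        (hz.2.symm _ _))⟩
  · refine fin TU (fun y hy => (L.cK y).2 (Or.inr hy)) ?_
    refine B.facial0 tri_T0 L.hpl L.he L.min aut_ρU T0_ρU h ?_ hx
    intro y z hy hz hyz
    have h1 : ((B.rel hσ).lab z).1 = ((B.rel hσ).lab y).1 := (B.rel hσ).src_same hyz
    have h2 : TU ((B.rel hσ).lab z).1 := hz.1.1
    rw [h1] at h2
    exact T0_TU _ hy.1.1 h2

theorem side : K.Side ((B.rel hσ).cmap T0 e) e := by
  have hone := (B.rel hσ).oneCircle tri_T0 L.he.1
  have hsep : ¬ EqvGen ((B.rel hσ).cmap T0 e).rel e (B.inv e) := hone.sep L.hpl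
  refine
    { rot := L.rot
      inv := L.inv
      Fc := fun _ => Iff.rfl
      he := hone.he
      cK := fun x hx => (L.cK x).2 (Or.inl hx.1)
      cx := ?_
      tz := fun x hx => by rw [L.l]; exact tz_T0 _ hx.1.1
      cont := ?_
      euler := ?_
      nonemp := L.he.2
      leaf := fun x hx hc hn => L.leaf hx hc hn }
  · intro x y hx hxy hy
    have h1 : ((B.rel hσ).lab y).1 = ((B.rel hσ).lab x).1 := (B.rel hσ).src_same hxy
    have hon : (B.rel hσ).On T0 y := by
      refine ((L.cK y).1 hy).resolve_right fun h => ?_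
      have h2 : TU ((B.rel hσ).lab y).1 := h.1
      rw [h1] at h2
      exact T0_TU _ hx.1.1 h2
    exact ⟨hon, hx.2.trans _ _ _ (EqvGen.rel _ _ ⟨hx.1, hon, Or.inr hxy⟩)⟩
  · intro x hx hcx
    refine (hone.two x hcx).resolve_right fun h => hsep ?_
    have h1 : EqvGen ((B.rel hσ).cmap T0 e).rel (B.inv e) x := CMap.same_eqv _ h
    exact hx.trans _ _ _ (h1.symm _ _)
  · convert hone.euler L.hpl e

omit L in
variable (B hσ e) in
/-- the heights -/
noncomputable def h (i : Fin 3) (x : D) : ℤ := (B.rel hσ).ht T0 (TV i) e (dV i) x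

/-- the change across any edge of the side -/
theorem h_inv (i : Fin 3) {x : D} (hx : EqvGen ((B.rel hσ).cmap T0 e).rel e x) :
    h B hσ e i (K.inv x) = h B hσ e i x - dl i.val (K.l x) (K.r x) := by
  rw [L.l, L.r, ← L.inv]
  by_cases hV : (B.rel hσ).On (TV i) x
  · by_cases hd : dV i ((B.rel hσ).lab x).1 ((B.rel hσ).lab x).2
    · have h1 := (B.rel hσ).ht_cross (d := dV i) tri_T0 (tri_TV i) (T0_TV i) L.he.1 L.hpl (dV1 i)
        (dV2 i) hx hV hd
      rw [dl_pos _ _ _ hd]
      show h B hσ e i (B.inv x) = _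
      unfold h
      have h2 : (B.rel hσ).inv x = B.inv x := rfl
      rw [h2] at h1
      linarith
    · have hd' : dV i ((B.rel hσ).lab x).2 ((B.rel hσ).lab x).1 := by
        by_contra h0
        exact hd ((dV1 i _ _ hV.1 hV.2 ((B.rel hσ).adj x).ne).2 h0)
      have hiV : (B.rel hσ).On (TV i) (B.inv x) := ((B.rel hσ).on_inv (TV i)).2 hV
      have hns : ¬ (B.rel hσ).Ci T0 e x := fun h0 => T0_TV i _ h0.1.1 hV.1
      have hix : EqvGen ((B.rel hσ).cmap T0 e).rel e (B.inv x) :=
        hx.trans _ _ _ ((B.rel hσ).rl_inv hns)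
      have h1 := (B.rel hσ).ht_cross (d := dV i) tri_T0 (tri_TV i) (T0_TV i) L.he.1 L.hpl (dV1 i)
        (dV2 i) hix hiV (by
          have h3 : (B.rel hσ).lab (B.inv x) = ((B.rel hσ).lab x).swap := (B.rel hσ).lab_inv x
          rw [h3]
          exact hd')
      have h2 : (B.rel hσ).inv (B.inv x) = x := B.inv_inv x
      rw [h2] at h1
      rw [dl_neg _ _ _ hd']
      unfold h
      linarith
  · have h1 : dl i.val ((B.rel hσ).lab x).1.val ((B.rel hσ).lab x).2.val = 0 := by
      by_contra h0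
      exact hV (dl_V i _ _ h0)
    rw [h1, sub_zero]
    exact (B.rel hσ).ht_inv (dV i) hV

theorem h_fc (i : Fin 3) (x : D) : h B hσ e i (K.cm.fc x) = h B hσ e i x := by
  rw [L.fc_eq]
  exact (B.rel hσ).ht_fc (dV i) x

omit L in
theorem h_e (i : Fin 3) : h B hσ e i e = 0 := (B.rel hσ).ht_e (dV i)

/-- zero on the contour of the exceptional circle -/
theorem h_zero (i : Fin 3) {x : D} (hx : ((B.rel hσ).cmap T0 e).th.SameCycle e x) :
    h B hσ e i x = 0 := by
  obtain ⟨n, -, rfl⟩ := sameCycle_iterate _ hx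
  clear hx
  have key : ∀ n, h B hσ e i (((B.rel hσ).cmap T0 e).th^[n] e) = 0 ∧
      T0 ((B.rel hσ).lab (((B.rel hσ).cmap T0 e).th^[n] e)).1 := by
    intro n
    induction n with
    | zero => exact ⟨h_e i, L.he.1.1⟩
    | succ n ih =>
      rw [Function.iterate_succ_apply']
      set y := ((B.rel hσ).cmap T0 e).th^[n] e with hy
      by_cases hF : ((B.rel hσ).cmap T0 e).F y
      · rw [CMap.th_F _ hF]
        have h1 := L.h_fc i y
        rw [L.fc_eq] at h1
        refine ⟨?_, ?_⟩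
        · show h B hσ e i (B.rot (B.inv y)) = 0
          rw [show B.rot (B.inv y) = (B.rot * B.inv) y from rfl, h1]
          exact ih.1
        · have hF' : (B.rel hσ).Ci T0 e y := hF
          show T0 ((B.rel hσ).lab ((B.rel hσ).rot ((B.rel hσ).inv y))).1
          rw [(B.rel hσ).src, (B.rel hσ).lab_inv]
          exact hF'.1.2
      · rw [CMap.th_nF _ hF]
        have hnV : ¬ (B.rel hσ).On (TV i) y := fun h0 => T0_TV i _ ih.2 h0.1
        refine ⟨?_, ?_⟩
        · have h1 := L.h_fc i (B.inv y)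
          rw [L.fc_eq] at h1
          have h2 : (B.rot * B.inv) (B.inv y) = B.rot y := by
            rw [Perm.mul_apply, B.inv_inv]
          rw [h2] at h1
          show h B hσ e i (B.rot y) = 0
          rw [h1]
          have h3 : h B hσ e i (B.inv y) = h B hσ e i y := (B.rel hσ).ht_inv (dV i) hnV
          rw [h3]
          exact ih.1
        · show T0 ((B.rel hσ).lab ((B.rel hσ).rot y)).1
          rw [(B.rel hσ).src]
          exact ih.2
  exact (key n).1

/-- the face of a dart over `TZ i` with height not zero -/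
theorem h_face (i : Fin 3) {x : D} (h0 : h B hσ e i x ≠ 0) (hx : (B.rel hσ).On (TZ i) x) :
    ∃ f, (f = x ∨ f = K.inv x) ∧ ∀ y, K.cm.fc.SameCycle f y → (B.rel hσ).On (TZ i) y := by
  obtain ⟨A, hA, hxA⟩ := (B.rel hσ).ht_ne h0
  obtain ⟨f, hf, hall⟩ := B.facial tri_T0 (tri_TV i) (T0_TV i) L.hpl L.he L.min (aut_ρZ i) (T0_ρZ i)
    (TZ_TV i) hA hxA hx
  refine ⟨f, ?_, fun y hy => (hall y ?_).1⟩
  · rw [← L.inv]
    exact hf
  · rw [← L.fc_eq]
    exact hy

end Lk

end Crc.Oct

end Pool.Agent.Lib.MP_5854e1_co
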