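import Pool.Agent.Lib.MP_5854e1_co.Crc.CgS
import Pool.Agent.Lib.MP_5854e1_co.Crc.OTReg

/-!
# `K_{1,2,2,2}`: reduction of the theorem to one region with heights
-/

set_option autoImplicit false

open Equiv Equiv.Perm Relation

namespace Pool.Agent.Lib.MP_5854e1_co

namespace Crc.Oct

open Cg K7S

variable {D : Type*} [Fintype D] [DecidableEq D] {K : OMap D} {B : Bs K1222 D}
  {σ : Perm (Fin 7)} {hσ : IsAut K1222 σ} {e : D}

/-- facial rule in terms of the codes (placeholder of `OFc`) -/
theorem fr_of {K : OMap D} {p q t : ℕ} {x : D} (hp : K.l x = p) (hq : K.r x = q)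
    (h : ∀ y, K.cm.fc.SameCycle x y → (K.l y = p ∨ K.l y = q ∨ K.l y = t) ∧
      (K.r y = p ∨ K.r y = q ∨ K.r y = t)) :
    fr p q (K.cd x) (K.cd (K.inv x)) t = true := by
  have hfc : ∀ y, K.cm.fc y = K.rot (K.inv y) := fun y => rfl
  have hpq : p ≠ q := by
    intro hpq
    have k := fct_use f_ad (K.cd_ok x) (K.ad_lr x)
    simp only [Bool.and_eq_true] at k
    have := ne_of_nbeq k.2
    rw [hp, hq] at this
    exact this hpq
  have hne : ∀ y, nt (K.l y) (K.cd y) (K.r y) ≠ K.r y := by
    intro y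
    have k := fct_use f_deg (K.cd_ok y) (K.ad_lr y)
    simp only [Bool.and_eq_true] at k
    exact ne_of_nbeq k.1.1.1.1
  have hlr : ∀ y, K.l y ≠ K.r y := by
    intro y
    have k := fct_use f_ad (K.cd_ok y) (K.ad_lr y)
    simp only [Bool.and_eq_true] at k
    exact ne_of_nbeq k.2
  unfold fr
  rw [Bool.and_eq_true, Nat.beq_eq, Nat.beq_eq]
  constructor
  · -- the next dart
    have h1 := h (K.cm.fc x) ⟨1, by simp⟩
    have e1 := K.r_rot (K.inv x)
    have e2 : K.l (K.cm.fc x) = q := by
      rw [hfc, K.l_rot]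
      exact hq
    have e3 : K.r (K.inv x) = p := by rw [K.r_inv, hp]
    have e4 : K.l (K.inv x) = q := hq
    rw [e3, e4] at e1
    have n1 := hne (K.inv x)
    rw [e3, e4] at n1
    have n2 := hlr (K.cm.fc x)
    rw [e2] at n2
    have h2 := h1.2
    have e5 : K.r (K.cm.fc x) = nt q (K.cd (K.inv x)) p := e1
    rw [e5] at h2 n2
    rcases h2 with h2 | h2 | h2
    · exact absurd h2 n1
    · exact absurd h2.symm n2
    · exact h2
  · obtain ⟨y, hy⟩ : ∃ y, K.cm.fc y = x := ⟨K.cm.fc.symm x, by simp⟩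
    have hs : K.cm.fc.SameCycle x y := (show K.cm.fc.SameCycle y x from ⟨1, by simpa using hy⟩).symm
    have h1 := (h y hs).1
    have e1 := K.r_rot (K.inv y)
    have e2 : K.rot (K.inv y) = x := hy
    rw [e2] at e1
    have e3 : K.l (K.inv y) = p := by
      have := K.l_rot (K.inv y)
      rw [e2, hp] at this
      exact this.symm
    have e4 : K.cd (K.inv y) = K.cd x := by
      have := K.cd_rot (K.inv y)
      rw [e2] at this
      exact this.symm
    rw [K.r_inv, e3, e4, hq] at e1
    have n1 : K.l y ≠ p := by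
      have := hlr y
      have e5 : K.r y = p := e3
      rw [e5] at this
      exact this
    have n2 : K.l y ≠ q := by
      have := hne (K.inv y)
      rw [K.r_inv, e3, e4, ← e1] at this
      exact fun h => this h.symm
    rcases h1 with h1 | h1 | h1
    · exact absurd h1 n1
    · exact absurd h1 n2
    · rw [← h1]
      exact e1.symm

theorem TZ_three : ∀ (i : Fin 3) (u v w s : Fin 7), TZ i u → TZ i v → TZ i w → u ≠ v → w ≠ u →
    w ≠ v → TZ i s → s = u ∨ s = v ∨ s = w := by decide

/-- the direction of the second circle -/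
def τU (u v : Fin 7) : ℤ := if (u = 2 ∧ v = 4) ∨ (u = 4 ∧ v = 6) ∨ (u = 6 ∧ v = 2) then 1
  else if (v = 2 ∧ u = 4) ∨ (v = 4 ∧ u = 6) ∨ (v = 6 ∧ u = 2) then -1 else 0

theorem TU_out : ∀ i, TU i → ∃ j, ¬ TU j ∧ K1222.Adj i j := by decide

theorem τU0 : ∀ i j, K1222.Adj i j → ¬ (TU i ∧ TU j) → τU i j = 0 := by decide

theorem τU1 : ∀ i j, τU j i = - τU i j := by decide

theorem τU2 : ∀ i j k, TU i → TU j → TU k → i ≠ j → j ≠ k → i ≠ k → τU i j = τU j k := by decide

theorem τU3 : ∀ i j, K1222.Adj i j → τU i j =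
    ∑ m : Fin 3, (if TV m i ∧ TV m j then (if dV m i j then 1 else -1) else 0) := by decide

namespace Lk

variable (L : Lk K B hσ e)

include L

theorem sum_h {x : D} (hx : K.rg ((B.rel hσ).cmap T0 e) e x) :
    h B hσ e 0 x + h B hσ e 1 x + h B hσ e 2 x = 0 := by
  have hnf : ¬ (B.rel hσ).FaceU TU x := fun hf =>
    hx.2 (L.emp_of fun y hy => (L.cK y).2 (Or.inr (hf y hy)))
  have h1 := (B.rel hσ).sum_ht (V := TV) (d := dV) (τ := τU) tri_T0 tri_TV T0_TV L.he.1 L.hpl
    dV1 dV2 tri_TU TU_out T0_TU τU0 τU1 τU2 (fun i j hij => by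
      rw [τU3 i j hij]
      refine Finset.sum_congr rfl fun m _ => ?_
      congr) (fun y hy hU => ?_) hx.1 hnf
  · rw [Fin.sum_univ_three] at h1
    exact h1
  · obtain ⟨f, hf, hall⟩ := B.facial0 tri_T0 L.hpl L.he L.min aut_ρU T0_ρU hU (by
      intro y z hy hz hyz
      have h1 : ((B.rel hσ).lab z).1 = ((B.rel hσ).lab y).1 := (B.rel hσ).src_same hyz
      have h2 : TU ((B.rel hσ).lab z).1 := hz.1.1
      rw [h1] at h2
      exact T0_TU _ hy.1.1 h2) hy
    rcases hf with rfl | rfl
    · exact Or.inl fun z hz => (hall z hz).1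
    · exact Or.inr fun z hz => (hall z hz).1

theorem treg : K.TReg (K.rg ((B.rel hσ).cmap T0 e) e) (h B hσ e) where
  reg := L.side.reg
  fc := fun i x _ => L.h_fc i x
  inv := fun i x hx => L.h_inv i hx.1
  zero := by
    rintro i x hx ⟨z, hz, hXz⟩
    have hreg := L.side.reg
    have hRz : K.rg ((B.rel hσ).cmap T0 e) e z := (inv_same hreg.th hz).1 hx
    -- `z` is on the circle of `e`
    have hcz : (B.rel hσ).Ci T0 e z := by
      by_contra hn
      rcases L.leaf hRz.1 hXz.1 hn with h1 | h1
      · exact hRz.2 h1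
      · exact hXz.2 h1
    have he : K.rg ((B.rel hσ).cmap T0 e) e e := L.side.mem
    have hez := L.side.cont z hRz.1 hcz
    -- the two contours agree
    have key : ∀ n, K.cm.th^[n] e = ((B.rel hσ).cmap T0 e).th^[n] e ∧
        T0 ((B.rel hσ).lab (((B.rel hσ).cmap T0 e).th^[n] e)).1 ∧
        (∀ y, (B.rel hσ).On T0 y → B.rot.SameCycle (((B.rel hσ).cmap T0 e).th^[n] e) y →
          (B.rel hσ).Ci T0 e y) := by
      intro n
      induction n with
      | zero =>
        refine ⟨rfl, L.he.1.1, fun y hy hs => ⟨hy, EqvGen.rel _ _ ⟨L.he.1, hy, Or.inr hs⟩⟩⟩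
      | succ n ih =>
        rw [Function.iterate_succ_apply', Function.iterate_succ_apply', ih.1]
        set y := ((B.rel hσ).cmap T0 e).th^[n] e with hy
        by_cases hF : (B.rel hσ).Ci T0 e y
        · have hF' : ((B.rel hσ).cmap T0 e).F y := hF
          have hc : K.c y := (L.cK y).2 (Or.inl hF.1)
          rw [CMap.th_F _ hF', K.th_c hc]
          refine ⟨by rw [← L.rot, ← L.inv]; rfl, ?_, ?_⟩
          · show T0 ((B.rel hσ).lab ((B.rel hσ).rot ((B.rel hσ).inv y))).1
            rw [(B.rel hσ).src, (B.rel hσ).lab_inv]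
            exact hF.1.2
          · intro w hw hs
            have hi : (B.rel hσ).Ci T0 e (B.inv y) := ((B.rel hσ).ci_inv T0).2 hF
            have hs' : (B.rel hσ).rot.SameCycle (B.inv y) w := by
              refine SameCycle.trans ?_ hs
              exact ⟨1, by rw [zpow_one]; rfl⟩
            exact ⟨hw, hi.2.trans _ _ _ (EqvGen.rel _ _ ⟨hi.1, hw, Or.inr hs'⟩)⟩
        · have hF' : ¬ ((B.rel hσ).cmap T0 e).F y := hF
          have hc : ¬ K.c y := by
            intro hc
            rcases (L.cK y).1 hc with h1 | h1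
            · exact hF (ih.2.2 y h1 (SameCycle.refl _ _))
            · exact T0_TU _ ih.2.1 h1.1
          rw [CMap.th_nF _ hF', K.th_n hc]
          refine ⟨by rw [← L.rot]; rfl, ?_, ?_⟩
          · show T0 ((B.rel hσ).lab ((B.rel hσ).rot y)).1
            rw [(B.rel hσ).src]
            exact ih.2.1
          · intro w hw hs
            refine ih.2.2 w hw ?_
            exact SameCycle.trans ⟨1, by rw [zpow_one]; rfl⟩ hs
    have hconv : ∀ y, K.cm.th.SameCycle e y → ((B.rel hσ).cmap T0 e).th.SameCycle e y := by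
      intro y hy
      obtain ⟨n, -, rfl⟩ := sameCycle_iterate _ hy
      rw [(key n).1]
      exact ⟨(n : ℕ), by rw [zpow_natCast, Equiv.Perm.coe_pow]⟩
    have hconv' : ∀ y, ((B.rel hσ).cmap T0 e).th.SameCycle e y → K.cm.th.SameCycle e y := by
      intro y hy
      obtain ⟨n, -, rfl⟩ := sameCycle_iterate _ hy
      rw [← (key n).1]
      exact ⟨(n : ℕ), by rw [zpow_natCast, Equiv.Perm.coe_pow]⟩
    exact L.h_zero i (hconv x ((hconv' z hez).trans hz.symm))
  sum := fun x hx => L.sum_h hx
  face := by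
    intro i x t hx h0 h1 h2 h3 h4 h5
    have hxZ : (B.rel hσ).On (TZ i) x := by
      refine ⟨?_, ?_⟩
      · show zt i.val _ = true
        rw [← L.l]
        exact h1
      · show zt i.val _ = true
        rw [← L.r]
        exact h2
    have ht : t < 7 := by
      by_contra h7
      have : zt i.val t = false := by
        unfold zt
        have e1 : ∀ k, k < 7 → Nat.beq t k = false := fun k hk => by
          rw [Bool.eq_false_iff, Ne, Nat.beq_eq]
          omega
        rw [e1 1 (by omega), e1 2 (by omega), e1 3 (by omega), e1 4 (by omega), e1 5 (by omega),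
          e1 6 (by omega)]
        split_ifs <;> rfl
      rw [this] at h3
      exact absurd h3 (by decide)
    obtain ⟨f, hf, hall⟩ := L.h_face i h0 hxZ
    have hne : ((B.rel hσ).lab x).1 ≠ ((B.rel hσ).lab x).2 := ((B.rel hσ).adj x).ne
    have hthree : ∀ s : Fin 7, TZ i s → s.val = K.l x ∨ s.val = K.r x ∨ s.val = t := by
      intro s hs
      have := TZ_three i ((B.rel hσ).lab x).1 ((B.rel hσ).lab x).2 ⟨t, ht⟩ s hxZ.1 hxZ.2 h3 hne
        (fun h => h4 (by rw [L.l, ← h])) (fun h => h5 (by rw [L.r, ← h])) hs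
      rw [L.l, L.r]
      rcases this with h | h | h
      · exact Or.inl (by rw [h])
      · exact Or.inr (Or.inl (by rw [h]))
      · exact Or.inr (Or.inr (by rw [h]))
    rcases hf with rfl | rfl
    · left
      refine fr_of rfl rfl fun y hy => ?_
      have h6 := hall y hy
      rw [L.l y, L.r y]
      exact ⟨hthree _ h6.1, hthree _ h6.2⟩
    · right
      have h7 := fr_of (K := K) (p := K.r x) (q := K.l x) (t := t) (x := K.inv x) rfl
        (K.r_inv x) (fun y hy => by
          have h6 := hall y hy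
          rw [L.l y, L.r y]
          have a1 := hthree _ h6.1
          have a2 := hthree _ h6.2
          exact ⟨by tauto, by tauto⟩)
      rw [K.inv_inv] at h7
      exact h7

end Lk

end Crc.Oct

open Classical in
open Crc Crc.Oct in
/-- the statement about one region with heights which excludes finite planar covers -/
def Crc.Oct.NoTRegion : Prop :=
  ∀ (D : Type) [Fintype D] [DecidableEq D] (K : OMap D) (R : D → Prop) (h : Fin 3 → D → ℤ),
    K.TReg R h → (∃ x, R x) →
    ∑ x ∈ Finset.univ.filter R, ((if K.cm.F x then 0 else 1 / 2) - K.om x -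
      (if K.cm.Lf x then vv K.cm.th (K.cm.inv x) else 0)) <
      ∑ x ∈ Finset.univ.filter R, vv K.cm.fc x → False

open Crc Crc.Oct Crc.Cg in
/-- **Reduction to one region with heights.** -/
theorem K1222_noCover_ofT (hno : NoTRegion) : ¬ HasPlanarCover K1222 := by
  classical
  rintro ⟨n, H, φ, hs, hφ, hpl⟩
  obtain ⟨rot, hrot, hdef⟩ := hpl.defect_eq
  have hD : Fintype H.Dart := Fintype.ofFinite _
  have hfst : ∀ x, (rot x).fst = x.fst := fun x => ((hrot x (rot x)).1 ⟨1, by simp⟩).symm
  set B : Bs K1222 H.Dart :=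
    { rot := rot
      inv := flip H
      lab := fun d => (φ d.fst, φ d.snd)
      inv_inv := fun d => d.symm_symm
      inv_ne := fun d => d.symm_ne
      lab_inv := fun d => rfl
      adj := fun d => hφ.adj d.adj
      src := fun d => congrArg φ (hfst d)
      inj := fun d d' h h' => by
        refine hφ.dart_inj ((hrot _ _).1 h) ?_
        exact SimpleGraph.Dart.ext _ _ (Prod.ext (congrArg φ ((hrot _ _).1 h)) h')
      surj := fun d j hj => by
        obtain ⟨d', h1, h2⟩ := hφ.dart_surj d.fst ⟨(φ d.fst, j), hj⟩ rfl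
        exact ⟨d', (hrot _ _).2 h1.symm, congrArg (fun e : K1222.Dart => e.snd) h2⟩ } with hB
  -- a candidate
  have hcand : ∃ e, B.Cand T0 aut_one e := by
    obtain ⟨w, hw⟩ := hs 1
    obtain ⟨d, hd, hd2⟩ := hφ.dart_surj w ⟨(φ w, 3), by rw [hw]; decide⟩ rfl
    obtain ⟨g, hg, hg2⟩ := hφ.dart_surj w ⟨(φ w, 0), by rw [hw]; decide⟩ rfl
    have hd2' : φ d.snd = 3 := congrArg (fun e : K1222.Dart => e.snd) hd2
    have hg2' : φ g.snd = 0 := congrArg (fun e : K1222.Dart => e.snd) hg2
    have hdg : rot.SameCycle d g := (hrot _ _).2 (hd.trans hg.symm)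
    obtain ⟨a, ha, ha1, ha2⟩ : ∃ a, rot.SameCycle d a ∧ T0 (φ a.snd) ∧
        ¬ T0 (φ (rot a).snd) := by
      by_contra hno
      push Not at hno
      have key : ∀ i, T0 (φ (rot^[i] d).snd) := by
        intro i
        induction i with
        | zero =>
          show T0 (φ d.snd)
          rw [hd2']
          decide
        | succ i ih =>
          rw [Function.iterate_succ_apply']
          exact hno _ ⟨(i : ℕ), by rw [zpow_natCast, Equiv.Perm.coe_pow]⟩ ih
      obtain ⟨i, -, hi⟩ := sameCycle_iterate rot hdg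
      have := key i
      rw [hi, hg2'] at this
      exact absurd this (by decide)
    refine ⟨_, B.cand_of T0 (a := a) ⟨?_, ha1⟩ ha2⟩
    show T0 (φ a.fst)
    have h1 : d.fst = a.fst := (hrot _ _).1 ha
    rw [← h1, hd, hw]
    decide
  obtain ⟨σ, hσ, e, he, hmin⟩ := B.exists_min T0 hcand
  set K := ofCover (aut_cover hφ hσ) rot hrot with hK
  have L : Lk K B hσ e :=
    { rot := rfl
      inv := rfl
      l := fun _ => rfl
      r := fun _ => rfl
      hpl := hdef
      he := he
      min := hmin }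
  refine hno H.Dart K _ _ L.treg ⟨e, L.side.mem⟩ ?_
  convert L.side.count

end Pool.Agent.Lib.MP_5854e1_co
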