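import Pool.Agent.Lib.MP_5854e1_co.Crc.CgF
import Pool.Agent.Lib.MP_5854e1_co.Crc.OCov
import Pool.Agent.Lib.MP_5854e1_co.Crc.OSide

/-!
# `K_{1,2,2,2}`: the region of the minimal side, with heights
-/

set_option autoImplicit false

open Equiv Equiv.Perm Relation

namespace Pool.Agent.Lib.MP_5854e1_co

namespace Crc.Oct

open Cg

/-- the first label of the triangle `i` of hub type after `0` -/
def hP (i : ℕ) : ℕ := if Nat.beq i 0 then 2 else if Nat.beq i 1 then 4 else 6

/-- the second label of the triangle `i` -/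
def hQ (i : ℕ) : ℕ := if Nat.beq i 0 then 4 else if Nat.beq i 1 then 6 else 2

/-- `u → v` is a step of the cycle `0 → P → Q → 0` -/
def up (i u v : ℕ) : Bool := (Nat.beq u 0 && Nat.beq v (hP i)) ||
  (Nat.beq u (hP i) && Nat.beq v (hQ i)) || (Nat.beq u (hQ i) && Nat.beq v 0)

/-- the change of the height `i` across an edge -/
def dl (i u v : ℕ) : ℤ := if up i u v then 1 else if up i v u then -1 else 0

/-- the octahedral triangle without a label of the triangle `i` and of the first circle -/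
def zt (i u : ℕ) : Bool :=
  if Nat.beq i 0 then Nat.beq u 1 || Nat.beq u 3 || Nat.beq u 6
  else if Nat.beq i 1 then Nat.beq u 3 || Nat.beq u 5 || Nat.beq u 2
  else Nat.beq u 5 || Nat.beq u 1 || Nat.beq u 4

/-- a dart from `p` (code `a`) to `q` (code `b`) runs along a face over the triangle `p q t` -/
def fr (p q a b t : ℕ) : Bool := Nat.beq (nt q b p) t && Nat.beq (nt p a t) q

/-- the region with its heights -/
structure OMap.TReg {D : Type*} (K : OMap D) (R : D → Prop) (h : Fin 3 → D → ℤ) : Prop where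
  reg : K.Reg R
  fc : ∀ i x, R x → h i (K.cm.fc x) = h i x
  inv : ∀ i x, R x → h i (K.inv x) = h i x - dl i.val (K.l x) (K.r x)
  zero : ∀ i x, R x → K.isX x → h i x = 0
  sum : ∀ x, R x → h 0 x + h 1 x + h 2 x = 0
  face : ∀ i x t, R x → h i x ≠ 0 → zt i.val (K.l x) = true → zt i.val (K.r x) = true →
    zt i.val t = true → t ≠ K.l x → t ≠ K.r x →
    fr (K.l x) (K.r x) (K.cd x) (K.cd (K.inv x)) t = true ∨
    fr (K.r x) (K.l x) (K.cd (K.inv x)) (K.cd x) t = true

/-- the triangle `1 3 5` -/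
def T0 (u : Fin 7) : Prop := u = 1 ∨ u = 3 ∨ u = 5

/-- the triangle `2 4 6` -/
def TU (u : Fin 7) : Prop := u = 2 ∨ u = 4 ∨ u = 6

/-- the triangles of hub type -/
def TV (i : Fin 3) (u : Fin 7) : Prop := u.val = 0 ∨ u.val = hP i.val ∨ u.val = hQ i.val

/-- the direction -/
def dV (i : Fin 3) (u v : Fin 7) : Prop := up i.val u.val v.val = true

/-- the octahedral triangles of the facial rule -/
def TZ (i : Fin 3) (u : Fin 7) : Prop := zt i.val u.val = true

instance : DecidablePred T0 := fun _ => inferInstanceAs (Decidable (_ ∨ _))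
instance : DecidablePred TU := fun _ => inferInstanceAs (Decidable (_ ∨ _))
instance (i : Fin 3) : DecidablePred (TV i) := fun _ => inferInstanceAs (Decidable (_ ∨ _))
instance (i : Fin 3) (u v : Fin 7) : Decidable (dV i u v) := inferInstanceAs (Decidable (_ = _))
instance (i : Fin 3) : DecidablePred (TZ i) := fun _ => inferInstanceAs (Decidable (_ = _))

theorem tri_T0 : Tri K1222 T0 := ⟨1, 3, 5, by decide, by decide, by decide, by decide, by decide,
  by decide, fun _ => Iff.rfl⟩

theorem tri_TU : Tri K1222 TU := ⟨2, 4, 6, by decide, by decide, by decide, by decide, by decide,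
  by decide, fun _ => Iff.rfl⟩

theorem tri_TV (i : Fin 3) : Tri K1222 (TV i) := by
  fin_cases i
  · exact ⟨0, 2, 4, by decide, by decide, by decide, by decide, by decide, by decide, by decide⟩
  · exact ⟨0, 4, 6, by decide, by decide, by decide, by decide, by decide, by decide, by decide⟩
  · exact ⟨0, 6, 2, by decide, by decide, by decide, by decide, by decide, by decide, by decide⟩

theorem T0_TV : ∀ (i : Fin 3) (u : Fin 7), T0 u → ¬ TV i u := by decide

theorem T0_TU : ∀ u : Fin 7, T0 u → ¬ TU u := by decide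

theorem TZ_TV : ∀ (i : Fin 3) (u : Fin 7), TZ i u → ¬ TV i u := by decide

theorem dV1 : ∀ (i : Fin 3) (u v : Fin 7), TV i u → TV i v → u ≠ v →
    (dV i u v ↔ ¬ dV i v u) := by decide

theorem dV2 : ∀ (i : Fin 3) (u v w : Fin 7), TV i u → TV i v → TV i w → u ≠ v → v ≠ w → u ≠ w →
    (dV i u v ↔ dV i v w) := by decide

theorem dl_V : ∀ (i : Fin 3) (u v : Fin 7), dl i.val u.val v.val ≠ 0 → TV i u ∧ TV i v := by
  decide

theorem dl_pos : ∀ (i : Fin 3) (u v : Fin 7), dV i u v → dl i.val u.val v.val = 1 := by decide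

theorem dl_neg : ∀ (i : Fin 3) (u v : Fin 7), dV i v u → dl i.val u.val v.val = -1 := by decide

/-- the automorphism which maps `TZ i` to `T0` -/
def ρZ (i : Fin 3) : Perm (Fin 7) :=
  if i.val = 0 then swap 5 6 else if i.val = 1 then swap 1 2 else swap 3 4

/-- the automorphism which maps `TU` to `T0` -/
def ρU : Perm (Fin 7) := swap 1 2 * (swap 3 4 * swap 5 6)

instance : DecidableRel K1222.Adj := by
  intro a b
  unfold K1222
  infer_instance

theorem aut_ρZ : ∀ i : Fin 3, IsAut K1222 (ρZ i) := by decide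

theorem aut_ρU : IsAut K1222 ρU := by decide

theorem T0_ρZ : ∀ (i : Fin 3) (u : Fin 7), T0 (ρZ i u) ↔ TZ i u := by decide

theorem T0_ρU : ∀ u : Fin 7, T0 (ρU u) ↔ TU u := by decide

theorem T0_ρ1 : ∀ u : Fin 7, T0 ((1 : Perm (Fin 7)) u) ↔ T0 u := fun _ => Iff.rfl

theorem ci_iff : ∀ u v : Fin 7, K1222.Adj u v →
    (ci u.val v.val = true ↔ (T0 u ∧ T0 v) ∨ (TU u ∧ TU v)) := by decide

theorem tz_T0 : ∀ u : Fin 7, T0 u → tz u.val = true := by decide

theorem aut_cover {W : Type*} {H : SimpleGraph W} {φ : W → Fin 7} (hφ : IsCover H K1222 φ)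
    {σ : Perm (Fin 7)} (hσ : IsAut K1222 σ) : IsCover H K1222 (fun w => σ (φ w)) := by
  intro v
  have h1 : Set.BijOn σ (K1222.neighborSet (φ v)) (K1222.neighborSet (σ (φ v))) := by
    refine ⟨fun u hu => (hσ _ _).2 hu, fun u _ w _ h => σ.injective h, fun w hw => ?_⟩
    refine ⟨σ.symm w, ?_, σ.apply_symm_apply w⟩
    have hw' : K1222.Adj (σ (φ v)) w := hw
    rw [← σ.apply_symm_apply w, hσ] at hw'
    exact hw'
  exact h1.comp (hφ v)

end Crc.Oct

end Pool.Agent.Lib.MP_5854e1_co
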