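import Pool.Agent.Lib.MP_5854e1_co.Crc.CycSum
import Pool.Agent.Lib.MP_5854e1_co.Planar

/-!
# The circle method for planar maps

In a combinatorial map `(rot, inv)` some edges (the set `F`) are contracted; the components of `F`
are trees (nodes) and disjoint circles (`c` is the set of their darts).  The cycles of
`th = rot ∘ (inv on F)` are the contours of the nodes and the sides of the circles, the cycles of
`fc = rot ∘ inv` are the faces, `ga` is `inv` outside `F`.  A region is an orbit of `⟨th, ga⟩`.

`exists_region`: if the map has positive Euler characteristic, then there is a region in which all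
circles but at most one have an empty face on the other side, and which has more faces than
edges - nodes - (these circles).
-/

set_option autoImplicit false

open Equiv Equiv.Perm

namespace Pool.Agent.Lib.MP_5854e1_co.Crc

variable {D : Type*} [Fintype D] [DecidableEq D]

/-- `inv` on `P`, the identity elsewhere -/
noncomputable def onP (inv : Perm D) (P : D → Prop) (h1 : ∀ x, inv (inv x) = x)
    (h2 : ∀ x, P (inv x) ↔ P x) : Perm D := by
  classical
  exact
  { toFun := fun x => if P x then inv x else x
    invFun := fun x => if P x then inv x else x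
    left_inv := fun x => by
      by_cases hx : P x
      · simp only [if_pos hx, if_pos ((h2 x).2 hx), h1]
      · simp only [if_neg hx]
    right_inv := fun x => by
      by_cases hx : P x
      · simp only [if_pos hx, if_pos ((h2 x).2 hx), h1]
      · simp only [if_neg hx] }

omit [Fintype D] [DecidableEq D] in
theorem onP_pos {inv : Perm D} {P : D → Prop} {h1 h2} {x : D} (hx : P x) :
    onP inv P h1 h2 x = inv x := by
  classical
  simp [onP, hx]

omit [Fintype D] [DecidableEq D] in
theorem onP_neg {inv : Perm D} {P : D → Prop} {h1 h2} {x : D} (hx : ¬ P x) :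
    onP inv P h1 h2 x = x := by
  classical
  simp [onP, hx]

/-- a combinatorial map with contracted edges -/
structure CMap (D : Type*) where
  /-- next dart at the vertex -/
  rot : Perm D
  /-- the other dart of the edge -/
  inv : Perm D
  /-- contracted darts -/
  F : D → Prop
  /-- darts on circles -/
  c : D → Prop
  inv_inv : ∀ x, inv (inv x) = x
  inv_ne : ∀ x, inv x ≠ x
  F_inv : ∀ x, F (inv x) ↔ F x
  c_inv : ∀ x, c (inv x) ↔ c x
  c_F : ∀ x, c x → F x

namespace CMap

variable (M : CMap D)

omit [Fintype D] [DecidableEq D] in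
theorem nF_inv (x : D) : (¬ M.F (M.inv x)) ↔ ¬ M.F x := not_congr (M.F_inv x)

/-- next dart on the contour of the contracted component -/
noncomputable def th : Perm D := M.rot * onP M.inv M.F M.inv_inv M.F_inv

/-- the other dart of the edge, for edges which are not contracted -/
noncomputable def ga : Perm D := onP M.inv (fun x => ¬ M.F x) M.inv_inv M.nF_inv

/-- the face permutation -/
def fc : Perm D := M.rot * M.inv

omit [Fintype D] [DecidableEq D] in
theorem th_F {x : D} (hx : M.F x) : M.th x = M.rot (M.inv x) := by
  rw [th, Perm.mul_apply, onP_pos hx]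

omit [Fintype D] [DecidableEq D] in
theorem th_nF {x : D} (hx : ¬ M.F x) : M.th x = M.rot x := by
  rw [th, Perm.mul_apply, onP_neg hx]

omit [Fintype D] [DecidableEq D] in
theorem ga_F {x : D} (hx : M.F x) : M.ga x = x := by
  rw [ga, onP_neg (P := fun x => ¬ M.F x) (not_not.2 hx)]

omit [Fintype D] [DecidableEq D] in
theorem ga_nF {x : D} (hx : ¬ M.F x) : M.ga x = M.inv x := by
  rw [ga, onP_pos (P := fun x => ¬ M.F x) hx]

omit [Fintype D] [DecidableEq D] in
theorem ga_ga (x : D) : M.ga (M.ga x) = x := by
  by_cases hx : M.F x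
  · rw [M.ga_F hx, M.ga_F hx]
  · rw [M.ga_nF hx, M.ga_nF ((M.nF_inv x).2 hx), M.inv_inv]

omit [Fintype D] [DecidableEq D] in
theorem th_ga (x : D) : M.th (M.ga x) = M.fc x := by
  rw [fc, Perm.mul_apply]
  by_cases hx : M.F x
  · rw [M.ga_F hx, M.th_F hx]
  · rw [M.ga_nF hx, M.th_nF ((M.nF_inv x).2 hx)]

omit [Fintype D] [DecidableEq D] in
theorem th_mul_ga : M.th * M.ga = M.fc := by
  ext x
  rw [Perm.mul_apply, M.th_ga]

/-- the side of `x` (the contour through `x`) is empty: it has no dart outside `F` -/
def Emp (x : D) : Prop := ∀ y, M.th.SameCycle x y → M.F y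

/-- `x` lies on a circle whose other side is empty -/
def Lf (x : D) : Prop := M.c x ∧ M.Emp (M.inv x)

/-- `x` lies on a circle whose other side is not empty -/
def Xc (x : D) : Prop := M.c x ∧ ¬ M.Emp (M.inv x)

omit [Fintype D] [DecidableEq D] in
theorem emp_same {x y : D} (h : M.th.SameCycle x y) : M.Emp x ↔ M.Emp y :=
  ⟨fun hx z hz => hx z (h.trans hz), fun hx z hz => hx z (h.symm.trans hz)⟩

/-- the hypotheses on the contracted components; `ω` is the weight of the nodes -/
structure Good (ω : D → ℚ) : Prop where
  node : ∀ x, (∀ y, M.th.SameCycle x y → ¬ M.c y) →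
    (∑ y ∈ cl M.th x, ω y = 1) ∧ ¬ M.Emp x
  circ : ∀ x, M.c x → ∀ y, M.th.SameCycle x y → (M.F y → M.c y) ∧ ω y = 0
  same : ∀ x y, M.c x → M.c y → M.th.SameCycle x y → M.th.SameCycle (M.inv x) (M.inv y)
  port : ∀ x, M.c x → ¬ (M.Emp x ∧ M.Emp (M.inv x))

end CMap

end Pool.Agent.Lib.MP_5854e1_co.Crc
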