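import Pool.Agent.Lib.MP_5854e1_co.Crc.Region

/-!
# Existence of the region
-/

set_option autoImplicit false

open Equiv Equiv.Perm

namespace Pool.Agent.Lib.MP_5854e1_co.Crc

variable {D : Type*} [Fintype D] [DecidableEq D]

namespace CMap

variable (M : CMap D)

/-- the relation generating the regions -/
def rel (x y : D) : Prop := M.th x = y ∨ M.ga x = y

omit [Fintype D] [DecidableEq D] in
open Relation in
theorem same_eqv {x y : D} (h : M.th.SameCycle x y) [Finite D] : EqvGen M.rel x y :=
  ((eqvGen_iff_sameCycle M.th x y).2 h).mono fun _ _ h => Or.inl h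

omit [Fintype D] [DecidableEq D] in
open Relation in
/-- without darts outside `F` the orbit is one cycle -/
theorem eqv_emp {x y : D} (hx : M.Emp x) (h : EqvGen M.rel x y) : M.th.SameCycle x y := by
  have key : ∀ a b, EqvGen M.rel a b → (M.Emp a → M.th.SameCycle a b) ∧
      (M.Emp b → M.th.SameCycle a b) := by
    intro a b hab
    induction hab with
    | rel a b hab =>
      rcases hab with hab | hab
      · have : M.th.SameCycle a b := by rw [← hab]; exact ⟨1, by simp⟩
        exact ⟨fun _ => this, fun _ => this⟩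
      · refine ⟨fun ha => ?_, fun hb => ?_⟩
        · rw [M.ga_F (ha a (SameCycle.refl _ _))] at hab
          rw [hab]
        · have hb2 : M.F b := hb b (SameCycle.refl _ _)
          have : M.F a := by
            by_contra ha
            rw [M.ga_nF ha] at hab
            rw [← hab] at hb2
            exact ha ((M.F_inv a).1 hb2)
          rw [M.ga_F this] at hab
          rw [hab]
    | refl a => exact ⟨fun _ => SameCycle.refl _ _, fun _ => SameCycle.refl _ _⟩
    | symm a b _ ih => exact ⟨fun h => (ih.2 h).symm, fun h => (ih.1 h).symm⟩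
    | trans a b c _ _ ih1 ih2 =>
      refine ⟨fun h => ?_, fun h => ?_⟩
      · have h1 := ih1.1 h
        exact h1.trans (ih2.1 ((M.emp_same h1).1 h))
      · have h1 := ih2.2 h
        exact (ih1.2 ((M.emp_same h1).2 h)).trans h1
  exact (key x y h).1 hx

open Classical in
/-- the charge of the global count -/
noncomputable def chg (ω : D → ℚ) (x : D) : ℚ :=
  (if M.F x then 0 else 1 / 2) - ω x + (if M.c x ∧ M.Emp x then vv M.th x else 0) -
    (if M.Lf x then vv M.th (M.inv x) else 0) - vv M.fc x

open Classical in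
theorem sum_chg (ω : D → ℚ) : ∑ x, M.chg ω x =
    ∑ x, ((if M.F x then 0 else 1 / 2) - ω x) - cyc M.fc := by
  have h1 : ∑ x, (if M.Lf x then vv M.th (M.inv x) else 0) =
      ∑ x, (if M.c x ∧ M.Emp x then vv M.th x else 0) := by
    refine Fintype.sum_equiv M.inv _ _ fun x => ?_
    unfold Lf
    by_cases h : M.c x ∧ M.Emp (M.inv x)
    · rw [if_pos h, if_pos ⟨(M.c_inv x).2 h.1, h.2⟩]
    · rw [if_neg h, if_neg (fun h' => h ⟨(M.c_inv x).1 h'.1, h'.2⟩)]
  unfold chg
  rw [Finset.sum_sub_distrib, Finset.sum_sub_distrib, Finset.sum_add_distrib, h1, cyc_eq_vv]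
  ring

open Classical in
/-- an empty side has total charge zero -/
theorem sum_chg_emp {ω : D → ℚ} (hg : M.Good ω) (x : D) (hx : M.Emp x) :
    ∑ y ∈ cl M.th x, M.chg ω y = 0 := by
  have hc : M.c x := by
    by_contra hc
    have h1 : ∃ y, M.th.SameCycle x y ∧ M.c y := by
      by_contra hno
      push Not at hno
      exact (hg.node x hno).2 hx
    obtain ⟨y, hy, hcy⟩ := h1
    exact hc ((hg.circ y hcy x hy.symm).1 (hx x (SameCycle.refl _ _)))
  have hfc : ∀ y, M.th.SameCycle x y → M.fc y = M.th y := by
    intro y hy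
    rw [← M.th_ga, M.ga_F (hx y hy)]
  have hv : ∀ y, M.th.SameCycle x y → vv M.fc y = vv M.th y := by
    intro y hy
    have hit : ∀ i, (M.fc)^[i] y = (M.th)^[i] y := by
      intro i
      induction i with
      | zero => rfl
      | succ i ih =>
        rw [Function.iterate_succ_apply', Function.iterate_succ_apply', ih]
        exact hfc _ (hy.trans ⟨i, by rw [zpow_natCast, Equiv.Perm.coe_pow]⟩)
    unfold vv
    congr 2
    apply Nat.dvd_antisymm
    · apply Function.IsPeriodicPt.minimalPeriod_dvd
      show (M.fc)^[_] y = y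
      rw [hit]
      exact Function.isPeriodicPt_minimalPeriod _ _
    · apply Function.IsPeriodicPt.minimalPeriod_dvd
      show (M.th)^[_] y = y
      rw [← hit]
      exact Function.isPeriodicPt_minimalPeriod _ _
  have h1 : ∀ y ∈ cl M.th x, M.chg ω y = 0 := by
    intro y hy
    rw [mem_cl] at hy
    have hF := hx y hy
    have hcy : M.c y := ((hg.circ x hc y hy).1 hF)
    have hE : M.Emp y := (M.emp_same hy).1 hx
    have hE' : ¬ M.Emp (M.inv y) := fun h => hg.port y hcy ⟨hE, h⟩
    unfold chg
    rw [if_pos hF, (hg.circ x hc y hy).2, if_pos ⟨hcy, hE⟩,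
      if_neg (show ¬ M.Lf y from fun h => hE' h.2), hv y hy]
    ring
  exact Finset.sum_eq_zero h1

end CMap

/-! ### the Euler characteristic of a region -/

section sub

variable (σ : Perm D) (R : D → Prop) (hR : ∀ x, R (σ x) ↔ R x)

omit [Fintype D] [DecidableEq D] in
theorem sub_iterate (i : ℕ) (x : {x // R x}) :
    (((σ.subtypePerm hR)^[i] x : {x // R x}) : D) = σ^[i] x.1 := by
  induction i with
  | zero => rfl
  | succ i ih =>
    rw [Function.iterate_succ_apply', Function.iterate_succ_apply']
    exact congrArg σ ih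

omit [Fintype D] [DecidableEq D] in
theorem sub_period (x : {x // R x}) :
    Function.minimalPeriod (σ.subtypePerm hR) x = Function.minimalPeriod σ x.1 := by
  apply Nat.dvd_antisymm
  · apply Function.IsPeriodicPt.minimalPeriod_dvd
    show (σ.subtypePerm hR)^[_] x = x
    apply Subtype.ext
    rw [sub_iterate]
    exact Function.isPeriodicPt_minimalPeriod _ _
  · apply Function.IsPeriodicPt.minimalPeriod_dvd
    show σ^[_] x.1 = x.1
    rw [← sub_iterate σ R hR]
    exact congrArg Subtype.val (Function.isPeriodicPt_minimalPeriod (σ.subtypePerm hR) x)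

open Classical in
theorem cyc_sub : (cyc (σ.subtypePerm hR) : ℚ) = ∑ x ∈ Finset.univ.filter R, vv σ x := by
  rw [cyc_eq_sum]
  rw [← Finset.sum_subtype_eq_sum_filter]
  refine Finset.sum_congr (by ext; simp) fun x _ => ?_
  rw [sub_period, vv]

end sub

namespace CMap

variable (M : CMap D)

open Classical in
open Relation in
/-- the Euler characteristic of an orbit is at most two -/
theorem euler_orbit (q : Quot M.rel) :
    ∑ x ∈ Finset.univ.filter (fun x => Quot.mk M.rel x = q),
      (vv M.th x + vv M.fc x - (if M.F x then 0 else 1 / 2)) ≤ 2 := by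
  set R : D → Prop := fun x => Quot.mk M.rel x = q with hRdef
  have hth : ∀ x, R (M.th x) ↔ R x := fun x => by
    have : Quot.mk M.rel x = Quot.mk M.rel (M.th x) := Quot.sound (Or.inl rfl)
    simp only [hRdef, this]
  have hga : ∀ x, R (M.ga x) ↔ R x := fun x => by
    have : Quot.mk M.rel x = Quot.mk M.rel (M.ga x) := Quot.sound (Or.inr rfl)
    simp only [hRdef, this]
  have hfc : ∀ x, R (M.fc x) ↔ R x := fun x => by
    rw [← M.th_ga, hth, hga]
  set S := M.th.subtypePerm hth
  set G := M.ga.subtypePerm hga
  have hG : ∀ x, G (G x) = x := fun x => by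
    apply Subtype.ext
    show M.ga (M.ga x.1) = x.1
    exact M.ga_ga _
  have h1 := defect_le_zero S G hG
  have hSG : S * G = M.fc.subtypePerm hfc := by
    ext x
    show M.th (M.ga x.1) = M.fc x.1
    exact M.th_ga _
  have hinv : ∀ x y, EqvGen M.rel x y → (R x ↔ R y) := fun x y h => by
    have : Quot.mk M.rel x = Quot.mk M.rel y := Quot.eqvGen_sound h
    simp only [hRdef, this]
  have horb : orb S G = 1 := by
    unfold orb ncl
    obtain ⟨x0, hx0⟩ := Quot.exists_rep q
    have hcon : ∀ x y, EqvGen M.rel x y → ∀ (hx : R x) (hy : R y),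
        EqvGen (fun a b : {x // R x} => S a = b ∨ G a = b) ⟨x, hx⟩ ⟨y, hy⟩ := by
      intro x y h
      induction h with
      | rel x y h =>
        intro hx hy
        refine EqvGen.rel _ _ (h.imp (fun h => Subtype.ext h) (fun h => Subtype.ext h))
      | refl x => intro hx hy; exact EqvGen.refl _
      | symm x y _ ih => intro hx hy; exact EqvGen.symm _ _ (ih hy hx)
      | trans x y z hxy _ ih1 ih2 =>
        intro hx hz
        have hy := (hinv _ _ hxy).1 hx
        exact EqvGen.trans _ _ _ (ih1 hx hy) (ih2 hy hz)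
    have huniq : ∀ p, p = Quot.mk (fun a b : {x // R x} => S a = b ∨ G a = b) ⟨x0, hx0⟩ := by
      intro p
      induction p using Quot.ind with
      | mk x =>
        refine Quot.eqvGen_sound (hcon _ _ ?_ x.2 hx0)
        exact Quot.eqvGen_exact ((show Quot.mk M.rel x.1 = q from x.2).trans hx0.symm)
    rw [Nat.card_eq_one_iff_unique]
    exact ⟨⟨fun a b => (huniq a).trans (huniq b).symm⟩, ⟨Quot.mk _ ⟨x0, hx0⟩⟩⟩
  rw [defect, hSG, horb] at h1
  have h1' : (cyc S : ℚ) + cyc G + cyc (M.fc.subtypePerm hfc) - Nat.card {x // R x} - 2 ≤ 0 := by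
    have h2 : ((cyc S : ℤ) + cyc G + cyc (M.fc.subtypePerm hfc) - Nat.card {x // R x} -
      2 * (1 : ℕ) : ℤ) ≤ 0 := h1
    have h3 : (((cyc S : ℤ) + cyc G + cyc (M.fc.subtypePerm hfc) - Nat.card {x // R x} -
      2 * (1 : ℕ) : ℤ) : ℚ) ≤ 0 := by exact_mod_cast h2
    push_cast at h3
    linarith
  have hcard : (Nat.card {x // R x} : ℚ) = ∑ x ∈ Finset.univ.filter R, (1 : ℚ) := by
    rw [Nat.card_eq_fintype_card, Fintype.card_subtype]
    simp
  have hper : ∀ x, vv M.ga x = if M.F x then 1 else 1 / 2 := by
    intro x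
    unfold vv
    by_cases hx : M.F x
    · rw [if_pos hx, Function.minimalPeriod_eq_one_iff_isFixedPt.2 (M.ga_F hx)]
      norm_num
    · rw [if_neg hx]
      have h2 : Function.minimalPeriod M.ga x = 2 := by
        have hd : Function.minimalPeriod M.ga x ∣ 2 :=
          Function.IsPeriodicPt.minimalPeriod_dvd (M.ga_ga x)
        rcases (Nat.dvd_prime Nat.prime_two).1 hd with h | h
        · exfalso
          have := Function.minimalPeriod_eq_one_iff_isFixedPt.1 h
          exact M.inv_ne x ((M.ga_nF hx).symm.trans this)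
        · exact h
      rw [h2]
      norm_num
  rw [cyc_sub, cyc_sub, cyc_sub, hcard] at h1'
  have hsum : ∑ x ∈ Finset.univ.filter R, (vv M.th x + vv M.fc x -
      (if M.F x then 0 else 1 / 2)) =
      ∑ x ∈ Finset.univ.filter R, vv M.th x + ∑ x ∈ Finset.univ.filter R, vv M.ga x +
      ∑ x ∈ Finset.univ.filter R, vv M.fc x - ∑ x ∈ Finset.univ.filter R, (1 : ℚ) := by
    rw [← Finset.sum_add_distrib, ← Finset.sum_add_distrib, ← Finset.sum_sub_distrib]
    refine Finset.sum_congr rfl fun x _ => ?_
    rw [hper]
    split_ifs <;> ring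
  rw [hsum]
  linarith

open Classical in
/-- **The region.** -/
theorem exists_region {ω : D → ℚ} (hg : M.Good ω)
    (hcount : ∑ x, ((if M.F x then 0 else 1 / 2) - ω x) < (cyc M.fc : ℚ)) :
    ∃ R : D → Prop, (∀ x, R (M.th x) ↔ R x) ∧ (∀ x, R (M.ga x) ↔ R x) ∧
      (∀ x, R x → ¬ M.Emp x) ∧ (∃ x, R x) ∧
      (∀ x y, R x → R y → M.Xc x → M.Xc y → M.th.SameCycle x y) ∧
      ∑ x ∈ Finset.univ.filter R, ((if M.F x then 0 else 1 / 2) - ω x -
        (if M.Lf x then vv M.th (M.inv x) else 0)) < ∑ x ∈ Finset.univ.filter R, vv M.fc x := by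
  have hq : Fintype (Quot M.rel) := Fintype.ofFinite _
  -- an orbit with negative charge
  obtain ⟨q, hqn⟩ : ∃ q : Quot M.rel,
      ∑ x ∈ Finset.univ.filter (fun x => Quot.mk M.rel x = q), M.chg ω x < 0 := by
    by_contra hno
    push Not at hno
    have h1 : 0 ≤ ∑ x, M.chg ω x := by
      rw [← Finset.sum_fiberwise_of_maps_to (s := Finset.univ) (t := Finset.univ)
        (g := fun x => Quot.mk M.rel x) (fun _ _ => Finset.mem_univ _)]
      exact Finset.sum_nonneg fun q _ => hno q
    rw [sum_chg] at h1
    linarith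
  have heu := M.euler_orbit q
  set R : D → Prop := fun x => Quot.mk M.rel x = q with hRdef
  have hth : ∀ x, R (M.th x) ↔ R x := fun x => by
    have : Quot.mk M.rel x = Quot.mk M.rel (M.th x) := Quot.sound (Or.inl rfl)
    simp only [hRdef, this]
  have hga : ∀ x, R (M.ga x) ↔ R x := fun x => by
    have : Quot.mk M.rel x = Quot.mk M.rel (M.ga x) := Quot.sound (Or.inr rfl)
    simp only [hRdef, this]
  -- no empty side in R
  have hne : ∀ x, R x → ¬ M.Emp x := by
    intro x hx hE
    have h1 : Finset.univ.filter R = cl M.th x := by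
      ext y
      rw [mem_cl, Finset.mem_filter]
      constructor
      · intro h
        refine M.eqv_emp hE (Quot.eqvGen_exact ?_)
        exact hx.trans h.2.symm
      · intro h
        exact ⟨Finset.mem_univ _, (inv_same hth h).1 hx⟩
    have h2 := M.sum_chg_emp hg x hE
    have h3 : ∑ x ∈ Finset.univ.filter R, M.chg ω x < 0 := hqn
    rw [h1, h2] at h3
    exact lt_irrefl _ h3
  have hqn' : ∑ x ∈ Finset.univ.filter R, ((if M.F x then 0 else 1 / 2) - ω x -
        (if M.Lf x then vv M.th (M.inv x) else 0)) <
        ∑ x ∈ Finset.univ.filter R, vv M.fc x := by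
    have h1 : ∑ x ∈ Finset.univ.filter R, M.chg ω x =
        ∑ x ∈ Finset.univ.filter R, ((if M.F x then 0 else 1 / 2) - ω x -
        (if M.Lf x then vv M.th (M.inv x) else 0)) - ∑ x ∈ Finset.univ.filter R, vv M.fc x := by
      rw [← Finset.sum_sub_distrib]
      refine Finset.sum_congr rfl fun x hx => ?_
      have hE : ¬ (M.c x ∧ M.Emp x) := fun h => hne x (Finset.mem_filter.1 hx).2 h.2
      rw [chg, if_neg hE]
      ring
    have h2 : ∑ x ∈ Finset.univ.filter R, M.chg ω x < 0 := hqn
    linarith
  refine ⟨R, hth, hga, hne, ?_, ?_, hqn'⟩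
  · obtain ⟨x, hx⟩ := Quot.exists_rep q
    exact ⟨x, hx⟩
  · intro x0 y0 hx0 hy0 hX hY
    by_contra hns
    -- weights with sum at most one on every cycle
    have hle : ∑ x ∈ Finset.univ.filter R, (ω x + (if M.Lf x then vv M.th (M.inv x) else 0) +
        (if M.th.SameCycle x0 x then vv M.th x else 0) +
        (if M.th.SameCycle y0 x then vv M.th x else 0)) ≤
        ∑ x ∈ Finset.univ.filter R, vv M.th x := by
      refine cav M.th R hth _ _ fun x hx => ?_
      rw [sum_vv]
      by_cases hcx : ∃ y, M.th.SameCycle x y ∧ M.c y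
      · obtain ⟨y, hxy, hcy⟩ := hcx
        have hω : ∀ z ∈ cl M.th x, ω z = 0 := fun z hz =>
          (hg.circ y hcy z (hxy.symm.trans (mem_cl.1 hz))).2
        -- leaf part
        have hleaf : ∑ z ∈ cl M.th x, (if M.Lf z then vv M.th (M.inv z) else 0) ≤ 1 := by
          have h1 : ∀ z ∈ cl M.th x, (if M.Lf z then vv M.th (M.inv z) else 0) ≤
              if M.c z then vv M.th (M.inv z) else 0 := by
            intro z _
            by_cases h : M.Lf z
            · rw [if_pos h, if_pos h.1]
            · rw [if_neg h]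
              split_ifs
              · exact (vv_pos _ _).le
              · exact le_refl _
          refine (Finset.sum_le_sum h1).trans ?_
          rw [← Finset.sum_filter, ← sum_vv M.th (M.inv y)]
          have h2 : ∑ z ∈ (cl M.th x).filter M.c, vv M.th (M.inv z) =
              ∑ z ∈ ((cl M.th x).filter M.c).map M.inv.toEmbedding, vv M.th z := by
            rw [Finset.sum_map]
            rfl
          rw [h2]
          refine Finset.sum_le_sum_of_subset_of_nonneg ?_ fun z _ _ => (vv_pos _ _).le
          intro z hz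
          rw [Finset.mem_map] at hz
          obtain ⟨z', hz', rfl⟩ := hz
          rw [Finset.mem_filter, mem_cl] at hz'
          rw [mem_cl]
          exact hg.same y z' hcy hz'.2 (hxy.symm.trans hz'.1)
        by_cases hLy : M.Emp (M.inv y)
        · -- a leaf circle: not the cycle of x0 or y0
          have hnx : ∀ w, M.Xc w → ¬ M.th.SameCycle w x := by
            intro w hw hwx
            exact hw.2 ((M.emp_same (hg.same w y hw.1 hcy (hwx.trans hxy))).2 hLy)
          have h3 : ∀ z ∈ cl M.th x, ¬ M.th.SameCycle x0 z := fun z hz h =>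
            hnx x0 hX (h.trans (mem_cl.1 hz).symm)
          have h4 : ∀ z ∈ cl M.th x, ¬ M.th.SameCycle y0 z := fun z hz h =>
            hnx y0 hY (h.trans (mem_cl.1 hz).symm)
          calc _ = ∑ z ∈ cl M.th x, (if M.Lf z then vv M.th (M.inv z) else 0) := by
                refine Finset.sum_congr rfl fun z hz => ?_
                rw [hω z hz, if_neg (h3 z hz), if_neg (h4 z hz)]
                ring
            _ ≤ 1 := hleaf
        · have h0 : ∀ z ∈ cl M.th x, ¬ M.Lf z := by
            intro z hz hL
            exact hLy ((M.emp_same (hg.same z y hL.1 hcy ((mem_cl.1 hz).symm.trans hxy))).1 hL.2)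
          by_cases hxx : M.th.SameCycle x0 x
          · have h4 : ∀ z ∈ cl M.th x, ¬ M.th.SameCycle y0 z := fun z hz h =>
              hns (hxx.trans ((mem_cl.1 hz).trans h.symm))
            calc _ = ∑ z ∈ cl M.th x, vv M.th z := by
                  refine Finset.sum_congr rfl fun z hz => ?_
                  rw [hω z hz, if_neg (h0 z hz), if_neg (h4 z hz),
                    if_pos (hxx.trans (mem_cl.1 hz))]
                  ring
              _ ≤ 1 := (sum_vv _ _).le
          · have h3 : ∀ z ∈ cl M.th x, ¬ M.th.SameCycle x0 z := fun z hz h =>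
              hxx (h.trans (mem_cl.1 hz).symm)
            calc _ ≤ ∑ z ∈ cl M.th x, vv M.th z := by
                  refine Finset.sum_le_sum fun z hz => ?_
                  rw [hω z hz, if_neg (h0 z hz), if_neg (h3 z hz)]
                  have := (vv_pos M.th z).le
                  split_ifs <;> linarith
              _ ≤ 1 := (sum_vv _ _).le
      · push Not at hcx
        have hn := (hg.node x hcx).1
        have h1 : ∀ z ∈ cl M.th x, ω z + (if M.Lf z then vv M.th (M.inv z) else 0) +
            (if M.th.SameCycle x0 z then vv M.th z else 0) +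
            (if M.th.SameCycle y0 z then vv M.th z else 0) = ω z := by
          intro z hz
          have hz' := mem_cl.1 hz
          rw [if_neg (fun h : M.Lf z => hcx z hz' h.1),
            if_neg (fun h => hcx x0 (hz'.trans h.symm) hX.1),
            if_neg (fun h => hcx y0 (hz'.trans h.symm) hY.1)]
          ring
        rw [Finset.sum_congr rfl h1, hn]
    have hone : ∀ w, R w → ∑ x ∈ Finset.univ.filter R,
        (if M.th.SameCycle w x then vv M.th x else 0) = 1 := by
      intro w hw
      rw [← Finset.sum_filter, ← sum_vv M.th w]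
      refine Finset.sum_congr ?_ fun _ _ => rfl
      ext z
      rw [mem_cl, Finset.mem_filter, Finset.mem_filter]
      exact ⟨fun h => h.2, fun h => ⟨⟨Finset.mem_univ _, (inv_same hth h).1 hw⟩, h⟩⟩
    have e1 := hone x0 hx0
    have e2 := hone y0 hy0
    have heu' : ∑ x ∈ Finset.univ.filter R,
      (vv M.th x + vv M.fc x - (if M.F x then 0 else 1 / 2)) ≤ 2 := heu
    rw [Finset.sum_sub_distrib, Finset.sum_add_distrib] at heu'
    rw [Finset.sum_add_distrib, Finset.sum_add_distrib, Finset.sum_add_distrib, e1, e2] at hle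
    rw [Finset.sum_sub_distrib, Finset.sum_sub_distrib] at hqn'
    linarith

end CMap

end Pool.Agent.Lib.MP_5854e1_co.Crc
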