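import Pool.Agent.Lib.MP_5854e1_co.Crc.RegionThm
import Pool.Agent.Lib.MP_5854e1_co.MnrC

/-!
# Connected planar maps labelled by a graph

A finite planar cover of `G` gives a finite map `(rot, inv)` which is transitive, satisfies
`V - E + F = 2`, and is labelled by `G`: the darts at a vertex correspond to the neighbours of
its label.
-/

set_option autoImplicit false

open Equiv Equiv.Perm Relation

namespace Pool.Agent.Lib.MP_5854e1_co.Crc

universe u

/-- a map labelled by the graph `G` -/
structure GMap {U : Type u} (G : SimpleGraph U) (D : Type*) where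
  /-- the next dart at the vertex -/
  rot : Perm D
  /-- the other dart of the edge -/
  inv : Perm D
  /-- the label of the vertex of the dart -/
  l : D → U
  inv_inv : ∀ x, inv (inv x) = x
  inv_ne : ∀ x, inv x ≠ x
  l_rot : ∀ x, l (rot x) = l x
  adj : ∀ x, G.Adj (l x) (l (inv x))
  inj : ∀ x y, rot.SameCycle x y → l (inv x) = l (inv y) → x = y
  surj : ∀ x v, G.Adj (l x) v → ∃ y, rot.SameCycle x y ∧ l (inv y) = v

/-- all darts are connected by rotations and reversals -/
def GMap.Conn {U : Type u} {G : SimpleGraph U} {D : Type*} (M : GMap G D) : Prop :=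
  ∀ x y, EqvGen (fun a b => M.rot a = b ∨ M.inv a = b) x y

/-- `V - E + F = 2` -/
def GMap.Sphere {U : Type u} {G : SimpleGraph U} {D : Type*} [Fintype D] (M : GMap G D) : Prop :=
  ∑ x, (vv M.rot x + vv (M.rot * M.inv) x - 1 / 2) = 2

section orbits

variable {D : Type*} [Fintype D] [DecidableEq D]

/-- the map without contracted edges -/
def plain (rot inv : Perm D) (h1 : ∀ x, inv (inv x) = x) (h2 : ∀ x, inv x ≠ x) : CMap D where
  rot := rot
  inv := inv
  F := fun _ => False
  c := fun _ => False
  inv_inv := h1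
  inv_ne := h2
  F_inv := fun _ => Iff.rfl
  c_inv := fun _ => Iff.rfl
  c_F := fun _ h => h

omit [Fintype D] [DecidableEq D] in
theorem vv_invol {inv : Perm D} (h1 : ∀ x, inv (inv x) = x) (h2 : ∀ x, inv x ≠ x) (x : D) :
    vv inv x = 1 / 2 := by
  unfold vv
  have h : Function.minimalPeriod inv x = 2 := by
    have hd : Function.minimalPeriod inv x ∣ 2 :=
      Function.IsPeriodicPt.minimalPeriod_dvd (h1 x)
    rcases (Nat.dvd_prime Nat.prime_two).1 hd with h | h
    · exact absurd (Function.minimalPeriod_eq_one_iff_isFixedPt.1 h) (h2 x)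
    · exact h
  rw [h]
  norm_num

open Classical in
/-- In a planar map every orbit has Euler characteristic two. -/
theorem orbit_eq (rot inv : Perm D) (h1 : ∀ x, inv (inv x) = x) (h2 : ∀ x, inv x ≠ x)
    (h0 : defect rot inv = 0) (q : Quot (fun x y => rot x = y ∨ inv x = y)) :
    ∑ x ∈ Finset.univ.filter (fun x => Quot.mk (fun x y => rot x = y ∨ inv x = y) x = q),
      (vv rot x + vv (rot * inv) x - 1 / 2) = 2 := by
  set N := plain rot inv h1 h2 with hN
  have hth : N.th = rot := by
    ext x
    exact N.th_nF (x := x) (fun h => h)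
  have hga : N.ga = inv := by
    ext x
    exact N.ga_nF (x := x) (fun h => h)
  have hrel : N.rel = fun x y => rot x = y ∨ inv x = y := by
    funext x y
    unfold CMap.rel
    rw [hth, hga]
  have hfc : N.fc = rot * inv := rfl
  have hle : ∀ q : Quot (fun x y => rot x = y ∨ inv x = y),
      ∑ x ∈ Finset.univ.filter (fun x => Quot.mk (fun x y => rot x = y ∨ inv x = y) x = q),
      (vv rot x + vv (rot * inv) x - 1 / 2) ≤ 2 := by
    rw [← hrel]
    intro q
    have h3 := N.euler_orbit q
    rw [hth, hfc] at h3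
    refine le_trans (le_of_eq (Finset.sum_congr rfl fun x _ => ?_)) h3
    rw [if_neg (show ¬ N.F x from fun h => h)]
  have htot : ∑ x, (vv rot x + vv (rot * inv) x - 1 / 2) =
      2 * (Nat.card (Quot (fun x y => rot x = y ∨ inv x = y)) : ℚ) := by
    have e1 : (cyc inv : ℚ) = Nat.card D / 2 := by
      rw [cyc_eq_vv, Finset.sum_congr rfl (fun x _ => vv_invol h1 h2 x), Finset.sum_const,
        Finset.card_univ, nsmul_eq_mul, Nat.card_eq_fintype_card]
      ring
    have e2 : ∑ x : D, (vv rot x + vv (rot * inv) x - 1 / 2) =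
        cyc rot + cyc (rot * inv) - Nat.card D / 2 := by
      rw [cyc_eq_vv, cyc_eq_vv, Finset.sum_sub_distrib, Finset.sum_add_distrib,
        Finset.sum_const, Finset.card_univ, nsmul_eq_mul, Nat.card_eq_fintype_card]
      ring
    have e3 : ((cyc rot : ℚ) + cyc inv + cyc (rot * inv) - Nat.card D - 2 * orb rot inv) = 0 := by
      have h3 : (((cyc rot : ℤ) + cyc inv + cyc (rot * inv) - Nat.card D - 2 * orb rot inv : ℤ) :
          ℚ) = 0 := by
        have h4 : (cyc rot : ℤ) + cyc inv + cyc (rot * inv) - Nat.card D - 2 * orb rot inv = 0 :=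
          h0
        rw [h4]
        rfl
      push_cast at h3
      exact h3
    rw [e2]
    have e4 : (orb rot inv : ℚ) = (Nat.card (Quot (fun x y => rot x = y ∨ inv x = y)) : ℚ) := rfl
    rw [← e4]
    linarith
  have : Fintype (Quot (fun x y => rot x = y ∨ inv x = y)) := Fintype.ofFinite _
  have hsum : ∑ q : Quot (fun x y => rot x = y ∨ inv x = y),
      (2 - ∑ x ∈ Finset.univ.filter
        (fun x => Quot.mk (fun x y => rot x = y ∨ inv x = y) x = q),
        (vv rot x + vv (rot * inv) x - 1 / 2)) = 0 := by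
    rw [Finset.sum_sub_distrib, Finset.sum_fiberwise_of_maps_to (s := Finset.univ)
      (t := Finset.univ) (g := fun x => Quot.mk (fun x y => rot x = y ∨ inv x = y) x)
      (fun _ _ => Finset.mem_univ _), htot, Finset.sum_const, Finset.card_univ, nsmul_eq_mul,
      Nat.card_eq_fintype_card]
    ring
  have h3 := (Finset.sum_eq_zero_iff_of_nonneg
    (fun q _ => sub_nonneg.2 (hle q))).1 hsum q (Finset.mem_univ q)
  linarith

end orbits

theorem exists_trans {U : Type u} {G : SimpleGraph U} (h : HasPlanarCover G)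
    (hE : ∃ u v, G.Adj u v) :
    ∃ (D : Type) (_ : Fintype D) (_ : DecidableEq D) (_ : Nonempty D) (M : GMap G D),
      M.Conn ∧ M.Sphere := by
  classical
  obtain ⟨n, H, φ, hs, hφ, hpl⟩ := h
  obtain ⟨rot, hrot, hdef⟩ := hpl.defect_eq
  have : Fintype H.Dart := Fintype.ofFinite _
  obtain ⟨x0⟩ : Nonempty H.Dart := by
    obtain ⟨u, v, huv⟩ := hE
    obtain ⟨w, rfl⟩ := hs u
    obtain ⟨w', hw', -⟩ := (hφ w).surjOn huv
    exact ⟨⟨(w, w'), hw'⟩⟩
  have h1 : ∀ x, flip H (flip H x) = x := fun x => x.symm_symm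
  have h2 : ∀ x, flip H x ≠ x := fun x => SimpleGraph.Dart.symm_ne x
  set rel : H.Dart → H.Dart → Prop := fun x y => rot x = y ∨ flip H x = y with hrel
  set q : Quot rel := Quot.mk rel x0 with hq
  set R : H.Dart → Prop := fun x => Quot.mk rel x = q with hR
  have hRr : ∀ x, R (rot x) ↔ R x := fun x => by
    have : Quot.mk rel x = Quot.mk rel (rot x) := Quot.sound (Or.inl rfl)
    simp only [hR, this]
  have hRi : ∀ x, R (flip H x) ↔ R x := fun x => by
    have : Quot.mk rel x = Quot.mk rel (flip H x) := Quot.sound (Or.inr rfl)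
    simp only [hR, this]
  have hRf : ∀ x, R ((rot * flip H) x) ↔ R x := fun x => by
    rw [Perm.mul_apply, hRr, hRi]
  have hsame : ∀ x y : {x // R x}, (rot.subtypePerm hRr).SameCycle x y ↔ x.1.fst = y.1.fst := by
    intro x y
    rw [← hrot]
    exact sameCycle_subtypePerm
  have : Fintype {x // R x} := Fintype.ofFinite _
  refine ⟨{x // R x}, this, Classical.decEq _, ⟨⟨x0, rfl⟩⟩,
    { rot := rot.subtypePerm hRr
      inv := (flip H).subtypePerm hRi
      l := fun x => φ x.1.fst
      inv_inv := fun x => Subtype.ext (h1 x.1)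
      inv_ne := fun x h => h2 x.1 (congrArg Subtype.val h)
      l_rot := fun x => ?_
      adj := fun x => hφ.adj x.1.adj
      inj := fun x y h h' => ?_
      surj := fun x v h => ?_ }, ?_, ?_⟩
  · have h3 := (hrot x.1 (rot x.1)).1 ⟨1, by simp⟩
    exact (congrArg φ h3).symm
  · have h3 := (hsame x y).1 h
    refine Subtype.ext (hφ.dart_inj h3 ?_)
    exact SimpleGraph.Dart.ext _ _ (Prod.ext (congrArg φ h3) h')
  · obtain ⟨w, hw, hwv⟩ := (hφ x.1.fst).surjOn h
    set d : H.Dart := ⟨(x.1.fst, w), hw⟩ with hd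
    have hdR : R d := by
      have h3 : rot.SameCycle x.1 d := (hrot _ _).2 rfl
      exact (inv_same hRr h3).1 x.2
    exact ⟨⟨d, hdR⟩, (hsame _ _).2 rfl, hwv⟩
  · have key : ∀ x y, EqvGen rel x y → ∀ (hx : R x) (hy : R y),
        EqvGen (fun a b : {x // R x} => rot.subtypePerm hRr a = b ∨
          (flip H).subtypePerm hRi a = b) ⟨x, hx⟩ ⟨y, hy⟩ := by
      intro x y h
      induction h with
      | rel x y h =>
        intro hx hy
        exact EqvGen.rel _ _ (h.imp (fun h => Subtype.ext h) (fun h => Subtype.ext h))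
      | refl x => intro hx hy; exact EqvGen.refl _
      | symm x y _ ih => intro hx hy; exact EqvGen.symm _ _ (ih hy hx)
      | trans x y z hxy _ ih1 ih2 =>
        intro hx hz
        have hy : R y := by
          have : Quot.mk rel x = Quot.mk rel y := Quot.eqvGen_sound hxy
          exact this.symm.trans hx
        exact EqvGen.trans _ _ _ (ih1 hx hy) (ih2 hy hz)
    intro x y
    refine key x.1 y.1 (Quot.eqvGen_exact ?_) x.2 y.2
    exact (show Quot.mk rel x.1 = q from x.2).trans (show Quot.mk rel y.1 = q from y.2).symm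
  · have h3 := orbit_eq rot (flip H) h1 h2 hdef q
    have h4 : ∑ x : {x // R x}, (vv rot x.1 + vv (rot * flip H) x.1 - 1 / 2) = 2 := by
      refine Eq.trans ?_ h3
      rw [← Finset.sum_subtype_eq_sum_filter]
      exact Finset.sum_congr (by ext; simp) fun x _ => rfl
    refine (Finset.sum_congr rfl fun x _ => ?_).trans h4
    have e1 : vv (rot.subtypePerm hRr) x = vv rot x.1 := by
      unfold vv
      rw [sub_period]
    have e2 : vv (rot.subtypePerm hRr * (flip H).subtypePerm hRi) x = vv (rot * flip H) x.1 := by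
      have e3 : rot.subtypePerm hRr * (flip H).subtypePerm hRi =
          (rot * flip H).subtypePerm hRf := by
        refine Equiv.ext fun y => rfl
      unfold vv
      rw [e3, sub_period]
    show vv (rot.subtypePerm hRr) x + vv (rot.subtypePerm hRr * (flip H).subtypePerm hRi) x -
      1 / 2 = _
    rw [e1, e2]

end Pool.Agent.Lib.MP_5854e1_co.Crc
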